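import Mathlib

/-!
Rudimentary (bounded arithmetical) relations.
-/

set_option autoImplicit false

namespace Pool.Agent.V8H44.Sp

/-- `Rud k S`: the `k`-ary relation `S` on the natural numbers is definable by a bounded formula in
`≤, +, ·`.  (The least class containing all equations between polynomials with natural number
coefficients and closed under complement, intersection, and bounded quantification
`∃ x ≤ p(v)` with a polynomial bound.) -/
inductive Rud : (k : ℕ) → Set (Fin k → ℕ) → Prop
  | eq (k : ℕ) (p q : MvPolynomial (Fin k) ℕ) :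
      Rud k {v | MvPolynomial.eval v p = MvPolynomial.eval v q}
  | compl (k : ℕ) (S : Set (Fin k → ℕ)) : Rud k S → Rud k Sᶜ
  | inter (k : ℕ) (S T : Set (Fin k → ℕ)) : Rud k S → Rud k T → Rud k (S ∩ T)
  | bex (k : ℕ) (p : MvPolynomial (Fin k) ℕ) (S : Set (Fin (k + 1) → ℕ)) : Rud (k + 1) S →
      Rud k {v | ∃ x, x ≤ MvPolynomial.eval v p ∧ (Fin.cons x v : Fin (k + 1) → ℕ) ∈ S}

/-- rudimentary sets of natural numbers -/
def IsRud (A : Set ℕ) : Prop := Rud 1 {v | v 0 ∈ A}

theorem Rud.congr {k : ℕ} {S T : Set (Fin k → ℕ)} (h : Rud k S) (e : ∀ v, v ∈ S ↔ v ∈ T) :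
    Rud k T := by
  have : S = T := Set.ext e
  rwa [← this]

theorem eval_bind₁' {k m : ℕ} (P : Fin k → MvPolynomial (Fin m) ℕ) (p : MvPolynomial (Fin k) ℕ)
    (v : Fin m → ℕ) : MvPolynomial.eval v (MvPolynomial.bind₁ P p) =
      MvPolynomial.eval (fun i => MvPolynomial.eval v (P i)) p := by
  induction p using MvPolynomial.induction_on with
  | C a => simp
  | add p q hp hq => simp [hp, hq]
  | mul_X p i hp => simp [hp]

/-- substitution of polynomials -/
theorem Rud.subst {k : ℕ} {S : Set (Fin k → ℕ)} (h : Rud k S) :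
    ∀ {m : ℕ} (P : Fin k → MvPolynomial (Fin m) ℕ),
      Rud m {v | (fun i => MvPolynomial.eval v (P i)) ∈ S} := by
  induction h with
  | eq k p q =>
    intro m P
    refine (Rud.eq m (MvPolynomial.bind₁ P p) (MvPolynomial.bind₁ P q)).congr fun v => ?_
    simp only [Set.mem_ofPred_eq, eval_bind₁']
  | compl k S _ ih =>
    intro m P
    exact Rud.compl _ _ (ih P)
  | inter k S T _ _ ih1 ih2 =>
    intro m P
    exact Rud.inter _ _ _ (ih1 P) (ih2 P)
  | bex k p S _ ih =>
    intro m P
    let P' : Fin (k + 1) → MvPolynomial (Fin (m + 1)) ℕ :=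
      Fin.cons (MvPolynomial.X 0) (fun i => MvPolynomial.rename Fin.succ (P i))
    refine (Rud.bex m (MvPolynomial.bind₁ P p) _ (ih P')).congr fun v => ?_
    simp only [Set.mem_ofPred_eq, eval_bind₁']
    refine exists_congr fun x => and_congr Iff.rfl ?_
    have : (fun i => MvPolynomial.eval (Fin.cons x v : Fin (m + 1) → ℕ) (P' i)) =
        (Fin.cons x (fun i => MvPolynomial.eval v (P i)) : Fin (k + 1) → ℕ) := by
      funext i
      refine Fin.cases ?_ (fun i => ?_) i
      · simp [P']
      · simp only [P', Fin.cons_succ, MvPolynomial.eval_rename]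
        congr 1
    rw [this]

/-- the preimage of a rudimentary set under a polynomial -/
theorem IsRud.preimage {A : Set ℕ} (h : IsRud A) (p : Polynomial ℕ) :
    IsRud {n | p.eval n ∈ A} := by
  have h1 := Rud.subst h (m := 1) (fun _ => Polynomial.aeval (MvPolynomial.X 0) p)
  refine h1.congr fun v => ?_
  have : MvPolynomial.eval v (Polynomial.aeval (MvPolynomial.X 0) p) = p.eval (v 0) := by
    clear h1
    induction p using Polynomial.induction_on' with
    | add p q hp hq => simp [hp, hq]
    | monomial n a => simp [Polynomial.aeval_monomial]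
  show MvPolynomial.eval v (Polynomial.aeval (MvPolynomial.X 0) p) ∈ A ↔ _
  rw [this]
  rfl

theorem IsRud.compl {A : Set ℕ} (h : IsRud A) : IsRud Aᶜ :=
  (Rud.compl _ _ h).congr fun _ => Iff.rfl

theorem IsRud.inter {A B : Set ℕ} (h : IsRud A) (h' : IsRud B) : IsRud (A ∩ B) :=
  (Rud.inter _ _ _ h h').congr fun _ => Iff.rfl

theorem isRud_singleton (n : ℕ) : IsRud {n} := by
  refine (Rud.eq 1 (MvPolynomial.X 0) (MvPolynomial.C n)).congr fun v => ?_
  simp

theorem IsRud.union {A B : Set ℕ} (h : IsRud A) (h' : IsRud B) : IsRud (A ∪ B) := by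
  have := (h.compl.inter h'.compl).compl
  rwa [← Set.compl_union, compl_compl] at this

/-- nonzero numbers -/
theorem isRud_pos : IsRud {n | 0 < n} := by
  have := (isRud_singleton 0).compl
  refine this.congr fun v => ?_
  show ¬ (v 0 = 0) ↔ 0 < v 0
  omega

end Pool.Agent.V8H44.Sp
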