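import Pool.Agent.V8H44.Sp.QF
import Pool.Agent.V8H44.Sp.Rud

/-!
The prefixes `∀∃∀` and `∀∀∀∃`: the side lengths of the squares that can be tiled by a finite set of
tiles are the spectrum of sentences with these prefixes.
-/

set_option autoImplicit false
set_option linter.unusedVariables false
set_option linter.unusedSimpArgs false

namespace Pool.Agent.V8H44.Sp

open FirstOrder

/-- the constraints on three points `x`, `y` (the successor of `x`) and `z`: `O` is the origin, `S`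
the successor, `Lt` the order and `K` the tiling -/
structure ConP (T : TileSys) {M : Type} (O : M → Prop) (S Lt : M → M → Prop)
    (K : T.C → M → M → Prop) (x y z : M) : Prop where
  s1 : S x y
  s2 : S x z → z = y
  s3 : S z y → z = x
  o1 : O x ∧ O z → x = z
  l1 : ¬ Lt x x
  l2 : O y → ¬ Lt z y
  l3 : ¬ O y → (Lt z y ↔ (Lt z x ∨ z = x))
  k1 : ∃ c, K c x z
  k2 : ∀ c, ∀ c', K c x z → K c' x z → c = c'
  h1 : ¬ O y → ∀ c, ∀ c', K c x z → K c' y z → T.H c c'
  h2 : ¬ O y → ∀ c, ∀ c', K c z x → K c' z y → T.V c c'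
  b1 : O x → ∀ c, K c x z → T.Lf c
  b2 : O y → ∀ c, K c x z → T.Rt c
  b3 : O x → ∀ c, K c z x → T.Bt c
  b4 : O y → ∀ c, K c z x → T.Tp c

theorem con_of_tiling (T : TileSys) {N : ℕ} (hN : 0 < N) {c : ℕ → ℕ → T.C} (hc : T.IsSol N c) :
    ∃ (O : Fin N → Prop) (S Lt : Fin N → Fin N → Prop) (K : T.C → Fin N → Fin N → Prop),
      ∀ x, ∃ y, ∀ z, ConP T O S Lt K x y z := by
  let O : Fin N → Prop := fun x => (x : ℕ) = 0
  let nx : Fin N → Fin N := fun x => if h : (x : ℕ) + 1 < N then ⟨x + 1, h⟩ else ⟨0, hN⟩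
  have hnx : ∀ x : Fin N, ((x : ℕ) + 1 < N ∧ (nx x : ℕ) = x + 1) ∨
      ((x : ℕ) + 1 = N ∧ (nx x : ℕ) = 0) := by
    intro x
    by_cases h : (x : ℕ) + 1 < N
    · left
      refine ⟨h, ?_⟩
      simp only [nx]
      rw [dif_pos h]
    · right
      refine ⟨by have := x.2; omega, ?_⟩
      simp only [nx]
      rw [dif_neg h]
  refine ⟨O, fun x y => y = nx x, fun x y => (x : ℕ) < y, fun d x z => c x z = d, ?_⟩
  intro x
  refine ⟨nx x, fun z => ?_⟩
  have hx := hnx x
  have hz := hnx z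
  have hx2 := x.2
  have hz2 := z.2
  refine ⟨rfl, fun h => h, ?_, ?_, ?_, ?_, ?_, ⟨_, rfl⟩, ?_, ?_, ?_, ?_, ?_, ?_, ?_⟩
  · intro h
    have h' := congrArg Fin.val h
    apply Fin.ext
    omega
  · rintro ⟨h1, h2⟩
    have h1 : (x : ℕ) = 0 := h1
    have h2 : (z : ℕ) = 0 := h2
    apply Fin.ext
    omega
  · exact lt_irrefl _
  · intro h
    have h : (nx x : ℕ) = 0 := h
    omega
  · intro h
    have h : ¬ (nx x : ℕ) = 0 := h
    rw [Fin.ext_iff]
    omega
  · rintro d d' rfl h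
    exact h
  · intro h d d' h1 h2
    have h : ¬ (nx x : ℕ) = 0 := h
    have h3 : (nx x : ℕ) = x + 1 := by omega
    rw [← h1, ← h2, h3]
    exact hc.H x (by omega) z z.2
  · intro h d d' h1 h2
    have h : ¬ (nx x : ℕ) = 0 := h
    have h3 : (nx x : ℕ) = x + 1 := by omega
    rw [← h1, ← h2, h3]
    exact hc.V z z.2 x (by omega)
  · intro h d h1
    have h : (x : ℕ) = 0 := h
    rw [← h1, h]
    exact hc.Lf z z.2
  · intro h d h1
    have h : (nx x : ℕ) = 0 := h
    have h3 : (x : ℕ) = N - 1 := by omega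
    rw [← h1, h3]
    exact hc.Rt z z.2
  · intro h d h1
    have h : (x : ℕ) = 0 := h
    rw [← h1, h]
    exact hc.Bt z z.2
  · intro h d h1
    have h : (nx x : ℕ) = 0 := h
    have h3 : (x : ℕ) = N - 1 := by omega
    rw [← h1, h3]
    exact hc.Tp z z.2

theorem tiling_of_con (T : TileSys) {M : Type} [Fintype M] [Nonempty M] {O : M → Prop}
    {S Lt : M → M → Prop} {K : T.C → M → M → Prop} (h : ∀ x, ∃ y, ∀ z, ConP T O S Lt K x y z) :
    T.Sol (Fintype.card M) := by
  classical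
  choose s hs using h
  have hinj : Function.Injective s := by
    intro a b hab
    have h1 := (hs b a).s3
    rw [← hab] at h1
    exact h1 (hs a a).s1
  have hper : ∀ z : M, ∃ p, 0 < p ∧ s^[p] z = z := by
    intro z
    have := hinj.mem_periodicPts z
    obtain ⟨p, hp, h⟩ := this
    exact ⟨p, hp, h⟩
  have hex : ∀ z : M, ∃ i, 1 ≤ i ∧ O (s^[i] z) := by
    intro z
    by_contra hcon
    push Not at hcon
    have hlt : ∀ i, 1 ≤ i → Lt z (s^[i] z) := by
      intro i hi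
      induction i with
      | zero => omega
      | succ i ih =>
        have h1 := hcon (i + 1) hi
        rw [Function.iterate_succ_apply'] at h1 ⊢
        refine ((hs (s^[i] z) z).l3 h1).2 ?_
        rcases Nat.eq_zero_or_pos i with rfl | h2
        · exact Or.inr rfl
        · exact Or.inl (ih h2)
    obtain ⟨p, hp, h1⟩ := hper z
    have h2 := hlt p hp
    rw [h1] at h2
    exact (hs z z).l1 h2
  have huniq : ∀ x z, O x → O z → x = z := fun x z h1 h2 => (hs x z).o1 ⟨h1, h2⟩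
  obtain ⟨o, ho⟩ : ∃ o, O o := by
    obtain ⟨i, _, h⟩ := hex (Classical.arbitrary M)
    exact ⟨_, h⟩
  have hreach : ∀ z : M, ∃ j, s^[j] o = z := by
    intro z
    obtain ⟨i, hi, h1⟩ := hex z
    obtain ⟨p, hp, h2⟩ := hper z
    have h3 : s^[i] z = o := huniq _ _ h1 ho
    refine ⟨p * i - i, ?_⟩
    rw [← h3, ← Function.iterate_add_apply, Nat.sub_add_cancel (Nat.le_mul_of_pos_left i hp)]
    have h4 : Function.IsPeriodicPt s p z := h2
    exact h4.mul_const i
  obtain ⟨p, hpdef⟩ : ∃ p, p = Function.minimalPeriod s o := ⟨_, rfl⟩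
  have hp : 0 < p := by
    rw [hpdef]
    exact Function.minimalPeriod_pos_of_mem_periodicPts (hinj.mem_periodicPts o)
  have hpo : s^[p] o = o := by
    rw [hpdef]
    exact Function.iterate_minimalPeriod
  have hbij : Function.Bijective (fun j : Fin p => s^[j] o) := by
    constructor
    · intro i j hij
      have h1 : (i : ℕ) < Function.minimalPeriod s o := lt_of_lt_of_eq i.2 hpdef
      have h2 : (j : ℕ) < Function.minimalPeriod s o := lt_of_lt_of_eq j.2 hpdef
      have h3 := (Function.iterate_injOn_Iio_minimalPeriod (f := s) (x := o)) h1 h2 hij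
      exact Fin.ext h3
    · intro z
      obtain ⟨j, rfl⟩ := hreach z
      refine ⟨⟨j % p, Nat.mod_lt _ hp⟩, ?_⟩
      simp only
      rw [hpdef]
      exact Function.iterate_mod_minimalPeriod_eq
  have hcard : Fintype.card M = p := by
    have := Fintype.card_of_bijective hbij
    rw [Fintype.card_fin] at this
    exact this.symm
  have hO : ∀ j < p, (O (s^[j] o) ↔ j = 0) := by
    intro j hj
    constructor
    · intro h
      have h1 : s^[j] o = s^[0] o := huniq _ _ h ho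
      have h2 := hbij.1 (a₁ := ⟨j, hj⟩) (a₂ := ⟨0, hp⟩) h1
      exact congrArg Fin.val h2
    · rintro rfl
      exact ho
  have hcol : ∀ x z : M, ∃ c, K c x z := fun x z => (hs x z).k1
  choose col hcol using hcol
  have hcolu : ∀ x z c, K c x z → c = col x z := fun x z c h => (hs x z).k2 _ _ h (hcol x z)
  rw [hcard]
  have hsucc : ∀ j, s^[j + 1] o = s (s^[j] o) := fun j => Function.iterate_succ_apply' s j o
  have hOs : ∀ j, j + 1 < p → ¬ O (s (s^[j] o)) := by
    intro j hj h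
    rw [← hsucc, hO _ hj] at h
    omega
  have hlast : O (s (s^[p - 1] o)) := by
    rw [← hsucc, Nat.sub_add_cancel hp, hpo]
    exact ho
  refine ⟨fun x z => col (s^[x] o) (s^[z] o), ?_, ?_, ?_, ?_, ?_, ?_⟩
  · intro x hx z hz
    simp only [hsucc]
    exact (hs _ _).h1 (hOs x hx) _ _ (hcol _ _) (hcol _ _)
  · intro x hx z hz
    simp only [hsucc]
    exact (hs _ _).h2 (hOs z hz) _ _ (hcol _ _) (hcol _ _)
  · intro z hz
    exact (hs _ _).b1 ((hO 0 hp).2 rfl) _ (hcol _ _)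
  · intro z hz
    exact (hs _ _).b2 hlast _ (hcol _ _)
  · intro x hx
    exact (hs _ _).b3 ((hO 0 hp).2 rfl) _ (hcol _ _)
  · intro x hx
    exact (hs _ _).b4 hlast _ (hcol _ _)

section formulas

variable {I J : Type} {n : ℕ}

theorem QFD.un (i : I) (a : Fin n) :
    QFD (L := LB I J) n (fun _ s v => s.RelMap (n := 1) (.un i) ![v a]) :=
  (QFD.rel (L := LB I J) (r := 1) (.un i) ![a]).congr fun M s v => by
    have : (fun l : Fin 1 => v (![a] l)) = ![v a] := by
      funext l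
      fin_cases l
      rfl
    rw [this]

theorem QFD.bi (j : J) (a b : Fin n) :
    QFD (L := LB I J) n (fun _ s v => s.RelMap (n := 2) (.bi j) ![v a, v b]) :=
  (QFD.rel (L := LB I J) (r := 2) (.bi j) ![a, b]).congr fun M s v => by
    have : (fun l : Fin 2 => v (![a, b] l)) = ![v a, v b] := by
      funext l
      fin_cases l <;> rfl
    rw [this]

/-- the constraints are quantifier free -/
theorem QFD.con (T : TileSys) (a b c : Fin n) : QFD (L := LB Unit (T.C ⊕ Bool)) n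
    (fun M s v => ConP T (fun x => s.RelMap (n := 1) (.un ()) ![x])
      (fun x y => s.RelMap (n := 2) (.bi (.inr false)) ![x, y])
      (fun x y => s.RelMap (n := 2) (.bi (.inr true)) ![x, y])
      (fun d x y => s.RelMap (n := 2) (.bi (.inl d)) ![x, y]) (v a) (v b) (v c)) := by
  have := T.fin
  have e : QFD (L := LB Unit (T.C ⊕ Bool)) n (fun M s v =>
    (s.RelMap (n := 2) (.bi (.inr false)) ![v a, v b]) ∧
    (s.RelMap (n := 2) (.bi (.inr false)) ![v a, v c] → v c = v b) ∧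
    (s.RelMap (n := 2) (.bi (.inr false)) ![v c, v b] → v c = v a) ∧
    (s.RelMap (n := 1) (.un ()) ![v a] ∧ s.RelMap (n := 1) (.un ()) ![v c] → v a = v c) ∧
    (¬ s.RelMap (n := 2) (.bi (.inr true)) ![v a, v a]) ∧
    (s.RelMap (n := 1) (.un ()) ![v b] → ¬ s.RelMap (n := 2) (.bi (.inr true)) ![v c, v b]) ∧
    (¬ s.RelMap (n := 1) (.un ()) ![v b] → (s.RelMap (n := 2) (.bi (.inr true)) ![v c, v b] ↔
      (s.RelMap (n := 2) (.bi (.inr true)) ![v c, v a] ∨ v c = v a))) ∧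
    (∃ d, s.RelMap (n := 2) (.bi (.inl d)) ![v a, v c]) ∧
    (∀ d, ∀ d', s.RelMap (n := 2) (.bi (.inl d)) ![v a, v c] →
      s.RelMap (n := 2) (.bi (.inl d')) ![v a, v c] → d = d') ∧
    (¬ s.RelMap (n := 1) (.un ()) ![v b] → ∀ d, ∀ d',
      s.RelMap (n := 2) (.bi (.inl d)) ![v a, v c] →
      s.RelMap (n := 2) (.bi (.inl d')) ![v b, v c] → T.H d d') ∧
    (¬ s.RelMap (n := 1) (.un ()) ![v b] → ∀ d, ∀ d',
      s.RelMap (n := 2) (.bi (.inl d)) ![v c, v a] →
      s.RelMap (n := 2) (.bi (.inl d')) ![v c, v b] → T.V d d') ∧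
    (s.RelMap (n := 1) (.un ()) ![v a] → ∀ d, s.RelMap (n := 2) (.bi (.inl d)) ![v a, v c] →
      T.Lf d) ∧
    (s.RelMap (n := 1) (.un ()) ![v b] → ∀ d, s.RelMap (n := 2) (.bi (.inl d)) ![v a, v c] →
      T.Rt d) ∧
    (s.RelMap (n := 1) (.un ()) ![v a] → ∀ d, s.RelMap (n := 2) (.bi (.inl d)) ![v c, v a] →
      T.Bt d) ∧
    (s.RelMap (n := 1) (.un ()) ![v b] → ∀ d, s.RelMap (n := 2) (.bi (.inl d)) ![v c, v a] →
      T.Tp d)) := by
    refine (QFD.bi _ _ _).and ((QFD.imp (QFD.bi _ _ _) (QFD.eq _ _)).and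
      ((QFD.imp (QFD.bi _ _ _) (QFD.eq _ _)).and
      ((QFD.imp ((QFD.un _ _).and (QFD.un _ _)) (QFD.eq _ _)).and
      ((QFD.bi _ _ _).not.and
      ((QFD.imp (QFD.un _ _) (QFD.bi _ _ _).not).and
      ((QFD.imp (QFD.un _ _).not ((QFD.bi _ _ _).iff ((QFD.bi _ _ _).or (QFD.eq _ _)))).and
      ((QFD.exists fun _ => QFD.bi _ _ _).and
      ((QFD.forall fun _ => QFD.forall fun _ => QFD.imp (QFD.bi _ _ _)
        (QFD.imp (QFD.bi _ _ _) (QFD.const _))).and
      ((QFD.imp (QFD.un _ _).not (QFD.forall fun _ => QFD.forall fun _ => QFD.imp (QFD.bi _ _ _)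
        (QFD.imp (QFD.bi _ _ _) (QFD.const _)))).and
      ((QFD.imp (QFD.un _ _).not (QFD.forall fun _ => QFD.forall fun _ => QFD.imp (QFD.bi _ _ _)
        (QFD.imp (QFD.bi _ _ _) (QFD.const _)))).and
      ((QFD.imp (QFD.un _ _) (QFD.forall fun _ => QFD.imp (QFD.bi _ _ _) (QFD.const _))).and
      ((QFD.imp (QFD.un _ _) (QFD.forall fun _ => QFD.imp (QFD.bi _ _ _) (QFD.const _))).and
      ((QFD.imp (QFD.un _ _) (QFD.forall fun _ => QFD.imp (QFD.bi _ _ _) (QFD.const _))).and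
      ((QFD.imp (QFD.un _ _)
        (QFD.forall fun _ => QFD.imp (QFD.bi _ _ _) (QFD.const _)))))))))))))))))
  refine e.congr fun M s v => ?_
  constructor
  · rintro ⟨h1, h2, h3, h4, h5, h6, h7, h8, h9, h10, h11, h12, h13, h14, h15⟩
    exact ⟨h1, h2, h3, h4, h5, h6, h7, h8, h9, h10, h11, h12, h13, h14, h15⟩
  · rintro ⟨h1, h2, h3, h4, h5, h6, h7, h8, h9, h10, h11, h12, h13, h14, h15⟩
    exact ⟨h1, h2, h3, h4, h5, h6, h7, h8, h9, h10, h11, h12, h13, h14, h15⟩

end formulas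

/-- the structure given by relations -/
def mkStr {T : TileSys} {M : Type} (O : M → Prop) (S Lt : M → M → Prop)
    (K : T.C → M → M → Prop) : (LB Unit (T.C ⊕ Bool)).Structure M where
  funMap f _ := Empty.elim f
  RelMap {r} R v := match r, R, v with
    | _, .un _, v => O (v 0)
    | _, .bi (.inl d), v => K d (v 0) (v 1)
    | _, .bi (.inr false), v => S (v 0) (v 1)
    | _, .bi (.inr true), v => Lt (v 0) (v 1)

/-- the prefix `∀∃∀` -/
def wAEA : Fin 3 → Bool := ![true, false, true]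

/-- the prefix `∀∀∀∃` -/
def wAAAE : Fin 4 → Bool := ![true, true, true, false]

theorem QQ_AEA {M : Type} (P : (Fin 3 → M) → Prop) :
    QQ wAEA P ↔ ∀ x, ∃ y, ∀ z, P ![x, y, z] := by
  have e : ∀ x y z : M, (Fin.snoc (Fin.snoc (Fin.snoc (Fin.elim0 : Fin 0 → M) x : Fin 1 → M) y :
      Fin 2 → M) z : Fin 3 → M) = ![x, y, z] := by
    intro x y z
    funext i
    fin_cases i <;> rfl
  simp only [← e]
  exact Iff.rfl

theorem QQ_AAAE {M : Type} (P : (Fin 4 → M) → Prop) :
    QQ wAAAE P ↔ ∀ x, ∀ y, ∀ z, ∃ t, P ![x, y, z, t] := by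
  have e : ∀ x y z t : M, (Fin.snoc (Fin.snoc (Fin.snoc (Fin.snoc (Fin.elim0 : Fin 0 → M) x :
      Fin 1 → M) y : Fin 2 → M) z : Fin 3 → M) t : Fin 4 → M) = ![x, y, z, t] := by
    intro x y z t
    funext i
    fin_cases i <;> rfl
  simp only [← e]
  exact Iff.rfl

theorem tile_AEA (T : TileSys) : IsPrefSpec wAEA {N | 0 < N ∧ T.Sol N} := by
  obtain ⟨ψ, hψ, hr⟩ := QFD.con (n := 3) T 0 1 2
  have := T.fin
  refine ⟨Unit, T.C ⊕ Bool, inferInstance, inferInstance, ψ, hψ, ?_⟩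
  ext N
  refine and_congr_right fun hN => ?_
  constructor
  · rintro ⟨c, hc⟩
    obtain ⟨O, S, Lt, K, h⟩ := con_of_tiling T hN hc
    refine ⟨Fin N, mkStr O S Lt K, inferInstance, by simp, ?_⟩
    rw [realize_close, QQ_AEA]
    intro x
    obtain ⟨y, hy⟩ := h x
    refine ⟨y, fun z => ?_⟩
    rw [hr]
    exact hy z
  · rintro ⟨M, s, _, hM, h⟩
    rw [realize_close, QQ_AEA] at h
    have : Nonempty M := Fintype.card_pos_iff.1 (by rw [hM]; exact hN)
    rw [← hM]
    refine tiling_of_con T (O := fun x => s.RelMap (n := 1) (.un ()) ![x])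
      (S := fun x y => s.RelMap (n := 2) (.bi (.inr false)) ![x, y])
      (Lt := fun x y => s.RelMap (n := 2) (.bi (.inr true)) ![x, y])
      (K := fun d x y => s.RelMap (n := 2) (.bi (.inl d)) ![x, y]) ?_
    intro x
    obtain ⟨y, hy⟩ := h x
    refine ⟨y, fun z => ?_⟩
    exact (hr M s _).1 (hy z)

theorem tile_AAAE (T : TileSys) : IsPrefSpec wAAAE {N | 0 < N ∧ T.Sol N} := by
  have hq : QFD (L := LB Unit (T.C ⊕ Bool)) 4 (fun M s v =>
      s.RelMap (n := 2) (.bi (.inr false)) ![v 0, v 3] ∧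
      (s.RelMap (n := 2) (.bi (.inr false)) ![v 0, v 1] →
      ConP T (fun x => s.RelMap (n := 1) (.un ()) ![x])
      (fun x y => s.RelMap (n := 2) (.bi (.inr false)) ![x, y])
      (fun x y => s.RelMap (n := 2) (.bi (.inr true)) ![x, y])
      (fun d x y => s.RelMap (n := 2) (.bi (.inl d)) ![x, y]) (v 0) (v 1) (v 2))) :=
    (QFD.bi _ _ _).and (QFD.imp (QFD.bi _ _ _) (QFD.con T 0 1 2))
  obtain ⟨ψ, hψ, hr⟩ := hq
  have := T.fin
  refine ⟨Unit, T.C ⊕ Bool, inferInstance, inferInstance, ψ, hψ, ?_⟩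
  ext N
  refine and_congr_right fun hN => ?_
  constructor
  · rintro ⟨c, hc⟩
    obtain ⟨O, S, Lt, K, h⟩ := con_of_tiling T hN hc
    refine ⟨Fin N, mkStr O S Lt K, inferInstance, by simp, ?_⟩
    rw [realize_close, QQ_AAAE]
    intro x y z
    obtain ⟨t, ht⟩ := h x
    refine ⟨t, ?_⟩
    rw [hr]
    refine ⟨(ht z).s1, fun hxy => ?_⟩
    have : y = t := (ht y).s2 hxy
    show ConP T O S Lt K x y z
    rw [this]
    exact ht z
  · rintro ⟨M, s, _, hM, h⟩
    rw [realize_close, QQ_AAAE] at h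
    have : Nonempty M := Fintype.card_pos_iff.1 (by rw [hM]; exact hN)
    rw [← hM]
    refine tiling_of_con T (O := fun x => s.RelMap (n := 1) (.un ()) ![x])
      (S := fun x y => s.RelMap (n := 2) (.bi (.inr false)) ![x, y])
      (Lt := fun x y => s.RelMap (n := 2) (.bi (.inr true)) ![x, y])
      (K := fun d x y => s.RelMap (n := 2) (.bi (.inl d)) ![x, y]) ?_
    intro x
    obtain ⟨y, hy⟩ := h x x x
    have h1 := ((hr M s _).1 hy).1
    refine ⟨y, fun z => ?_⟩
    obtain ⟨t, ht⟩ := h x y z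
    exact ((hr M s _).1 ht).2 h1

/-- **Hard prefixes.** -/
theorem hard_prefix {n : ℕ} (w : Fin n → Bool) (hw : Contains w wAEA ∨ Contains w wAAAE) :
    (∀ (L : FirstOrder.Language.{0, 0}) (φ : L.Sentence), IsRud (Spec φ)) ↔
      ∀ A, IsPrefSpec w A → IsRud A := by
  constructor
  · rintro h A ⟨I, J, _, _, ψ, _, rfl⟩
    exact h _ _
  · intro h L φ
    obtain ⟨k, T, hk, hT⟩ := exists_tileSys φ
    have hP : IsPrefSpec w {N | 0 < N ∧ T.Sol N} := by
      rcases hw with hw | hw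
      · exact (tile_AEA T).embed hw
      · exact (tile_AAAE T).embed hw
    have h1 := ((h _ hP).preimage (Polynomial.X ^ k)).inter isRud_pos
    refine Rud.congr h1 fun v => ?_
    show (((Polynomial.X ^ k : Polynomial ℕ).eval (v 0) ∈ {N | 0 < N ∧ T.Sol N}) ∧ 0 < v 0) ↔
      v 0 ∈ Spec φ
    rw [Polynomial.eval_pow, Polynomial.eval_X]
    constructor
    · rintro ⟨⟨h2, h3⟩, h4⟩
      obtain ⟨n, hn, h5⟩ := (hT _ h2).1 h3
      have : v 0 = n := Nat.pow_left_injective hk.ne' h5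
      rwa [this]
    · intro h2
      have h3 : 0 < v 0 := h2.1
      have h4 : 0 < v 0 ^ k := Nat.pow_pos h3
      exact ⟨⟨h4, (hT _ h4).2 ⟨_, h2, rfl⟩⟩, h3⟩

end Pool.Agent.V8H44.Sp
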