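import Mathlib

/-!
Finite arithmetic: structures with an order, addition, multiplication and binary digits which
satisfy recursion axioms are isomorphic to initial segments of the natural numbers.
-/

set_option autoImplicit false
set_option linter.unusedVariables false
set_option linter.unusedSimpArgs false

namespace Pool.Agent.V8H44.Sp

/-- successor -/
def sc {M : Type} (lt : M → M → Prop) (a b : M) : Prop := lt a b ∧ ∀ z, ¬ (lt a z ∧ lt z b)

/-- zero -/
def ze {M : Type} (lt : M → M → Prop) (a : M) : Prop := ∀ z, ¬ lt z a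

/-- last element -/
def la {M : Type} (lt : M → M → Prop) (a : M) : Prop := ∀ z, ¬ lt a z

/-- the axioms of a strict linear order -/
structure IsLin {M : Type} (lt : M → M → Prop) : Prop where
  irr : ∀ a, ¬ lt a a
  trans : ∀ a b c, lt a b → lt b c → lt a c
  tri : ∀ a b, lt a b ∨ a = b ∨ lt b a

theorem lin_equiv {M : Type} [Fintype M] {lt : M → M → Prop} (h : IsLin lt) {N : ℕ}
    (hN : Fintype.card M = N) : ∃ e : M ≃ Fin N, ∀ a b, lt a b ↔ e a < e b := by
  classical
  let _ : LinearOrder M :=
    { le := fun a b => lt a b ∨ a = b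
      lt := lt
      le_refl := fun a => Or.inr rfl
      le_trans := by
        rintro a b c (h1 | rfl) (h2 | rfl)
        · exact Or.inl (h.trans _ _ _ h1 h2)
        · exact Or.inl h1
        · exact Or.inl h2
        · exact Or.inr rfl
      le_antisymm := by
        rintro a b (h1 | rfl) (h2 | h2)
        · exact absurd (h.trans _ _ _ h1 h2) (h.irr a)
        · exact h2.symm
        · rfl
        · rfl
      lt_iff_le_not_ge := by
        intro a b
        constructor
        · intro h1
          refine ⟨Or.inl h1, ?_⟩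
          rintro (h2 | rfl)
          · exact h.irr _ (h.trans _ _ _ h1 h2)
          · exact h.irr _ h1
        · rintro ⟨h1 | rfl, h2⟩
          · exact h1
          · exact absurd (Or.inr rfl) h2
      le_total := by
        intro a b
        rcases h.tri a b with h1 | h1 | h1
        · exact Or.inl (Or.inl h1)
        · exact Or.inl (Or.inr h1)
        · exact Or.inr (Or.inl h1)
      toDecidableLE := Classical.decRel _ }
  let e := Fintype.orderIsoFinOfCardEq M hN
  exact ⟨e.symm.toEquiv, fun a b => (e.symm.lt_iff_lt).symm⟩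

section

variable {M : Type} {lt : M → M → Prop} {N : ℕ} {e : M ≃ Fin N}

theorem ze_iff (he : ∀ a b, lt a b ↔ e a < e b) (a : M) : ze lt a ↔ (e a : ℕ) = 0 := by
  unfold ze
  constructor
  · intro h
    by_contra h0
    have h1 := (e a).2
    apply h (e.symm ⟨0, by omega⟩)
    rw [he, Equiv.apply_symm_apply, Fin.lt_def]
    simp only
    omega
  · intro h z hz
    rw [he, Fin.lt_def] at hz
    omega

theorem sc_iff (he : ∀ a b, lt a b ↔ e a < e b) (a b : M) :
    sc lt a b ↔ (e a : ℕ) + 1 = e b := by
  unfold sc
  constructor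
  · rintro ⟨h1, h2⟩
    rw [he, Fin.lt_def] at h1
    by_contra h0
    have h3 := (e b).2
    apply h2 (e.symm ⟨e a + 1, by omega⟩)
    rw [he, he, Equiv.apply_symm_apply, Fin.lt_def, Fin.lt_def]
    simp only
    omega
  · intro h
    rw [he, Fin.lt_def]
    refine ⟨by omega, ?_⟩
    rintro z ⟨h1, h2⟩
    rw [he, Fin.lt_def] at h1 h2
    omega

theorem la_iff (he : ∀ a b, lt a b ↔ e a < e b) (a : M) : la lt a ↔ (e a : ℕ) + 1 = N := by
  unfold la
  constructor
  · intro h
    by_contra h0
    have h1 := (e a).2
    apply h (e.symm ⟨e a + 1, by omega⟩)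
    rw [he, Equiv.apply_symm_apply, Fin.lt_def]
    simp only
    omega
  · intro h z hz
    rw [he, Fin.lt_def] at hz
    have := (e z).2
    omega

end

/-- recursion axioms for addition -/
structure IsAdd {M : Type} (lt : M → M → Prop) (add : M → M → M → Prop) : Prop where
  a0 : ∀ a b c, ze lt b → (add a b c ↔ c = a)
  aS : ∀ a b b' c', sc lt b b' → (add a b' c' ↔ ∃ c, add a b c ∧ sc lt c c')

/-- recursion axioms for multiplication -/
structure IsMul {M : Type} (lt : M → M → Prop) (add mul : M → M → M → Prop) : Prop where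
  m0 : ∀ a b c, ze lt b → (mul a b c ↔ ze lt c)
  mS : ∀ a b b' c', sc lt b b' → (mul a b' c' ↔ ∃ c, mul a b c ∧ add c a c')

/-- recursion axioms for binary digits -/
structure IsBit {M : Type} (lt : M → M → Prop) (bit : M → M → Prop) : Prop where
  b0 : ∀ a j, ze lt a → ¬ bit a j
  bS : ∀ a a' j, sc lt a a' → (bit a' j ↔ ¬ (bit a j ↔ ∀ j', lt j' j → bit a j'))

theorem testBit_succ_iff (n j : ℕ) : Nat.testBit (n + 1) j = true ↔
    ¬ (Nat.testBit n j = true ↔ ∀ j' < j, Nat.testBit n j' = true) := by
  induction j generalizing n with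
  | zero =>
    simp only [Nat.testBit_zero, decide_eq_true_eq]
    have h : (∀ j' < 0, Nat.testBit n j' = true) ↔ True := by simp
    rw [h, iff_true]
    omega
  | succ j ih =>
    rw [Nat.testBit_succ, Nat.testBit_succ]
    have h0 : (∀ j' < j + 1, Nat.testBit n j' = true) ↔
        n % 2 = 1 ∧ ∀ j' < j, Nat.testBit (n / 2) j' = true := by
      constructor
      · intro h
        refine ⟨?_, fun j' hj' => ?_⟩
        · have := h 0 (by omega)
          simpa [Nat.testBit_zero] using this
        · have := h (j' + 1) (by omega)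
          rwa [Nat.testBit_succ] at this
      · rintro ⟨h1, h2⟩ j' hj'
        rcases Nat.eq_zero_or_pos j' with rfl | h3
        · simpa [Nat.testBit_zero] using h1
        · obtain ⟨j', rfl⟩ : ∃ l, j' = l + 1 := ⟨j' - 1, by omega⟩
          rw [Nat.testBit_succ]
          exact h2 j' (by omega)
    rw [h0]
    rcases Nat.mod_two_eq_zero_or_one n with h | h
    · have h1 : (n + 1) / 2 = n / 2 := by omega
      rw [h1, h]
      simp
    · have h1 : (n + 1) / 2 = n / 2 + 1 := by omega
      rw [h1, h, ih]
      simp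

section

variable {M : Type} {lt : M → M → Prop} {N : ℕ} {e : M ≃ Fin N}

theorem ex_val (e : M ≃ Fin N) {k : ℕ} (hk : k < N) : ∃ a : M, (e a : ℕ) = k :=
  ⟨e.symm ⟨k, hk⟩, by rw [Equiv.apply_symm_apply]⟩

theorem add_iff (he : ∀ a b, lt a b ↔ e a < e b) {add : M → M → M → Prop} (h : IsAdd lt add)
    (a b c : M) : add a b c ↔ (e a : ℕ) + e b = e c := by
  have key : ∀ k, ∀ b : M, (e b : ℕ) = k → ∀ c, add a b c ↔ (e a : ℕ) + e b = e c := by
    intro k
    induction k with
    | zero =>
      intro b hb c
      rw [h.a0 a b c ((ze_iff he b).2 hb), hb]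
      constructor
      · rintro rfl
        rfl
      · intro h1
        exact e.injective (Fin.ext (by omega))
    | succ k ih =>
      intro b hb c
      obtain ⟨b0, hb0⟩ := ex_val e (k := k) (by have := (e b).2; omega)
      rw [h.aS a b0 b c ((sc_iff he b0 b).2 (by omega))]
      constructor
      · rintro ⟨c0, h1, h2⟩
        rw [ih b0 hb0] at h1
        rw [sc_iff he] at h2
        omega
      · intro h1
        obtain ⟨c0, hc0⟩ := ex_val e (k := (e c : ℕ) - 1) (by have := (e c).2; omega)
        refine ⟨c0, (ih b0 hb0 c0).2 (by omega), (sc_iff he _ _).2 (by omega)⟩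
  exact key _ b rfl c

theorem mul_iff (he : ∀ a b, lt a b ↔ e a < e b) {add mul : M → M → M → Prop} (h : IsAdd lt add)
    (h' : IsMul lt add mul) (a b c : M) : mul a b c ↔ (e a : ℕ) * e b = e c := by
  have key : ∀ k, ∀ b : M, (e b : ℕ) = k → ∀ c, mul a b c ↔ (e a : ℕ) * e b = e c := by
    intro k
    induction k with
    | zero =>
      intro b hb c
      rw [h'.m0 a b c ((ze_iff he b).2 hb), hb, ze_iff he]
      constructor
      · intro h1
        rw [h1, Nat.mul_zero]
      · intro h1
        rw [Nat.mul_zero] at h1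
        exact h1.symm
    | succ k ih =>
      intro b hb c
      obtain ⟨b0, hb0⟩ := ex_val e (k := k) (by have := (e b).2; omega)
      have hmul : (e a : ℕ) * e b = e a * e b0 + e a := by
        rw [hb, hb0, Nat.mul_succ]
      rw [h'.mS a b0 b c ((sc_iff he b0 b).2 (by omega)), hmul]
      constructor
      · rintro ⟨c0, h1, h2⟩
        rw [ih b0 hb0] at h1
        rw [add_iff he h] at h2
        omega
      · intro h1
        obtain ⟨c0, hc0⟩ := ex_val e (k := (e c : ℕ) - e a) (by have := (e c).2; omega)
        refine ⟨c0, (ih b0 hb0 c0).2 (by omega), (add_iff he h _ _ _).2 (by omega)⟩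
  exact key _ b rfl c

theorem bit_iff (he : ∀ a b, lt a b ↔ e a < e b) {bit : M → M → Prop} (h : IsBit lt bit)
    (a j : M) : bit a j ↔ Nat.testBit (e a) (e j) = true := by
  have key : ∀ k, ∀ a : M, (e a : ℕ) = k → ∀ j, bit a j ↔ Nat.testBit (e a) (e j) = true := by
    intro k
    induction k with
    | zero =>
      intro a ha j
      rw [ha]
      simp only [Nat.zero_testBit, Bool.false_eq_true, iff_false]
      exact h.b0 a j ((ze_iff he a).2 ha)
    | succ k ih =>
      intro a ha j
      obtain ⟨a0, ha0⟩ := ex_val e (k := k) (by have := (e a).2; omega)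
      rw [h.bS a0 a j ((sc_iff he a0 a).2 (by omega)), ih a0 ha0, ha, testBit_succ_iff, ha0]
      refine not_congr (iff_congr Iff.rfl ?_)
      constructor
      · intro h1 j' hj'
        obtain ⟨j1, hj1⟩ := ex_val e (k := j') (by have := (e j).2; omega)
        have h2 := h1 j1 (by rw [he, Fin.lt_def]; omega)
        rw [ih a0 ha0, ha0, hj1] at h2
        exact h2
      · intro h1 j1 hj1
        rw [ih a0 ha0, ha0]
        rw [he, Fin.lt_def] at hj1
        exact h1 _ hj1
  exact key _ a rfl j

end

section std

variable {N : ℕ}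

theorem std_lin : IsLin (fun a b : Fin N => a < b) :=
  ⟨fun a => lt_irrefl a, fun a b c => lt_trans, fun a b => lt_trichotomy a b⟩

theorem std_ze (a : Fin N) : ze (fun a b : Fin N => a < b) a ↔ (a : ℕ) = 0 :=
  ze_iff (e := Equiv.refl _) (fun _ _ => Iff.rfl) a

theorem std_sc (a b : Fin N) : sc (fun a b : Fin N => a < b) a b ↔ (a : ℕ) + 1 = b :=
  sc_iff (e := Equiv.refl _) (fun _ _ => Iff.rfl) a b

theorem std_la (a : Fin N) : la (fun a b : Fin N => a < b) a ↔ (a : ℕ) + 1 = N :=
  la_iff (e := Equiv.refl _) (fun _ _ => Iff.rfl) a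

theorem std_add : IsAdd (fun a b : Fin N => a < b) (fun a b c : Fin N => (a : ℕ) + b = c) := by
  refine ⟨fun a b c h => ?_, fun a b b' c' h => ?_⟩
  · rw [std_ze] at h
    rw [Fin.ext_iff]
    omega
  · rw [std_sc] at h
    constructor
    · intro h1
      have h2 := c'.2
      refine ⟨⟨c' - 1, by omega⟩, ?_, ?_⟩
      · simp only
        omega
      · rw [std_sc]
        simp only
        omega
    · rintro ⟨c, h1, h2⟩
      rw [std_sc] at h2
      omega

theorem std_mul : IsMul (fun a b : Fin N => a < b) (fun a b c : Fin N => (a : ℕ) + b = c)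
    (fun a b c : Fin N => (a : ℕ) * b = c) := by
  refine ⟨fun a b c h => ?_, fun a b b' c' h => ?_⟩
  · rw [std_ze] at h
    rw [std_ze, h, Nat.mul_zero]
    exact eq_comm
  · rw [std_sc] at h
    have h0 : (a : ℕ) * b' = a * b + a := by rw [← h, Nat.mul_succ]
    rw [h0]
    constructor
    · intro h1
      have h2 := c'.2
      exact ⟨⟨a * b, by omega⟩, rfl, h1⟩
    · rintro ⟨c, h1, h2⟩
      omega

theorem std_bit : IsBit (fun a b : Fin N => a < b)
    (fun a b : Fin N => Nat.testBit a b = true) := by
  refine ⟨fun a b h => ?_, fun a a' j h => ?_⟩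
  · rw [std_ze] at h
    rw [h]
    simp
  · rw [std_sc] at h
    rw [← h, testBit_succ_iff]
    refine not_congr (iff_congr Iff.rfl ?_)
    constructor
    · intro h1 j' hj'
      exact h1 j' hj'
    · intro h1 j' hj'
      exact h1 ⟨j', hj'.trans j.2⟩ hj'

end std

end Pool.Agent.V8H44.Sp
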