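import Pool.Agent.V8H44.Sp.UD
import Pool.Agent.V8H44.Sp.Ar

/-!
Uniform definability of the axioms of finite arithmetic.
-/

set_option autoImplicit false
set_option linter.unusedVariables false
set_option linter.unusedSimpArgs false

namespace Pool.Agent.V8H44.Sp

open FirstOrder

variable {L : FirstOrder.Language.{0, 0}}

/-- uniformly definable properties -/
def D1 (R : ∀ (M : Type) (_ : L.Structure M), M → Prop) : Prop :=
  ∀ i, UD (L := L) (fun M s v => R M s (v i))

/-- uniformly definable binary relations -/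
def D2 (R : ∀ (M : Type) (_ : L.Structure M), M → M → Prop) : Prop :=
  ∀ i j, UD (L := L) (fun M s v => R M s (v i) (v j))

/-- uniformly definable ternary relations -/
def D3 (R : ∀ (M : Type) (_ : L.Structure M), M → M → M → Prop) : Prop :=
  ∀ i j k, UD (L := L) (fun M s v => R M s (v i) (v j) (v k))

theorem D2.eq : D2 (L := L) (fun _ _ a b => a = b) := fun i j => UD.eq i j

section

variable {lt bit : ∀ (M : Type) (_ : L.Structure M), M → M → Prop}
  {add mul K : ∀ (M : Type) (_ : L.Structure M), M → M → M → Prop}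

theorem D2.sc (h : D2 lt) : D2 (fun M s => Sp.sc (lt M s)) := by
  intro i j
  refine ((h i j).and ((((h i (i + j + 1)).and (h (i + j + 1) j)).not.all (i + j + 1)))).congr ?_
  intro M s v
  simp (disch := omega) only [Function.update_self, Function.update_of_ne]
  rfl

theorem D2.ze (h : D2 lt) : D1 (fun M s => Sp.ze (lt M s)) := by
  intro i
  refine ((h (i + 1) i).not.all (i + 1)).congr ?_
  intro M s v
  simp (disch := omega) only [Function.update_self, Function.update_of_ne]
  rfl

theorem D2.la (h : D2 lt) : D1 (fun M s => Sp.la (lt M s)) := by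
  intro i
  refine ((h i (i + 1)).not.all (i + 1)).congr ?_
  intro M s v
  simp (disch := omega) only [Function.update_self, Function.update_of_ne]
  rfl

theorem D2.isLin (h : D2 lt) : UD (L := L) (fun M s _ => IsLin (lt M s)) := by
  have h1 : UD (L := L) (fun M s _ => ∀ a, ¬ lt M s a a) := by
    refine ((h 0 0).not.all 0).congr ?_
    intro M s v
    simp (disch := omega) only [Function.update_self, Function.update_of_ne]
  have h2 : UD (L := L) (fun M s _ => ∀ a b c, lt M s a b → lt M s b c → lt M s a c) := by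
    refine (((((h 0 1).imp ((h 1 2).imp (h 0 2))).all 2).all 1).all 0).congr ?_
    intro M s v
    simp (disch := omega) only [Function.update_self, Function.update_of_ne]
  have h3 : UD (L := L) (fun M s _ => ∀ a b, lt M s a b ∨ a = b ∨ lt M s b a) := by
    refine (((((h 0 1).or ((UD.eq 0 1).or (h 1 0)))).all 1).all 0).congr ?_
    intro M s v
    simp (disch := omega) only [Function.update_self, Function.update_of_ne]
  exact (h1.and (h2.and h3)).congr fun M s v =>
    ⟨fun ⟨a, b, c⟩ => ⟨a, b, c⟩, fun ⟨a, b, c⟩ => ⟨a, b, c⟩⟩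

theorem D2.isAdd (h : D2 lt) (ha : D3 add) : UD (L := L) (fun M s _ => IsAdd (lt M s) (add M s)) := by
  have h1 : UD (L := L) (fun M s _ => ∀ a b c, Sp.ze (lt M s) b → (add M s a b c ↔ c = a)) := by
    refine (((((h.ze 1).imp ((ha 0 1 2).iff (UD.eq 2 0))).all 2).all 1).all 0).congr ?_
    intro M s v
    simp (disch := omega) only [Function.update_self, Function.update_of_ne]
  have h2 : UD (L := L) (fun M s _ => ∀ a b b' c', Sp.sc (lt M s) b b' →
      (add M s a b' c' ↔ ∃ c, add M s a b c ∧ Sp.sc (lt M s) c c')) := by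
    refine ((((((h.sc 1 2).imp ((ha 0 2 3).iff (((ha 0 1 4).and (h.sc 4 3)).ex 4))).all 3).all
      2).all 1).all 0).congr ?_
    intro M s v
    simp (disch := omega) only [Function.update_self, Function.update_of_ne]
  exact (h1.and h2).congr fun M s v => ⟨fun ⟨a, b⟩ => ⟨a, b⟩, fun ⟨a, b⟩ => ⟨a, b⟩⟩

theorem D2.isMul (h : D2 lt) (ha : D3 add) (hm : D3 mul) :
    UD (L := L) (fun M s _ => IsMul (lt M s) (add M s) (mul M s)) := by
  have h1 : UD (L := L) (fun M s _ => ∀ a b c, Sp.ze (lt M s) b →
      (mul M s a b c ↔ Sp.ze (lt M s) c)) := by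
    refine (((((h.ze 1).imp ((hm 0 1 2).iff (h.ze 2))).all 2).all 1).all 0).congr ?_
    intro M s v
    simp (disch := omega) only [Function.update_self, Function.update_of_ne]
  have h2 : UD (L := L) (fun M s _ => ∀ a b b' c', Sp.sc (lt M s) b b' →
      (mul M s a b' c' ↔ ∃ c, mul M s a b c ∧ add M s c a c')) := by
    refine ((((((h.sc 1 2).imp ((hm 0 2 3).iff (((hm 0 1 4).and (ha 4 0 3)).ex 4))).all 3).all
      2).all 1).all 0).congr ?_
    intro M s v
    simp (disch := omega) only [Function.update_self, Function.update_of_ne]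
  exact (h1.and h2).congr fun M s v => ⟨fun ⟨a, b⟩ => ⟨a, b⟩, fun ⟨a, b⟩ => ⟨a, b⟩⟩

theorem D2.isBit (h : D2 lt) (hb : D2 bit) :
    UD (L := L) (fun M s _ => IsBit (lt M s) (bit M s)) := by
  have h1 : UD (L := L) (fun M s _ => ∀ a j, Sp.ze (lt M s) a → ¬ bit M s a j) := by
    refine (((((h.ze 0).imp (hb 0 1).not)).all 1).all 0).congr ?_
    intro M s v
    simp (disch := omega) only [Function.update_self, Function.update_of_ne]
  have h2 : UD (L := L) (fun M s _ => ∀ a a' j, Sp.sc (lt M s) a a' →
      (bit M s a' j ↔ ¬ (bit M s a j ↔ ∀ j', lt M s j' j → bit M s a j'))) := by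
    refine (((((h.sc 0 1).imp ((hb 1 2).iff ((hb 0 2).iff (((h 3 2).imp (hb 0 3)).all 3)).not)).all
      2).all 1).all 0).congr ?_
    intro M s v
    simp (disch := omega) only [Function.update_self, Function.update_of_ne]
  exact (h1.and h2).congr fun M s v => ⟨fun ⟨a, b⟩ => ⟨a, b⟩, fun ⟨a, b⟩ => ⟨a, b⟩⟩

end

end Pool.Agent.V8H44.Sp
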