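import Pool.Agent.V8H44.Sp.Univ
import Pool.Agent.V8H44.Sp.UDA
import Pool.Agent.V8H44.Sp.Pref

/-!
The universal set is the spectrum of one sentence.
-/

set_option autoImplicit false
set_option linter.unusedVariables false
set_option linter.unusedSimpArgs false

namespace Pool.Agent.V8H44.Sp

open FirstOrder

section

variable {L : FirstOrder.Language.{0, 0}}
  {lt bit : ∀ (M : Type) (_ : L.Structure M), M → M → Prop}
  {add mul K : ∀ (M : Type) (_ : L.Structure M), M → M → M → Prop}

theorem D3.hbp (ha : D3 add) (hm : D3 mul) (hb : D2 bit) :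
    D3 (fun M s => HBp (add M s) (mul M s) (bit M s)) := by
  intro i a b
  refine ((((((ha a b (i + a + b + 1)).and ((hm (i + a + b + 1) (i + a + b + 1)
    (i + a + b + 2)).and ((ha (i + a + b + 2) a (i + a + b + 3)).and ((ha (i + a + b + 3)
    (i + a + b + 3) (i + a + b + 4)).and (hb i (i + a + b + 4)))))).ex (i + a + b + 4)).ex
    (i + a + b + 3)).ex (i + a + b + 2)).ex (i + a + b + 1)).congr ?_
  intro M s v
  simp (disch := omega) only [Function.update_self, Function.update_of_ne]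
  rfl

theorem D3.vbp (h : D2 lt) (ha : D3 add) (hm : D3 mul) (hb : D2 bit) :
    D3 (fun M s => VBp (lt M s) (add M s) (mul M s) (bit M s)) := by
  intro i a b
  refine (((((((ha a b (i + a + b + 1)).and ((hm (i + a + b + 1) (i + a + b + 1)
    (i + a + b + 2)).and ((ha (i + a + b + 2) a (i + a + b + 3)).and ((ha (i + a + b + 3)
    (i + a + b + 3) (i + a + b + 4)).and ((h.sc (i + a + b + 4) (i + a + b + 5)).and
    (hb i (i + a + b + 5))))))).ex (i + a + b + 5)).ex (i + a + b + 4)).ex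
    (i + a + b + 3)).ex (i + a + b + 2)).ex (i + a + b + 1)).congr ?_
  intro M s v
  simp (disch := omega) only [Function.update_self, Function.update_of_ne]
  rfl

theorem D3.inp (h : D2 lt) (ha : D3 add) : D3 (fun M s => Inp (lt M s) (add M s)) := by
  intro i m x
  refine (((ha x i (i + m + x + 1)).and (h (i + m + x + 1) m)).ex (i + m + x + 1)).congr ?_
  intro M s v
  simp (disch := omega) only [Function.update_self, Function.update_of_ne]
  rfl

theorem D3.cell (h : D2 lt) (ha : D3 add) (hm : D3 mul) (hb : D2 bit) (hK : D3 K) :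
    UD (L := L) (fun M s v => CellP (lt M s) (add M s) (mul M s) (bit M s) (K M s) (v 0) (v 1)
      (v 4) (v 5) (v 6)) := by
  have H := ha.hbp hm hb
  have V := D3.vbp h ha hm hb
  have I := D3.inp h ha
  refine (((h.ze 6).not).and ((((h.ze 4).imp (((h.ze 7).imp (H 1 7 6)).all 7))).and
    (((((h.sc 8 4).imp (((hK 8 5 7).imp (H 1 7 6)).all 7)).all 8)).and
    ((((((h.sc 4 8).imp (I 1 0 8).not).all 8)).imp (((h.ze 7).imp (H 1 6 7)).all 7)).and
    ((((h.ze 5).imp (((h.ze 7).imp (V 1 7 6)).all 7))).and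
    (((((h.sc 8 5).imp (((hK 4 8 7).imp (V 1 7 6)).all 7)).all 8)).and
    ((((((h.sc 5 8).imp (I 1 0 8).not).all 8)).imp (((h.ze 7).imp (V 1 6 7)).all 7))))))))).congr ?_
  intro M s v
  simp (disch := omega) only [Function.update_self, Function.update_of_ne]
  rfl

theorem D3.qu (h : D2 lt) (ha : D3 add) (hm : D3 mul) (hb : D2 bit) (hK : D3 K) :
    UD (L := L) (fun M s _ => QU (lt M s) (add M s) (mul M s) (bit M s) (K M s)) := by
  have I := D3.inp h ha
  have C := D3.cell h ha hm hb hK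
  refine (((((((h.la 3).and ((hm 0 0 2).and ((ha 2 1 3).and ((h 1 0).and
    ((((((I 1 0 4).imp ((I 1 0 5).imp ((hK 4 5 6).ex 6))).all 5).all 4)).and
    (((((((hK 4 5 6).imp ((hK 4 5 7).imp (UD.eq 6 7))).all 7).all 6).all 5).all 4).and
    (((((I 1 0 4).imp ((I 1 0 5).imp ((hK 4 5 6).imp C))).all 6).all 5).all 4)
    )))))).ex 3).ex 2).ex 1).ex 0)).congr ?_
  intro M s v
  simp (disch := omega) only [Function.update_self, Function.update_of_ne]
  rfl

end

theorem ud_rlt : D2 (L := LU) (fun M s => rlt s) := by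
  intro i j
  refine (UD.rel (L := LU) (r := 2) URel.lt ![i, j]).congr fun M s v => ?_
  unfold rlt
  rw [show (fun k => v (![i, j] k)) = ![v i, v j] by
    funext k
    fin_cases k <;> rfl]

theorem ud_rbit : D2 (L := LU) (fun M s => rbit s) := by
  intro i j
  refine (UD.rel (L := LU) (r := 2) URel.bit ![i, j]).congr fun M s v => ?_
  unfold rbit
  rw [show (fun k => v (![i, j] k)) = ![v i, v j] by
    funext k
    fin_cases k <;> rfl]

theorem ud_radd : D3 (L := LU) (fun M s => radd s) := by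
  intro i j l
  refine (UD.rel (L := LU) (r := 3) URel.add ![i, j, l]).congr fun M s v => ?_
  unfold radd
  rw [show (fun k => v (![i, j, l] k)) = ![v i, v j, v l] by
    funext k
    fin_cases k <;> rfl]

theorem ud_rmul : D3 (L := LU) (fun M s => rmul s) := by
  intro i j l
  refine (UD.rel (L := LU) (r := 3) URel.mul ![i, j, l]).congr fun M s v => ?_
  unfold rmul
  rw [show (fun k => v (![i, j, l] k)) = ![v i, v j, v l] by
    funext k
    fin_cases k <;> rfl]

theorem ud_rK : D3 (L := LU) (fun M s => rK s) := by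
  intro i j l
  refine (UD.rel (L := LU) (r := 3) URel.K ![i, j, l]).congr fun M s v => ?_
  unfold rK
  rw [show (fun k => v (![i, j, l] k)) = ![v i, v j, v l] by
    funext k
    fin_cases k <;> rfl]

theorem ud_axU : UD (L := LU) (fun M s _ => AxU s) :=
  (ud_rlt.isLin.and ((ud_rlt.isAdd ud_radd).and ((ud_rlt.isMul ud_radd ud_rmul).and
    ((ud_rlt.isBit ud_rbit).and (D3.qu ud_rlt ud_radd ud_rmul ud_rbit ud_rK)))))

/-- the universal set is a spectrum -/
theorem univ_spec : ∃ φ : LU.Sentence, Spec φ = univSet := by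
  obtain ⟨φ, h⟩ := ud_axU.sentence
  refine ⟨φ, ?_⟩
  ext N
  constructor
  · rintro ⟨h0, M, s, f, hM, hs⟩
    have h2 : Nonempty M := by
      rw [← Fintype.card_pos_iff]
      omega
    have h1 := (h M s).1 hs h2.some
    rw [← hM]
    exact mem_univSet_of s h1
  · intro hN
    obtain ⟨s, hs⟩ := exists_of_mem hN
    obtain ⟨m, i, hN', him, _⟩ := hN
    exact ⟨by omega, Fin N, s, inferInstance, Fintype.card_fin N, (h (Fin N) s).2 fun _ => hs⟩

/-- **A complete sentence with a given hard prefix.** -/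
theorem complete_prefix {n : ℕ} (w : Fin n → Bool)
    (hw : Contains w wAEA ∨ Contains w wAAAE) :
    ∃ (I J : Type) (_ : Finite I) (_ : Finite J) (ψ : (LB I J).BoundedFormula Empty n),
      ψ.IsQF ∧
      (∀ (L : FirstOrder.Language.{0, 0}) (φ : L.Sentence), ∃ p : Polynomial ℕ,
        ∀ m, 0 < m → (m ∈ Spec φ ↔ p.eval m ∈ Spec (close w ψ))) ∧
      ((∀ (L : FirstOrder.Language.{0, 0}) (φ : L.Sentence), IsRud (Spec φ)) ↔
        IsRud (Spec (close w ψ))) := by
  obtain ⟨φU, hU⟩ := univ_spec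
  obtain ⟨k, T, hk, hT⟩ := exists_tileSys φU
  have hP : IsPrefSpec w {N | 0 < N ∧ T.Sol N} := by
    rcases hw with hw | hw
    · exact (tile_AEA T).embed hw
    · exact (tile_AAAE T).embed hw
  obtain ⟨I, J, hI, hJ, ψ, hψ, hA⟩ := hP
  have key : ∀ N, N ^ k ∈ Spec (close w ψ) ↔ N ∈ univSet := by
    intro N
    rw [← hA, ← hU]
    constructor
    · rintro ⟨h1, h2⟩
      obtain ⟨m, hm, h3⟩ := (hT _ h1).1 h2
      rwa [Nat.pow_left_injective hk.ne' h3]
    · intro h
      have h4 : 0 < N ^ k := Nat.pow_pos h.1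
      exact ⟨h4, (hT _ h4).2 ⟨N, h, rfl⟩⟩
  have hpoly : ∀ (L : FirstOrder.Language.{0, 0}) (φ : L.Sentence), ∃ p : Polynomial ℕ,
        ∀ m, 0 < m → (m ∈ Spec φ ↔ p.eval m ∈ Spec (close w ψ)) := by
    intro L φ
    obtain ⟨a, k', hk', hφ⟩ := exists_poly φ
    refine ⟨(((Polynomial.X ^ k' + Polynomial.C a) * (Polynomial.X ^ k' + Polynomial.C a)) +
      Polynomial.C a + 1) ^ k, fun m hm => ?_⟩
    rw [hφ m hm, ← key]
    simp only [Polynomial.eval_pow, Polynomial.eval_add, Polynomial.eval_mul, Polynomial.eval_X,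
      Polynomial.eval_C, Polynomial.eval_one]
  refine ⟨I, J, hI, hJ, ψ, hψ, hpoly, fun h => h _ _, fun h L φ => ?_⟩
  obtain ⟨p, hp⟩ := hpoly L φ
  refine Rud.congr ((h.preimage p).inter isRud_pos) fun v => ?_
  show (p.eval (v 0) ∈ Spec (close w ψ) ∧ 0 < v 0) ↔ v 0 ∈ Spec φ
  constructor
  · rintro ⟨h1, h2⟩
    exact (hp _ h2).2 h1
  · intro h1
    exact ⟨(hp _ h1.1).1 h1, h1.1⟩

end Pool.Agent.V8H44.Sp
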