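import Pool.Agent.V8H44.Sp.Tile

/-!
Tilings in structures with the properties `∀ x y ∃ z`, first part: the axioms and their
consequences.
-/

set_option autoImplicit false
set_option linter.unusedVariables false
set_option linter.unusedSimpArgs false

namespace Pool.Agent.V8H44.Sp

/-- the relations -/
structure GR (C M : Type) where
  /-- numbers -/
  N : M → Prop
  /-- pairs of the two sorts -/
  P : Bool → M → Prop
  /-- constants -/
  K : Bool → M → Prop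
  /-- the number zero -/
  Ze : M → Prop
  /-- the last number -/
  La : M → Prop
  /-- difference zero -/
  d0 : M → Prop
  /-- difference one -/
  d1 : M → Prop
  /-- difference two -/
  d2 : M → Prop
  /-- second coordinate zero -/
  Z2 : M → Prop
  /-- first coordinate last -/
  PL : M → Prop
  /-- successor -/
  S : M → M → Prop
  /-- order -/
  L : M → M → Prop
  /-- first coordinate -/
  Pe : M → M → Prop
  /-- number is successor of the first coordinate -/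
  Ps : M → M → Prop
  /-- number is predecessor of the first coordinate -/
  Pp : M → M → Prop
  /-- number is less than the first coordinate -/
  PG : M → M → Prop
  /-- second coordinate -/
  Qe : M → M → Prop
  /-- number is successor of the second coordinate -/
  Qs : M → M → Prop
  /-- number is predecessor of the second coordinate -/
  Qp : M → M → Prop
  /-- number is less than the second coordinate -/
  QG : M → M → Prop
  /-- the next pair in the same column -/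
  D : M → M → Prop
  /-- the next pair in the same row -/
  D1 : M → M → Prop
  /-- first coordinate equals second coordinate of the other pair -/
  Cl : M → M → Prop
  /-- same first coordinate and larger second coordinate -/
  Cp : M → M → Prop
  /-- second coordinate larger by one -/
  G : M → M → Prop
  /-- first coordinate larger by one than the second coordinate of the other pair -/
  Gp : M → M → Prop
  /-- tile of the cell -/
  t1 : C → M → Prop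
  /-- tile of the transposed cell -/
  t2 : C → M → Prop

namespace GR

variable {C M : Type} (R : GR C M)

/-- pairs -/
def Pa (x : M) : Prop := R.P false x ∨ R.P true x

end GR

/-- universal axioms -/
@[mk_iff AU_iff]
structure AU {C M : Type} (R : GR C M) (x y : M) : Prop where
  sort : R.N x ∨ R.Pa x ∨ R.K false x ∨ R.K true x
  nN : R.N x → ¬ R.Pa x ∧ ¬ R.K false x ∧ ¬ R.K true x
  nP : R.Pa x → ¬ R.K false x ∧ ¬ R.K true x
  nP' : R.P false x → ¬ R.P true x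
  nK : R.K false x → ¬ R.K true x
  uK0 : R.K false x → R.K false y → x = y
  uK1 : R.K true x → R.K true y → x = y
  zeN : R.Ze x → R.N x
  zeU : R.Ze x → R.Ze y → x = y
  laN : R.La x → R.N x
  SL : R.S x y → R.L x y
  LN : R.L x y → R.N x ∧ R.N y
  Las : R.L x y → ¬ R.L y x
  zeL : R.Ze x → R.N y → x ≠ y → R.L x y
  laL : R.La x → R.N y → x ≠ y → R.L y x
  tri : R.N x → R.N y → R.L x y ∨ x = y ∨ R.L y x
  PeT : R.Pe x y → R.Pa x ∧ R.N y
  QeT : R.Qe x y → R.Pa x ∧ R.N y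
  DT : R.D x y → (R.P false x → R.P false y) ∧ (R.P true x → R.P true y) ∧ R.Pa y
  D1T : R.D1 x y → R.P false x ∧ R.P false y
  PeG : R.Pe x y → ¬ R.PG x y
  PpG : R.Pp x y → R.PG x y
  PsN : R.Ps x y → ¬ R.Pe x y ∧ ¬ R.PG x y ∧ ¬ R.Qe x y ∧ ¬ R.QG x y
  QeG : R.Qe x y → ¬ R.QG x y
  QpG : R.Qp x y → R.QG x y
  QsN : R.Qs x y → ¬ R.Qe x y ∧ ¬ R.QG x y
  QGP : R.QG x y → R.PG x y
  QeP : R.Qe x y → R.Pe x y ∨ R.PG x y
  d0E : R.d0 x → (R.Pe x y ↔ R.Qe x y)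
  d0I : R.Pe x y → R.Qe x y → R.d0 x
  d1E : R.d1 x → R.Pe x y → R.Qs x y
  d1I : R.Pp x y → R.Qe x y → R.d1 x
  d2E : R.Qs x y → (R.Pp x y ↔ R.d2 x)
  PsQ : R.Ps x y → (R.Qs x y ↔ R.d0 x)
  Z2E : R.Z2 x → R.Qe x y → R.Ze y
  Z2I : R.Qe x y → R.Ze y → R.Z2 x
  ClG : R.Cl x y → (R.G y x ↔ R.d1 y)
  Cp0 : R.Cp x y → ¬ R.d0 y
  CpG : R.Cp x y → (R.Gp y x ↔ R.d1 y)
  CpD : R.Cp x y → R.G x y → (R.d1 y ↔ R.d2 x)
  PLE : R.PL x → R.Pe x y → R.La y
  PLI : R.Pe x y → R.La y → R.PL x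

/-- universal axioms for the tiles -/
@[mk_iff AT_iff]
structure AT (T : TileSys) {M : Type} (R : GR T.C M) (x y : M) : Prop where
  e1 : R.P false x → ∃ c, R.t1 c x
  e2 : R.P false x → ∃ c, R.t2 c x
  u1 : R.P false x → ∀ c c', R.t1 c x → R.t1 c' x → c = c'
  u2 : R.P false x → ∀ c c', R.t2 c x → R.t2 c' x → c = c'
  dg : R.P false x → R.d0 x → ∀ c, R.t1 c x ↔ R.t2 c x
  DV : R.P false x → R.D x y → ∀ c c', R.t1 c x → R.t1 c' y → T.V c c'
  DH : R.P false x → R.D x y → ∀ c c', R.t2 c x → R.t2 c' y → T.H c c'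
  EH : R.D1 x y → ∀ c c', R.t1 c x → R.t1 c' y → T.H c c'
  EV : R.D1 x y → ∀ c c', R.t2 c x → R.t2 c' y → T.V c c'
  p0 : R.P false x → R.Pe x y → R.Ze y → ∀ c, (R.t1 c x → T.Lf c) ∧ (R.t2 c x → T.Bt c)
  pL : R.P false x → R.Pe x y → R.La y → ∀ c, (R.t1 c x → T.Rt c) ∧ (R.t2 c x → T.Tp c)
  q0 : R.P false x → R.Qe x y → R.Ze y → ∀ c, (R.t1 c x → T.Bt c) ∧ (R.t2 c x → T.Lf c)
  qL : R.P false x → R.Qe x y → R.La y → ∀ c, (R.t1 c x → T.Tp c) ∧ (R.t2 c x → T.Rt c)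

/-- existential axioms: `z` is a witness for the pair `x, y` -/
@[mk_iff AE_iff]
structure AE {C M : Type} (R : GR C M) (x y z : M) : Prop where
  x1 : x = y → R.Pa x → R.N z
  x2 : x = y → R.N x → R.K false z
  x3 : x = y → R.K false x → R.K true z
  x4 : x = y → R.K true x → R.Ze z
  nn : R.L x y → R.S z y ∧ (z = x ∨ R.L x z)
  np : R.S y x → R.Z2 z ∧ R.Pe z y ∧ R.Ps z x
  b1 : R.N x → R.K false y → ¬ R.La x → R.S x z
  b2 : R.N x → R.K true y → R.P false z ∧ R.Z2 z ∧ R.Pe z x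
  b3 : R.K true x → R.N y → R.P true z ∧ R.Z2 z ∧ R.Pe z y
  b4 : R.Pa x → R.K false y → R.Pe x z
  b5 : R.Pa x → R.K true y → R.Qe x z
  b6 : R.K false x → R.Pa y → ¬ R.d0 y → R.D y z
  b7 : R.K true x → R.P false y → ¬ R.PL y → R.D1 y z
  w1 : ¬ R.Ze y → R.Qe x y ∨ R.QG x y → R.S z y ∧ (R.Qe x y → R.Qp x z) ∧
    (R.QG x y → R.QG x z ∧ ¬ R.Qp x z) ∧ (R.Pe x y → R.Pp x z) ∧
    (R.PG x y → R.PG x z ∧ ¬ R.Pp x z)
  w2 : R.Pe x y → ¬ R.Qe x y → ¬ R.QG x y → ¬ R.d1 x → R.S z y ∧ R.Pp x z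
  w3 : R.Pa x → R.N y → ¬ R.Qe x y → ¬ R.QG x y → ¬ (R.Pe x y ∧ ¬ R.d1 x) →
    R.Qe x z ∧ (R.Qs x y ↔ R.S z y)
  v1 : R.Qe y x → ¬ R.Ze x → R.Z2 z ∧ R.Pe z x ∧ R.Cl y z
  v2 : R.QG y x → R.Qe y z ∧ (R.Qp y x ↔ R.S x z)
  v3 : R.Pe y x → ¬ R.Qe y x → ¬ R.QG y x → ¬ R.d1 y → R.Pe z x ∧ R.Cp y z ∧ R.G y z
  v4 : R.Pe y x → ¬ R.Qe y x → ¬ R.QG y x → R.d1 y → R.S z x ∧ R.Pp y z
  v5 : R.PG y x → ¬ R.Qe y x → ¬ R.QG y x → R.S z x ∧ R.PG y z ∧ ¬ R.Pp y z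
  v6 : R.Ps y x → ¬ R.d0 y → R.D y z ∧ R.Ps z x
  c1 : R.D x y → R.Qe x z ∧ R.Qp y z
  c2 : R.D y x → R.Pe x z ∧ R.Pe y z
  c3 : R.D1 x y → R.Pe x z ∧ R.Pp y z
  c4 : R.D1 y x → R.Qe x z ∧ R.Qe y z
  c5 : (R.P false x ∧ R.P false y ∨ R.P true x ∧ R.P true y) → x ≠ y → ¬ R.D x y → ¬ R.D y x →
    ¬ R.D1 x y → ¬ R.D1 y x → (R.Pe x z ∧ ¬ R.Pe y z) ∨ (R.Qe x z ∧ ¬ R.Qe y z)
  f1 : R.Cl x y → ¬ R.d0 y → ¬ R.d1 y → R.D y z ∧ R.Cl x z
  f2 : R.Cp x y → ¬ R.d1 y → R.D y z ∧ R.Cp x z ∧ ¬ R.G x z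
  f3 : R.Cl y x → R.Qe x z ∧ (R.G x y ↔ R.Qp y z) ∧ (R.d0 x → R.Qe y z)
  f4 : R.Cp y x → R.G y x → R.Qe y z ∧ R.Qp x z
  f5 : R.Cp y x → ¬ R.G y x → R.Qe x z ∧ (R.Gp x y ↔ R.Pp y z)

/-- the axioms -/
structure Ax (T : TileSys) {M : Type} (R : GR T.C M) : Prop where
  all : ∀ x y, AU R x y ∧ AT T R x y ∧ ∃ z, AE R x y z

section sound

variable {T : TileSys} {M : Type} {R : GR T.C M} (A : Ax T R)

include A

theorem Ax.u (x y : M) : AU R x y := (A.all x y).1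

theorem Ax.t (x y : M) : AT T R x y := (A.all x y).2.1

theorem Ax.e (x y : M) : ∃ z, AE R x y z := (A.all x y).2.2

theorem Ax.irr (x : M) : ¬ R.L x x := fun h => (A.u x x).Las h h

/-- the first `i + 1` numbers are `a 0, …, a i` -/
structure Est (R : GR T.C M) (a : ℕ → M) (i : ℕ) : Prop where
  e0 : R.Ze (a 0)
  e1 : ∀ r < i, R.S (a r) (a (r + 1))
  e2 : ∀ r ≤ i, ∀ v, R.S v (a r) → ∃ k, r = k + 1 ∧ v = a k
  e3 : ∀ r < i, ∀ v, R.S (a r) v → v = a (r + 1)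
  e4 : ∀ r ≤ i, ∀ y, R.N y → (∀ k ≤ i, y ≠ a k) → R.L (a r) y
  e5 : ∀ r ≤ i, R.N (a r)
  e6 : ∀ m ≤ i, ∀ r < m, R.L (a r) (a m)

variable {a : ℕ → M} {i : ℕ} (E : Est R a i)

include E

theorem Ax.inj {r m : ℕ} (hr : r ≤ i) (hm : m ≤ i) (h : a r = a m) : r = m := by
  rcases lt_trichotomy r m with h1 | h1 | h1
  · have := E.e6 m hm r h1
    rw [h] at this
    exact absurd this (A.irr _)
  · exact h1
  · have := E.e6 r hr m h1
    rw [h] at this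
    exact absurd this (A.irr _)

theorem Ax.nze {r : ℕ} (hr : r ≤ i) (h0 : 0 < r) : ¬ R.Ze (a r) := by
  intro h
  have := (A.u _ _).zeU h E.e0
  have := A.inj E hr (Nat.zero_le _) this
  omega

/-- descent in the second coordinate -/
theorem Ax.qlink {w : M} {r : ℕ} (hr : r + 1 ≤ i)
    (h : R.Qe w (a (r + 1)) ∨ R.QG w (a (r + 1))) :
    (R.Qe w (a (r + 1)) → R.Qp w (a r)) ∧ (R.QG w (a (r + 1)) → R.QG w (a r) ∧ ¬ R.Qp w (a r)) ∧
    (R.Pe w (a (r + 1)) → R.Pp w (a r)) ∧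
    (R.PG w (a (r + 1)) → R.PG w (a r) ∧ ¬ R.Pp w (a r)) := by
  obtain ⟨z, hz⟩ := A.e w (a (r + 1))
  obtain ⟨h1, h2⟩ := hz.w1 (A.nze E hr (by omega)) h
  obtain ⟨k, h3, rfl⟩ := E.e2 _ hr _ h1
  obtain rfl : r = k := by omega
  exact h2

theorem Ax.plink {w : M} {r : ℕ} (hr : r + 1 ≤ i) :
    (R.Pe w (a (r + 1)) → R.Pp w (a r)) ∧
    (R.PG w (a (r + 1)) → R.PG w (a r) ∧ ¬ R.Pp w (a r)) := by
  by_cases h : R.Qe w (a (r + 1)) ∨ R.QG w (a (r + 1))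
  · exact (A.qlink E hr h).2.2
  · push Not at h
    constructor
    · intro h1
      by_cases hd : R.d1 w
      · obtain ⟨z, hz⟩ := A.e (a (r + 1)) w
        obtain ⟨h2, h3⟩ := hz.v4 h1 h.1 h.2 hd
        obtain ⟨k, h4, rfl⟩ := E.e2 _ hr _ h2
        obtain rfl : r = k := by omega
        exact h3
      · obtain ⟨z, hz⟩ := A.e w (a (r + 1))
        obtain ⟨h2, h3⟩ := hz.w2 h1 h.1 h.2 hd
        obtain ⟨k, h4, rfl⟩ := E.e2 _ hr _ h2
        obtain rfl : r = k := by omega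
        exact h3
    · intro h1
      obtain ⟨z, hz⟩ := A.e (a (r + 1)) w
      obtain ⟨h2, h3⟩ := hz.v5 h1 h.1 h.2
      obtain ⟨k, h4, rfl⟩ := E.e2 _ hr _ h2
      obtain rfl : r = k := by omega
      exact h3

theorem Ax.QGd {w : M} : ∀ k r : ℕ, r + k ≤ i → R.QG w (a (r + k)) → R.QG w (a r)
  | 0, r, _, h => h
  | k + 1, r, hr, h => by
    have h1 := (A.qlink E (w := w) (r := r + k) hr (Or.inr h)).2.1 h
    exact Ax.QGd k r (by omega) h1.1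

theorem Ax.PGd {w : M} : ∀ k r : ℕ, r + k ≤ i → R.PG w (a (r + k)) → R.PG w (a r)
  | 0, r, _, h => h
  | k + 1, r, hr, h => by
    have h1 := (A.plink E (w := w) (r := r + k) hr).2 h
    exact Ax.PGd k r (by omega) h1.1

/-- the profile of the second coordinate -/
theorem Ax.profq {w : M} {m : ℕ} (hm : m ≤ i) (h : R.Qe w (a m)) {r : ℕ} (hr : r < m) :
    R.QG w (a r) ∧ (R.Qp w (a r) ↔ r + 1 = m) := by
  obtain ⟨m, rfl⟩ : ∃ k, m = k + 1 := ⟨m - 1, by omega⟩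
  have h1 := (A.qlink E hm (Or.inl h)).1 h
  have h2 := (A.u w (a m)).QpG h1
  rcases eq_or_lt_of_le (Nat.lt_succ_iff.1 hr) with rfl | hr'
  · exact ⟨h2, by simp [h1]⟩
  · obtain ⟨k, rfl⟩ : ∃ k, m = r + 1 + k := ⟨m - (r + 1), by omega⟩
    have h3 := A.QGd E k (r + 1) (by omega) h2
    have h4 := (A.qlink E (w := w) (r := r) (by omega) (Or.inr h3)).2.1 h3
    exact ⟨h4.1, by simp [h4.2]; omega⟩

/-- the profile of the first coordinate -/
theorem Ax.profp {w : M} {m : ℕ} (hm : m ≤ i) (h : R.Pe w (a m)) {r : ℕ} (hr : r < m) :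
    R.PG w (a r) ∧ (R.Pp w (a r) ↔ r + 1 = m) := by
  obtain ⟨m, rfl⟩ : ∃ k, m = k + 1 := ⟨m - 1, by omega⟩
  have h1 := (A.plink E (w := w) hm).1 h
  have h2 := (A.u w (a m)).PpG h1
  rcases eq_or_lt_of_le (Nat.lt_succ_iff.1 hr) with rfl | hr'
  · exact ⟨h2, by simp [h1]⟩
  · obtain ⟨k, rfl⟩ : ∃ k, m = r + 1 + k := ⟨m - (r + 1), by omega⟩
    have h3 := A.PGd E k (r + 1) (by omega) h2
    have h4 := (A.plink E (w := w) (r := r) (by omega)).2 h3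
    exact ⟨h4.1, by simp [h4.2]; omega⟩

/-- beyond the second coordinate -/
theorem Ax.qbey {w : M} {m : ℕ} (hm : m ≤ i) (h : R.Qe w (a m)) {r : ℕ} (hr : m < r)
    (hri : r ≤ i) : ¬ R.QG w (a r) ∧ ¬ R.Qe w (a r) := by
  constructor
  · intro h1
    obtain ⟨k, rfl⟩ : ∃ k, r = m + k := ⟨r - m, by omega⟩
    exact (A.u w (a m)).QeG h (A.QGd E k m hri h1)
  · intro h1
    exact (A.u w (a m)).QeG h (A.profq E hri h1 hr).1

theorem Ax.pbey {w : M} {m : ℕ} (hm : m ≤ i) (h : R.Pe w (a m)) {r : ℕ} (hr : m < r)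
    (hri : r ≤ i) : ¬ R.PG w (a r) ∧ ¬ R.Pe w (a r) := by
  constructor
  · intro h1
    obtain ⟨k, rfl⟩ : ∃ k, r = m + k := ⟨r - m, by omega⟩
    exact (A.u w (a m)).PeG h (A.PGd E k m hri h1)
  · intro h1
    exact (A.u w (a m)).PeG h (A.profp E hri h1 hr).1

theorem Ax.qpe {w : M} {r : ℕ} (hr : r < i) (h : R.Qp w (a r)) : R.Qe w (a (r + 1)) := by
  obtain ⟨z, hz⟩ := A.e (a r) w
  obtain ⟨h1, h2⟩ := hz.v2 ((A.u _ _).QpG h)
  rw [← E.e3 r hr z (h2.1 h)]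
  exact h1

/-- the second coordinate of `w` is `a m` and nothing else -/
theorem Ax.d1P {w : M} {r : ℕ} (hr : r < i) (hq : R.Qe w (a r)) (hq' : ∀ g, R.Qe w g → g = a r)
    (hd : R.d1 w) {g : M} (hg : R.Pe w g) : g = a (r + 1) := by
  have h1 := (A.u w g).d1E hd hg
  have h2 := (A.u w g).QsN h1
  obtain ⟨z, hz⟩ := A.e w g
  obtain ⟨h3, h4⟩ := hz.w3 ((A.u w g).PeT hg).1 ((A.u w g).PeT hg).2 h2.1 h2.2 (fun h => h.2 hd)
  rw [hq' z h3] at h4
  exact E.e3 r hr g (h4.1 h1)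

end sound

end Pool.Agent.V8H44.Sp
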