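import Pool.Agent.V8H44.Sp.AAE

/-!
Tilings in structures with the properties `∀ x y ∃ z`, second part: the coordinates are functions
and the numbers form a chain.
-/

set_option autoImplicit false
set_option linter.unusedVariables false
set_option linter.unusedSimpArgs false

namespace Pool.Agent.V8H44.Sp

section sound

variable {T : TileSys} {M : Type} {R : GR T.C M} (A : Ax T R)

include A

theorem Ax.exK {y : M} (hy : R.Pa y) : (∃ c, R.K false c) ∧ ∃ c, R.K true c := by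
  obtain ⟨z, hz⟩ := A.e y y
  obtain ⟨z', hz'⟩ := A.e z z
  obtain ⟨z'', hz''⟩ := A.e z' z'
  have h1 := hz'.x2 rfl (hz.x1 rfl hy)
  exact ⟨⟨_, h1⟩, ⟨_, hz''.x3 rfl h1⟩⟩

theorem Ax.exP {y : M} (hy : R.Pa y) : ∃ t, R.Pe y t := by
  obtain ⟨c, hc⟩ := (A.exK hy).1
  obtain ⟨z, hz⟩ := A.e y c
  exact ⟨z, hz.b4 hy hc⟩

theorem Ax.exQ {y : M} (hy : R.Pa y) : ∃ t, R.Qe y t := by
  obtain ⟨c, hc⟩ := (A.exK hy).2
  obtain ⟨z, hz⟩ := A.e y c
  exact ⟨z, hz.b5 hy hc⟩

theorem Ax.back {y y' g : M} (h : R.D y y') (hP : ∀ t, R.Pe y' t → t = g) : R.Pe y g := by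
  obtain ⟨z, hz⟩ := A.e y' y
  obtain ⟨h1, h2⟩ := hz.c2 h
  rwa [hP z h1] at h2

variable {a : ℕ → M} {i : ℕ} (E : Est R a i)

include E

theorem Ax.fwd {y y' : M} {r : ℕ} (hr : r < i) (h : R.D y y') (hq : ∀ g, R.Qe y g → g = a r) :
    R.Qe y' (a (r + 1)) := by
  obtain ⟨z, hz⟩ := A.e y y'
  obtain ⟨h1, h2⟩ := hz.c1 h
  rw [hq z h1] at h2
  exact A.qpe E hr h2

theorem Ax.chainP {l j : ℕ} (hl : l ≤ i)
    (IH2 : ∀ r < l, ∀ w, R.Qe w (a r) → ∀ g, R.Qe w g → g = a r) {w : M} (hw : R.Pe w (a l))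
    (IH1 : ∀ r, j < r → r < l → ∀ y, R.Pe y (a l) → R.Qe y (a r) → ∀ g, R.Pe y g → g = a l) :
    ∀ k r, r + k + 1 = l → j < r → ∀ y, R.Cp w y → R.Qe y (a r) → (R.d1 y ↔ r + 1 = l) →
      R.Pe y (a l) := by
  intro k
  induction k with
  | zero =>
    intro r hr hj y hc hq hd
    obtain ⟨t, ht⟩ := A.exP ((A.u _ _).QeT hq).1
    have h1 := A.d1P E (by omega) hq (IH2 r (by omega) y hq) (hd.2 (by omega)) ht
    rw [h1, show r + 1 = l by omega] at ht
    exact ht
  | succ k ih =>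
    intro r hr hj y hc hq hd
    obtain ⟨z, hz⟩ := A.e w y
    obtain ⟨h1, h2, h3⟩ := hz.f2 hc (fun h => by have := hd.1 h; omega)
    have h4 := A.fwd E (by omega) h1 (IH2 r (by omega) y hq)
    obtain ⟨t, ht⟩ := A.e z w
    obtain ⟨h5, h6⟩ := ht.f5 h2 h3
    rw [IH2 (r + 1) (by omega) z h4 t h5, (A.u w z).CpG h2,
      (A.profp E hl hw (r := r + 1) (by omega)).2] at h6
    have h7 := ih (r + 1) (by omega) (by omega) z h2 h4 h6
    exact A.back h1 (IH1 (r + 1) (by omega) (by omega) z h7 h4)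

theorem Ax.ctrl1 {l : ℕ} (hl : l ≤ i)
    (IH2 : ∀ r < l, ∀ w, R.Qe w (a r) → ∀ g, R.Qe w g → g = a r) :
    ∀ k j, j + k + 1 = l → ∀ w, R.Pe w (a l) → R.Qe w (a j) → ∀ g, R.Pe w g → g = a l := by
  intro k
  induction k using Nat.strong_induction_on with
  | _ k ih =>
    intro j hj w hP hQ g hg
    have hT := IH2 j (by omega) w hQ
    have hd0 : ¬ R.d0 w := by
      intro h
      have h1 := ((A.u w _).d0E h).1 hP
      have := A.inj E hl (by omega) (hT _ h1)
      omega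
    by_cases hd1 : R.d1 w
    · have h1 := A.d1P E (by omega) hQ hT hd1 hg
      have h2 := A.d1P E (by omega) hQ hT hd1 hP
      rw [h1, h2]
    · have h1 : ¬ R.Qe w g := fun h => hd0 ((A.u w g).d0I hg h)
      have h2 : ¬ R.QG w g := fun h => (A.u w g).PeG hg ((A.u w g).QGP h)
      obtain ⟨y, hy⟩ := A.e g w
      obtain ⟨h3, h4, h5⟩ := hy.v3 hg h1 h2 hd1
      obtain ⟨t, ht⟩ := A.e y w
      obtain ⟨h6, h7⟩ := ht.f4 h4 h5
      rw [hT t h6] at h7
      have h8 := A.qpe E (by omega) h7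
      have h9 : j + 1 ≠ l := by
        intro h
        have := (A.profp E hl hP (r := j) (by omega)).2.2 h
        exact hd1 ((A.u w (a j)).d1I this hQ)
      have h10 := A.qbey E (by omega) hQ (r := j + 1) (by omega) (by omega)
      have h11 : ¬ R.Pe w (a (j + 1)) := fun h =>
        (A.u _ _).PeG h (A.profp E hl hP (r := j + 1) (by omega)).1
      obtain ⟨s, hs⟩ := A.e w (a (j + 1))
      obtain ⟨h12, h13⟩ := hs.w3 ((A.u _ _).QeT hQ).1 (E.e5 _ (by omega)) h10.2 h10.1
        (fun h => h11 h.1)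
      rw [hT s h12] at h13
      have h14 := h13.2 (E.e1 j (by omega))
      have h15 : R.d1 y ↔ j + 1 + 1 = l := by
        rw [(A.u w y).CpD h4 h5, ← (A.u w (a (j + 1))).d2E h14]
        exact (A.profp E hl hP (r := j + 1) (by omega)).2
      have IH1 : ∀ r, j < r → r < l → ∀ y, R.Pe y (a l) → R.Qe y (a r) →
          ∀ g, R.Pe y g → g = a l := fun r hr hr' =>
        ih (l - r - 1) (by omega) r (by omega)
      have h16 := A.chainP E hl IH2 hP IH1 (l - (j + 1) - 1) (j + 1) (by omega) (by omega) y h4 h8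
        h15
      exact IH1 (j + 1) (by omega) (by omega) y h16 h8 g h3

theorem Ax.chainQ {l : ℕ} (hl : l ≤ i)
    (IH2 : ∀ r < l, ∀ w, R.Qe w (a r) → ∀ g, R.Qe w g → g = a r) {w : M} (hw : R.Qe w (a l)) :
    ∀ k r, r + k + 1 = l → ∀ y, R.Cl w y → R.Qe y (a r) → R.Pe y (a l) := by
  intro k
  induction k with
  | zero =>
    intro r hr y hc hq
    obtain ⟨t, ht⟩ := A.e y w
    obtain ⟨h1, h2, h3⟩ := ht.f3 hc
    rw [IH2 r (by omega) y hq t h1] at h2 h3
    have h4 := A.profq E hl hw (r := r) (by omega)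
    rw [(A.u w y).ClG hc, h4.2] at h2
    obtain ⟨s, hs⟩ := A.exP ((A.u _ _).QeT hq).1
    have h5 := A.d1P E (by omega) hq (IH2 r (by omega) y hq) (h2.2 (by omega)) hs
    rw [h5, show r + 1 = l by omega] at hs
    exact hs
  | succ k ih =>
    intro r hr y hc hq
    obtain ⟨t, ht⟩ := A.e y w
    obtain ⟨h1, h2, h3⟩ := ht.f3 hc
    rw [IH2 r (by omega) y hq t h1] at h2 h3
    have h4 := A.profq E hl hw (r := r) (by omega)
    rw [(A.u w y).ClG hc, h4.2] at h2
    obtain ⟨z, hz⟩ := A.e w y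
    obtain ⟨h5, h6⟩ := hz.f1 hc (fun h => (A.u w (a r)).QeG (h3 h) h4.1)
      (fun h => by have := h2.1 h; omega)
    have h7 := A.fwd E (by omega) h5 (IH2 r (by omega) y hq)
    have h8 := ih (r + 1) (by omega) z h6 h7
    exact A.back h5 (A.ctrl1 E hl IH2 k (r + 1) (by omega) z h8 h7)

theorem Ax.ctrl : ∀ l ≤ i, (∀ w, R.Qe w (a l) → ∀ g, R.Qe w g → g = a l) ∧
    (∀ j ≤ l, ∀ w, R.Pe w (a l) → R.Qe w (a j) → ∀ g, R.Pe w g → g = a l) := by
  intro l
  induction l using Nat.strong_induction_on with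
  | _ l ih =>
    intro hl
    have IH2 : ∀ r < l, ∀ w, R.Qe w (a r) → ∀ g, R.Qe w g → g = a r := fun r hr =>
      (ih r hr (by omega)).1
    have key : ∀ w, R.Qe w (a l) → ∀ g, R.Qe w g → g = a l := by
      intro w hw g hg
      rcases Nat.eq_zero_or_pos l with rfl | h0
      · have h1 := (A.u w (a 0)).Z2I hw E.e0
        exact (A.u _ _).zeU ((A.u w g).Z2E h1 hg) E.e0
      · have h1 : ¬ R.Ze g := by
          intro h
          exact A.nze E hl h0 ((A.u w (a l)).Z2E ((A.u w g).Z2I hg h) hw)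
        obtain ⟨y, hy⟩ := A.e g w
        obtain ⟨h2, h3, h4⟩ := hy.v1 hg h1
        obtain ⟨t, ht⟩ := A.exQ ((A.u _ _).PeT h3).1
        have h5 : t = a 0 := (A.u _ _).zeU ((A.u y t).Z2E h2 ht) E.e0
        rw [h5] at ht
        have h6 := A.chainQ E hl IH2 hw (l - 1) 0 (by omega) y h4 ht
        exact A.ctrl1 E hl IH2 (l - 1) 0 (by omega) y h6 ht g h3
    refine ⟨key, fun j hj w hP hQ g hg => ?_⟩
    rcases eq_or_lt_of_le hj with rfl | hj'
    · have h1 := (A.u w (a j)).d0I hP hQ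
      exact key w hQ g (((A.u w g).d0E h1).1 hg)
    · exact A.ctrl1 E hl IH2 (l - j - 1) j (by omega) w hP hQ g hg

/-- the numbers form a chain -/
theorem Ax.extend (hla : ¬ R.La (a i)) : ∃ b, Est R (Function.update a (i + 1) b) (i + 1) := by
  have hC := A.ctrl E
  have hN := E.e5 i le_rfl
  -- existence of the successor
  obtain ⟨c, hc⟩ : ∃ c, R.K false c := by
    obtain ⟨z, hz⟩ := A.e (a i) (a i)
    exact ⟨z, hz.x2 rfl hN⟩
  obtain ⟨b, hb'⟩ := A.e (a i) c
  have hb := hb'.b1 hN hc hla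
  -- `b` is new
  have hnew : ∀ b, R.S (a i) b → ∀ k ≤ i, b ≠ a k := by
    rintro b hb k hk rfl
    obtain ⟨k', rfl, h2⟩ := E.e2 k hk _ hb
    have := A.inj E le_rfl (by omega) h2
    omega
  -- uniqueness of the predecessor
  have hpred : ∀ b, R.S (a i) b → ∀ g, R.S g b → g = a i := by
    intro b hb g hg
    obtain ⟨w, hw⟩ := A.e b g
    obtain ⟨h1, h2, h3⟩ := hw.np hg
    obtain ⟨t, ht⟩ := A.exQ ((A.u _ _).PeT h2).1
    have h4 : t = a 0 := (A.u _ _).zeU ((A.u w t).Z2E h1 ht) E.e0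
    rw [h4] at ht
    have chain : ∀ k r, r + k = i → ∀ w, R.Ps w b → R.Qe w (a r) → R.Pe w (a i) := by
      intro k
      induction k with
      | zero =>
        intro r hr w hP hQ
        obtain rfl : r = i := by omega
        have h5 := (A.u w b).PsN hP
        obtain ⟨t, ht⟩ := A.e w b
        obtain ⟨h6, h7⟩ := ht.w3 ((A.u _ _).QeT hQ).1
          ((A.u _ _).LN ((A.u _ _).SL hb)).2 h5.2.2.1 h5.2.2.2 (fun h => h5.1 h.1)
        rw [(hC r le_rfl).1 w hQ t h6, (A.u w b).PsQ hP] at h7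
        exact ((A.u w (a r)).d0E (h7.2 hb)).2 hQ
      | succ k ih =>
        intro r hr w hP hQ
        have h5 := (A.u w b).PsN hP
        obtain ⟨t, ht⟩ := A.e w b
        obtain ⟨h6, h7⟩ := ht.w3 ((A.u _ _).QeT hQ).1
          ((A.u _ _).LN ((A.u _ _).SL hb)).2 h5.2.2.1 h5.2.2.2 (fun h => h5.1 h.1)
        rw [(hC r (by omega)).1 w hQ t h6, (A.u w b).PsQ hP] at h7
        have h8 : ¬ R.d0 w := by
          intro h
          exact hnew b hb (r + 1) (by omega) (E.e3 r (by omega) b (h7.1 h))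
        obtain ⟨z, hz⟩ := A.e b w
        obtain ⟨h9, h10⟩ := hz.v6 hP h8
        have h11 := A.fwd E (by omega) h9 ((hC r (by omega)).1 w hQ)
        have h12 := ih (r + 1) (by omega) z h10 h11
        exact A.back h9 ((hC i le_rfl).2 (r + 1) (by omega) z h12 h11)
    have h5 := chain i 0 (by omega) w h3 ht
    exact (hC i le_rfl).2 0 (by omega) w h5 ht g h2
  -- uniqueness of the successor
  have hsucc' : ∀ b b', R.S (a i) b → R.S (a i) b' → ¬ R.L b b' := by
    intro b b' hb hb' h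
    obtain ⟨v, hv⟩ := A.e b b'
    obtain ⟨h1, h2⟩ := hv.nn h
    rw [hpred b' hb' v h1] at h2
    rcases h2 with h2 | h2
    · exact hnew b hb i le_rfl h2.symm
    · exact (A.u _ _).Las h2 ((A.u _ _).SL hb)
  have hsucc : ∀ b', R.S (a i) b' → b' = b := by
    intro b' hb'
    rcases (A.u b b').tri ((A.u _ _).LN ((A.u _ _).SL hb)).2 ((A.u _ _).LN ((A.u _ _).SL hb')).2
      with h | h | h
    · exact absurd h (hsucc' b b' hb hb')
    · exact h.symm
    · exact absurd h (hsucc' b' b hb' hb)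
  have hbN := ((A.u _ _).LN ((A.u _ _).SL hb)).2
  have hord : ∀ y, R.N y → (∀ k ≤ i, y ≠ a k) → y ≠ b → R.L b y := by
    intro y hy hk hyb
    rcases (A.u b y).tri hbN hy with h | h | h
    · exact h
    · exact absurd h.symm hyb
    · obtain ⟨v, hv⟩ := A.e y b
      obtain ⟨h1, h2⟩ := hv.nn h
      rw [hpred b hb v h1] at h2
      rcases h2 with h2 | h2
      · exact absurd h2.symm (hk i le_rfl)
      · exact absurd (E.e4 i le_rfl y hy hk) ((A.u _ _).Las h2)
  have hold : ∀ r ≤ i, Function.update a (i + 1) b r = a r := fun r hr =>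
    Function.update_of_ne (by omega) _ _
  have hnw : Function.update a (i + 1) b (i + 1) = b := Function.update_self _ _ _
  refine ⟨b, ?_, ?_, ?_, ?_, ?_, ?_, ?_⟩
  · rw [hold 0 (by omega)]
    exact E.e0
  · intro r hr
    rcases eq_or_lt_of_le (Nat.lt_succ_iff.1 hr) with rfl | hr'
    · rw [hold r le_rfl, hnw]
      exact hb
    · rw [hold r (by omega), hold (r + 1) (by omega)]
      exact E.e1 r hr'
  · intro r hr v hv
    rcases eq_or_lt_of_le hr with rfl | hr'
    · rw [hnw] at hv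
      exact ⟨i, rfl, by rw [hold i le_rfl]; exact hpred b hb v hv⟩
    · rw [hold r (by omega)] at hv
      obtain ⟨k, rfl, hk⟩ := E.e2 r (by omega) v hv
      exact ⟨k, rfl, by rw [hold k (by omega)]; exact hk⟩
  · intro r hr v hv
    rcases eq_or_lt_of_le (Nat.lt_succ_iff.1 hr) with rfl | hr'
    · rw [hold r le_rfl] at hv
      rw [hnw]
      exact hsucc v hv
    · rw [hold r (by omega)] at hv
      rw [hold (r + 1) (by omega)]
      exact E.e3 r hr' v hv
  · intro r hr y hy hk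
    have hk' : ∀ k ≤ i, y ≠ a k := fun k hk1 => by
      have := hk k (by omega)
      rwa [hold k hk1] at this
    have hkb : y ≠ b := by
      have := hk (i + 1) le_rfl
      rwa [hnw] at this
    rcases eq_or_lt_of_le hr with rfl | hr'
    · rw [hnw]
      exact hord y hy hk' hkb
    · rw [hold r (by omega)]
      exact E.e4 r (by omega) y hy hk'
  · intro r hr
    rcases eq_or_lt_of_le hr with rfl | hr'
    · rw [hnw]
      exact hbN
    · rw [hold r (by omega)]
      exact E.e5 r (by omega)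
  · intro m hm r hr
    rcases eq_or_lt_of_le hm with rfl | hm'
    · rw [hnw, hold r (by omega)]
      exact E.e4 r (by omega) b hbN (hnew b hb)
    · rw [hold m (by omega), hold r (by omega)]
      exact E.e6 m (by omega) r hr

end sound

end Pool.Agent.V8H44.Sp
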