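import Pool.Agent.V8H44.Sp.AAE2

/-!
Tilings in structures with the properties `∀ x y ∃ z`, third part: the finite structures are
standard.
-/

set_option autoImplicit false
set_option linter.unusedVariables false
set_option linter.unusedSimpArgs false

namespace Pool.Agent.V8H44.Sp

section sound

variable {T : TileSys} {M : Type} {R : GR T.C M} (A : Ax T R)

include A

theorem Ax.exK1 [Nonempty M] : ∃ c, R.K true c := by
  have x0 : M := Classical.arbitrary M
  obtain ⟨x1, h1⟩ := A.e x0 x0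
  obtain ⟨x2, h2⟩ := A.e x1 x1
  obtain ⟨x3, h3⟩ := A.e x2 x2
  rcases (A.u x0 x0).sort with h | h | h | h
  · exact ⟨x2, h2.x3 rfl (h1.x2 rfl h)⟩
  · exact ⟨x3, h3.x3 rfl (h2.x2 rfl (h1.x1 rfl h))⟩
  · exact ⟨x1, h1.x3 rfl h⟩
  · exact ⟨x0, h⟩

theorem Ax.exZ [Nonempty M] : ∃ z, R.Ze z := by
  obtain ⟨c, hc⟩ := A.exK1
  obtain ⟨z, hz⟩ := A.e c c
  exact ⟨z, hz.x4 rfl hc⟩

theorem Ax.est0 {z : M} (hz : R.Ze z) : Est R (fun _ => z) 0 := by
  have hN := (A.u z z).zeN hz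
  refine ⟨hz, fun r hr => by omega, ?_, fun r hr => by omega, ?_, fun _ _ => hN,
    fun m hm r hr => by omega⟩
  · intro r hr v hv
    exfalso
    have h1 := (A.u _ _).SL hv
    by_cases h2 : z = v
    · rw [← h2] at h1
      exact A.irr _ h1
    · exact (A.u _ _).Las h1 ((A.u z v).zeL hz ((A.u _ _).LN h1).1 h2)
  · intro r hr y hy hk
    exact (A.u z y).zeL hz hy (fun h => hk 0 le_rfl h.symm)

theorem Ax.exChain [Finite M] [Nonempty M] : ∃ a i, Est R a i ∧ R.La (a i) := by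
  by_contra hcon
  push Not at hcon
  have key : ∀ i, ∃ a, Est R a i := by
    intro i
    induction i with
    | zero =>
      obtain ⟨z, hz⟩ := A.exZ
      exact ⟨_, A.est0 hz⟩
    | succ i ih =>
      obtain ⟨a, ha⟩ := ih
      obtain ⟨b, hb⟩ := A.extend ha (hcon a i ha)
      exact ⟨_, hb⟩
  obtain ⟨a, ha⟩ := key (Nat.card M)
  have hinj : Function.Injective (fun k : Fin (Nat.card M + 1) => a k) := by
    intro r m h
    exact Fin.ext (A.inj ha (by omega) (by omega) h)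
  have := Nat.card_le_card_of_injective _ hinj
  simp at this

variable {a : ℕ → M} {i : ℕ} (E : Est R a i) (hla : R.La (a i))

include E hla

theorem Ax.num {t : M} (ht : R.N t) : ∃ k ≤ i, t = a k := by
  by_contra h
  push Not at h
  exact (A.u _ _).Las (E.e4 i le_rfl t ht h) ((A.u (a i) t).laL hla ht (h i le_rfl).symm)

/-- the coordinates of a pair -/
theorem Ax.coord {w : M} (hw : R.Pa w) : ∃ l j, j ≤ l ∧ l ≤ i ∧ R.Pe w (a l) ∧ R.Qe w (a j) := by
  obtain ⟨t, ht⟩ := A.exP hw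
  obtain ⟨l, hl, rfl⟩ := A.num E hla ((A.u _ _).PeT ht).2
  obtain ⟨t, hq⟩ := A.exQ hw
  obtain ⟨j, hj, rfl⟩ := A.num E hla ((A.u _ _).QeT hq).2
  refine ⟨l, j, ?_, hl, ht, hq⟩
  by_contra h
  rcases (A.u _ _).QeP hq with h1 | h1
  · exact (A.pbey E hl ht (by omega) hj).2 h1
  · exact (A.pbey E hl ht (by omega) hj).1 h1

theorem Ax.exEl (s : Bool) {l : ℕ} (hl : l ≤ i) : ∀ j ≤ l, ∃ w, R.P s w ∧ R.Pe w (a l) ∧
    R.Qe w (a j) := by
  have hne : Nonempty M := ⟨a 0⟩
  have hPa : ∀ w, R.P s w → R.Pa w := fun w hw => by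
    cases s
    · exact Or.inl hw
    · exact Or.inr hw
  intro j
  induction j with
  | zero =>
    intro _
    obtain ⟨c, hc⟩ := A.exK1
    have hz : ∃ w, R.P s w ∧ R.Z2 w ∧ R.Pe w (a l) := by
      cases s
      · obtain ⟨w, hw⟩ := A.e (a l) c
        exact ⟨w, hw.b2 (E.e5 l hl) hc⟩
      · obtain ⟨w, hw⟩ := A.e c (a l)
        exact ⟨w, hw.b3 hc (E.e5 l hl)⟩
    obtain ⟨w, h1, h2, h3⟩ := hz
    obtain ⟨t, ht⟩ := A.exQ (hPa w h1)
    have : t = a 0 := (A.u _ _).zeU ((A.u w t).Z2E h2 ht) E.e0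
    rw [this] at ht
    exact ⟨w, h1, h3, ht⟩
  | succ j ih =>
    intro hj
    obtain ⟨w, h1, h2, h3⟩ := ih (by omega)
    have hd : ¬ R.d0 w := by
      intro h
      have h4 := ((A.u w (a l)).d0E h).1 h2
      have := A.inj E hl (by omega) ((A.ctrl E j (by omega)).1 w h3 _ h4)
      omega
    obtain ⟨c, hc⟩ := (A.exK (hPa w h1)).1
    obtain ⟨z, hz⟩ := A.e c w
    have h4 := hz.b6 hc (hPa w h1) hd
    have h5 := A.fwd E (by omega) h4 ((A.ctrl E j (by omega)).1 w h3)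
    have h6 : R.P s z := by
      cases s
      · exact ((A.u w z).DT h4).1 h1
      · exact ((A.u w z).DT h4).2.1 h1
    obtain ⟨t, ht⟩ := A.e z w
    obtain ⟨h7, h8⟩ := ht.c2 h4
    rw [(A.ctrl E l hl).2 j (by omega) w h2 h3 t h8] at h7
    exact ⟨z, h6, h7, h5⟩

/-- pairs are determined by their coordinates -/
theorem Ax.uniq {s : Bool} {w w' : M} (hw : R.P s w) (hw' : R.P s w') {l j : ℕ} (hj : j ≤ l)
    (hl : l ≤ i) (h1 : R.Pe w (a l)) (h2 : R.Qe w (a j)) (h1' : R.Pe w' (a l))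
    (h2' : R.Qe w' (a j)) : w = w' := by
  by_contra hne
  have C1 := (A.ctrl E l hl).2 j hj
  have C2 := (A.ctrl E j (by omega)).1
  have hD : ∀ w w', R.Pe w (a l) → R.Qe w (a j) → R.Pe w' (a l) → R.Qe w' (a j) →
      ¬ R.D w w' := by
    intro w w' h1 h2 h1' h2' h
    obtain ⟨t, ht⟩ := A.e w w'
    obtain ⟨h3, h4⟩ := ht.c1 h
    rw [C2 w h2 t h3] at h4
    exact (A.u _ _).QeG h2' ((A.u _ _).QpG h4)
  have hD1 : ∀ w w', R.Pe w (a l) → R.Qe w (a j) → R.Pe w' (a l) → R.Qe w' (a j) →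
      ¬ R.D1 w w' := by
    intro w w' h1 h2 h1' h2' h
    obtain ⟨t, ht⟩ := A.e w w'
    obtain ⟨h3, h4⟩ := ht.c3 h
    rw [C1 w h1 h2 t h3] at h4
    exact (A.u _ _).PeG h1' ((A.u _ _).PpG h4)
  obtain ⟨t, ht⟩ := A.e w w'
  have hs : R.P false w ∧ R.P false w' ∨ R.P true w ∧ R.P true w' := by
    cases s
    · exact Or.inl ⟨hw, hw'⟩
    · exact Or.inr ⟨hw, hw'⟩
  rcases ht.c5 hs hne (hD _ _ h1 h2 h1' h2') (hD _ _ h1' h2' h1 h2) (hD1 _ _ h1 h2 h1' h2')
    (hD1 _ _ h1' h2' h1 h2) with h3 | h3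
  · rw [C1 w h1 h2 t h3.1] at h3
    exact h3.2 h1'
  · rw [C2 w h2 t h3.1] at h3
    exact h3.2 h2'

theorem Ax.Dn {s : Bool} {w w' : M} (hw : R.P s w) (hw' : R.P s w') {l j : ℕ} (hj : j + 1 ≤ l)
    (hl : l ≤ i) (h1 : R.Pe w (a l)) (h2 : R.Qe w (a j)) (h1' : R.Pe w' (a l))
    (h2' : R.Qe w' (a (j + 1))) : R.D w w' := by
  have hPa : ∀ w, R.P s w → R.Pa w := fun w hw => by
    cases s
    · exact Or.inl hw
    · exact Or.inr hw
  have hd : ¬ R.d0 w := by
    intro h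
    have h4 := ((A.u w (a l)).d0E h).1 h1
    have := A.inj E hl (by omega) ((A.ctrl E j (by omega)).1 w h2 _ h4)
    omega
  obtain ⟨c, hc⟩ := (A.exK (hPa w hw)).1
  obtain ⟨z, hz⟩ := A.e c w
  have h4 := hz.b6 hc (hPa w hw) hd
  have h5 := A.fwd E (by omega) h4 ((A.ctrl E j (by omega)).1 w h2)
  have h6 : R.P s z := by
    cases s
    · exact ((A.u w z).DT h4).1 hw
    · exact ((A.u w z).DT h4).2.1 hw
  obtain ⟨t, ht⟩ := A.e z w
  obtain ⟨h7, h8⟩ := ht.c2 h4
  rw [(A.ctrl E l hl).2 j (by omega) w h1 h2 t h8] at h7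
  rwa [← A.uniq E hla h6 hw' hj hl h7 h5 h1' h2']

theorem Ax.D1n {w w' : M} (hw : R.P false w) (hw' : R.P false w') {l j : ℕ} (hj : j ≤ l)
    (hl : l + 1 ≤ i) (h1 : R.Pe w (a l)) (h2 : R.Qe w (a j)) (h1' : R.Pe w' (a (l + 1)))
    (h2' : R.Qe w' (a j)) : R.D1 w w' := by
  have hd : ¬ R.PL w := by
    intro h
    have h3 := (A.u w (a l)).PLE h h1
    have h4 := E.e6 i le_rfl l (by omega)
    have h5 : a l ≠ a i := fun h => by
      rw [h] at h4
      exact A.irr _ h4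
    exact (A.u _ _).Las h4 ((A.u (a l) (a i)).laL h3 (E.e5 i le_rfl) h5)
  obtain ⟨c, hc⟩ := (A.exK (Or.inl hw)).2
  obtain ⟨z, hz⟩ := A.e c w
  have h4 := hz.b7 hc hw hd
  have hzP := ((A.u w z).D1T h4).2
  obtain ⟨t, ht⟩ := A.e w z
  obtain ⟨h5, h6⟩ := ht.c3 h4
  rw [(A.ctrl E l (by omega)).2 j hj w h1 h2 t h5] at h6
  obtain ⟨m, j', hjm, hm, h7, h8⟩ := A.coord E hla (Or.inl hzP)
  have hml : m = l + 1 := by
    rcases lt_trichotomy l m with h9 | h9 | h9
    · exact ((A.profp E hm h7 h9).2.1 h6).symm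
    · rw [h9] at h6
      exact absurd ((A.u _ _).PpG h6) ((A.u _ _).PeG h7)
    · exact absurd ((A.u _ _).PpG h6) (A.pbey E hm h7 h9 (by omega)).1
  obtain ⟨t, ht⟩ := A.e z w
  obtain ⟨h9, h10⟩ := ht.c4 h4
  rw [(A.ctrl E j (by omega)).1 w h2 t h10] at h9
  rw [hml] at h7
  rwa [← A.uniq E hla hzP hw' (by omega) hl h7 h9 h1' h2']

/-- the number of the elements -/
theorem Ax.card [Fintype M] : Fintype.card M = (i + 1) * (i + 1) + 2 * (i + 1) + 2 := by
  classical
  have hne : Nonempty M := ⟨a 0⟩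
  have hPa : ∀ s w, R.P s w → R.Pa w := fun s w hw => by
    cases s
    · exact Or.inl hw
    · exact Or.inr hw
  have hex : ∀ (s : Bool) (l j : ℕ), ∃ w, j ≤ l → l ≤ i → R.P s w ∧ R.Pe w (a l) ∧
      R.Qe w (a j) := by
    intro s l j
    by_cases h : j ≤ l ∧ l ≤ i
    · obtain ⟨w, hw⟩ := A.exEl E hla s h.2 j h.1
      exact ⟨w, fun _ _ => hw⟩
    · exact ⟨a 0, fun h1 h2 => absurd ⟨h1, h2⟩ h⟩
  choose el hel using hex
  have hK : ∃ k : Bool → M, ∀ b, R.K b (k b) := by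
    obtain ⟨c1, h1⟩ := A.exK1
    obtain ⟨c0, h0⟩ : ∃ c, R.K false c := by
      obtain ⟨z, hz⟩ := A.e (a 0) (a 0)
      exact ⟨z, hz.x2 rfl (E.e5 0 (by omega))⟩
    exact ⟨fun b => if b then c1 else c0, fun b => by cases b <;> simpa⟩
  obtain ⟨k, hk⟩ := hK
  let F : (Fin (i + 1) ⊕ (Fin (i + 1) × Fin (i + 2))) ⊕ Bool → M := fun u =>
    match u with
    | .inl (.inl x) => a x
    | .inl (.inr (x, y)) => if (y : ℕ) ≤ x then el false x y else el true (y - 1) x
    | .inr b => k b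
  -- description of the pairs
  have hF : ∀ (x : Fin (i + 1)) (y : Fin (i + 2)), ∃ (s : Bool) (l j : ℕ), j ≤ l ∧ l ≤ i ∧
      F (.inl (.inr (x, y))) = el s l j ∧
      ((s = false ∧ l = x ∧ j = y) ∨ (s = true ∧ l + 1 = y ∧ j = x)) := by
    intro x y
    by_cases h : (y : ℕ) ≤ x
    · exact ⟨false, x, y, h, by omega, if_pos h, Or.inl ⟨rfl, rfl, rfl⟩⟩
    · exact ⟨true, y - 1, x, by omega, by omega, if_neg h, Or.inr ⟨rfl, by omega, rfl⟩⟩
  have hsort : ∀ s s' w, R.P s w → R.P s' w → s = s' := by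
    intro s s' w h h'
    cases s <;> cases s'
    · rfl
    · exact absurd h' ((A.u w w).nP' h)
    · exact absurd h ((A.u w w).nP' h')
    · rfl
  have hkk : ∀ b w, R.K b w → ¬ R.N w ∧ ¬ R.Pa w := by
    intro b w h
    cases b
    · exact ⟨fun h' => ((A.u w w).nN h').2.1 h, fun h' => ((A.u w w).nP h').1 h⟩
    · exact ⟨fun h' => ((A.u w w).nN h').2.2 h, fun h' => ((A.u w w).nP h').2 h⟩
  have hinj : Function.Injective F := by
    rintro ((x | ⟨x, y⟩) | b) ((x' | ⟨x', y'⟩) | b') h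
    · have := A.inj E (by omega) (by omega) (show a x = a x' from h)
      rw [Fin.ext this]
    · exfalso
      obtain ⟨s, l, j, h1, h2, h3, _⟩ := hF x' y'
      rw [h3] at h
      have h5 := hPa s _ (hel s l j h1 h2).1
      rw [← h] at h5
      exact ((A.u _ (a 0)).nN (E.e5 x (by omega))).1 h5
    · exfalso
      have h5 := (hkk b' _ (hk b')).1
      rw [← show F (.inr b') = k b' from rfl, ← h] at h5
      exact h5 (E.e5 x (by omega))
    · exfalso
      obtain ⟨s, l, j, h1, h2, h3, _⟩ := hF x y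
      rw [h3] at h
      have h5 := hPa s _ (hel s l j h1 h2).1
      rw [h] at h5
      exact ((A.u _ (a 0)).nN (E.e5 x' (by omega))).1 h5
    · obtain ⟨s, l, j, h1, h2, h3, h4⟩ := hF x y
      obtain ⟨s', l', j', h1', h2', h3', h4'⟩ := hF x' y'
      rw [h3, h3'] at h
      obtain ⟨e1, e2, e3⟩ := hel s l j h1 h2
      obtain ⟨e1', e2', e3'⟩ := hel s' l' j' h1' h2'
      rw [← h] at e1' e2' e3'
      have hs := hsort _ _ _ e1 e1'
      have hj := A.inj E (by omega) (by omega) ((A.ctrl E j (by omega)).1 _ e3 _ e3')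
      have hl := A.inj E (by omega) (by omega) ((A.ctrl E l h2).2 j h1 _ e2 e3 _ e2')
      subst hs
      have hx : (x : ℕ) = x' := by
        rcases h4 with h4 | h4 <;> rcases h4' with h4' | h4'
        · omega
        · rw [h4.1] at h4'
          exact absurd h4'.1 (by simp)
        · rw [h4.1] at h4'
          exact absurd h4'.1 (by simp)
        · omega
      have hy : (y : ℕ) = y' := by
        rcases h4 with h4 | h4 <;> rcases h4' with h4' | h4'
        · omega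
        · rw [h4.1] at h4'
          exact absurd h4'.1 (by simp)
        · rw [h4.1] at h4'
          exact absurd h4'.1 (by simp)
        · omega
      rw [Fin.ext hx, Fin.ext hy]
    · exfalso
      obtain ⟨s, l, j, h1, h2, h3, _⟩ := hF x y
      rw [h3] at h
      have h5 := hPa s _ (hel s l j h1 h2).1
      rw [h] at h5
      exact (hkk b' _ (hk b')).2 h5
    · exfalso
      have h5 := (hkk b _ (hk b)).1
      rw [← show F (.inr b) = k b from rfl, h] at h5
      exact h5 (E.e5 x' (by omega))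
    · exfalso
      obtain ⟨s, l, j, h1, h2, h3, _⟩ := hF x' y'
      rw [h3] at h
      have h5 := hPa s _ (hel s l j h1 h2).1
      rw [← h] at h5
      exact (hkk b _ (hk b)).2 h5
    · have h : k b = k b' := h
      have h1 := hk b
      have h2 := hk b'
      rw [h] at h1
      cases b <;> cases b'
      · rfl
      · exact absurd h2 ((A.u _ (a 0)).nK h1)
      · exact absurd h1 ((A.u _ (a 0)).nK h2)
      · rfl
  have hsurj : Function.Surjective F := by
    intro w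
    have hpair : ∀ s, R.P s w → ∃ u, F u = w := by
      intro s hw
      obtain ⟨l, j, h1, h2, h3, h4⟩ := A.coord E hla (hPa s w hw)
      obtain ⟨e1, e2, e3⟩ := hel s l j h1 h2
      have h5 := A.uniq E hla hw e1 h1 h2 h3 h4 e2 e3
      cases s
      · refine ⟨.inl (.inr (⟨l, by omega⟩, ⟨j, by omega⟩)), ?_⟩
        rw [h5]
        exact if_pos h1
      · refine ⟨.inl (.inr (⟨j, by omega⟩, ⟨l + 1, by omega⟩)), ?_⟩
        rw [h5]
        exact (if_neg (by simp only; omega)).trans (by simp)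
    rcases (A.u w w).sort with h | h | h | h
    · obtain ⟨r, hr, rfl⟩ := A.num E hla h
      exact ⟨.inl (.inl ⟨r, by omega⟩), rfl⟩
    · rcases h with h | h
      · exact hpair false h
      · exact hpair true h
    · exact ⟨.inr false, (A.u _ _).uK0 (hk false) h⟩
    · exact ⟨.inr true, (A.u _ _).uK1 (hk true) h⟩
  have := Fintype.card_of_bijective ⟨hinj, hsurj⟩
  rw [← this]
  simp only [Fintype.card_sum, Fintype.card_prod, Fintype.card_fin, Fintype.card_bool]
  ring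

/-- the tiling -/
theorem Ax.sol : T.Sol (i + 1) := by
  classical
  have hex : ∀ (l j : ℕ), ∃ w, j ≤ l → l ≤ i → R.P false w ∧ R.Pe w (a l) ∧ R.Qe w (a j) := by
    intro l j
    by_cases h : j ≤ l ∧ l ≤ i
    · obtain ⟨w, hw⟩ := A.exEl E hla false h.2 j h.1
      exact ⟨w, fun _ _ => hw⟩
    · exact ⟨a 0, fun h1 h2 => absurd ⟨h1, h2⟩ h⟩
  choose el hel using hex
  obtain ⟨c0, _⟩ := (A.t (el 0 0) (el 0 0)).e1 (hel 0 0 le_rfl (by omega)).1
  have hc1 : ∀ l j, ∃ c, j ≤ l → l ≤ i → R.t1 c (el l j) := by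
    intro l j
    by_cases h : j ≤ l ∧ l ≤ i
    · obtain ⟨c, hc⟩ := (A.t (el l j) (el l j)).e1 (hel l j h.1 h.2).1
      exact ⟨c, fun _ _ => hc⟩
    · exact ⟨c0, fun h1 h2 => absurd ⟨h1, h2⟩ h⟩
  have hc2 : ∀ l j, ∃ c, j ≤ l → l ≤ i → R.t2 c (el l j) := by
    intro l j
    by_cases h : j ≤ l ∧ l ≤ i
    · obtain ⟨c, hc⟩ := (A.t (el l j) (el l j)).e2 (hel l j h.1 h.2).1
      exact ⟨c, fun _ _ => hc⟩
    · exact ⟨c0, fun h1 h2 => absurd ⟨h1, h2⟩ h⟩
  choose c1 hc1 using hc1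
  choose c2 hc2 using hc2
  have hdiag : ∀ l ≤ i, c1 l l = c2 l l := by
    intro l hl
    obtain ⟨h1, h2, h3⟩ := hel l l le_rfl hl
    have hd := (A.u _ _).d0I h2 h3
    exact (A.t _ (el l l)).u1 h1 _ _ (hc1 l l le_rfl hl)
      (((A.t _ (el l l)).dg h1 hd _).2 (hc2 l l le_rfl hl))
  let c : ℕ → ℕ → T.C := fun x y => if y ≤ x then c1 x y else c2 y x
  have hlow : ∀ x y, y ≤ x → c x y = c1 x y := fun x y h => if_pos h
  have hup : ∀ x y, x ≤ y → y ≤ i → c x y = c2 y x := by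
    intro x y h hy
    rcases eq_or_lt_of_le h with rfl | h'
    · rw [hlow x x le_rfl]
      exact hdiag x hy
    · exact if_neg (by omega)
  refine ⟨c, ?_, ?_, ?_, ?_, ?_, ?_⟩
  · intro x hx y hy
    by_cases h : y ≤ x
    · rw [hlow x y h, hlow (x + 1) y (by omega)]
      obtain ⟨h1, h2, h3⟩ := hel x y h (by omega)
      obtain ⟨h1', h2', h3'⟩ := hel (x + 1) y (by omega) (by omega)
      exact (A.t _ _).EH (A.D1n E hla h1 h1' h (by omega) h2 h3 h2' h3') _ _
        (hc1 x y h (by omega)) (hc1 (x + 1) y (by omega) (by omega))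
    · rw [hup x y (by omega) (by omega), hup (x + 1) y (by omega) (by omega)]
      obtain ⟨h1, h2, h3⟩ := hel y x (by omega) (by omega)
      obtain ⟨h1', h2', h3'⟩ := hel y (x + 1) (by omega) (by omega)
      exact (A.t _ _).DH h1 (A.Dn E hla h1 h1' (by omega) (by omega) h2 h3 h2' h3') _ _
        (hc2 y x (by omega) (by omega)) (hc2 y (x + 1) (by omega) (by omega))
  · intro x hx y hy
    by_cases h : y + 1 ≤ x
    · rw [hlow x y (by omega), hlow x (y + 1) (by omega)]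
      obtain ⟨h1, h2, h3⟩ := hel x y (by omega) (by omega)
      obtain ⟨h1', h2', h3'⟩ := hel x (y + 1) (by omega) (by omega)
      exact (A.t _ _).DV h1 (A.Dn E hla h1 h1' (by omega) (by omega) h2 h3 h2' h3') _ _
        (hc1 x y (by omega) (by omega)) (hc1 x (y + 1) (by omega) (by omega))
    · rw [hup x y (by omega) (by omega), hup x (y + 1) (by omega) (by omega)]
      obtain ⟨h1, h2, h3⟩ := hel y x (by omega) (by omega)
      obtain ⟨h1', h2', h3'⟩ := hel (y + 1) x (by omega) (by omega)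
      exact (A.t _ _).EV (A.D1n E hla h1 h1' (by omega) (by omega) h2 h3 h2' h3') _ _
        (hc2 y x (by omega) (by omega)) (hc2 (y + 1) x (by omega) (by omega))
  · intro y hy
    rw [hup 0 y (by omega) (by omega)]
    obtain ⟨h1, h2, h3⟩ := hel y 0 (by omega) (by omega)
    exact ((A.t _ _).q0 h1 h3 E.e0 _).2 (hc2 y 0 (by omega) (by omega))
  · intro y hy
    rw [Nat.add_sub_cancel, hlow i y (by omega)]
    obtain ⟨h1, h2, h3⟩ := hel i y (by omega) (by omega)
    exact ((A.t _ _).pL h1 h2 hla _).1 (hc1 i y (by omega) (by omega))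
  · intro x hx
    rw [hlow x 0 (by omega)]
    obtain ⟨h1, h2, h3⟩ := hel x 0 (by omega) (by omega)
    exact ((A.t _ _).q0 h1 h3 E.e0 _).1 (hc1 x 0 (by omega) (by omega))
  · intro x hx
    rw [Nat.add_sub_cancel, hup x i (by omega) le_rfl]
    obtain ⟨h1, h2, h3⟩ := hel i x (by omega) (by omega)
    exact ((A.t _ _).pL h1 h2 hla _).2 (hc2 i x (by omega) (by omega))

end sound

/-- the finite structures with the axioms -/
theorem Ax.main {T : TileSys} {M : Type} [Fintype M] [Nonempty M] {R : GR T.C M} (A : Ax T R) :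
    ∃ n, 0 < n ∧ Fintype.card M = n * n + 2 * n + 2 ∧ T.Sol n := by
  obtain ⟨a, i, E, hla⟩ := A.exChain
  exact ⟨i + 1, Nat.succ_pos _, A.card E hla, A.sol E hla⟩

end Pool.Agent.V8H44.Sp
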