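import Pool.Agent.V8H44.Sp.AAE3

/-!
Tilings in structures with the properties `∀ x y ∃ z`, fourth part: the standard structures.
-/

set_option autoImplicit false
set_option linter.unusedVariables false
set_option linter.unusedSimpArgs false

namespace Pool.Agent.V8H44.Sp

/-- the elements of the standard structure -/
inductive EE (n : ℕ) : Type
  | num (x : ℕ) (h : x < n)
  | par (s : Bool) (p q : ℕ) (h : q ≤ p) (h' : p < n)
  | con (b : Bool)

/-- the standard structure -/
def stdR {C : Type} (n : ℕ) (c : ℕ → ℕ → C) : GR C (EE n) where
  N | .num _ _ => True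
    | _ => False
  P s | .par s' _ _ _ _ => s' = s
      | _ => False
  K b | .con b' => b' = b
      | _ => False
  Ze | .num x _ => x = 0
     | _ => False
  La | .num x _ => x + 1 = n
     | _ => False
  d0 | .par _ p q _ _ => p = q
     | _ => False
  d1 | .par _ p q _ _ => p = q + 1
     | _ => False
  d2 | .par _ p q _ _ => p = q + 2
     | _ => False
  Z2 | .par _ p q _ _ => q = 0
     | _ => False
  PL | .par _ p q _ _ => p + 1 = n
     | _ => False
  S | .num x _, .num y _ => y = x + 1
    | _, _ => False
  L | .num x _, .num y _ => x < y
    | _, _ => False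
  Pe | .par _ p q _ _, .num t _ => t = p
     | _, _ => False
  Ps | .par _ p q _ _, .num t _ => t = p + 1
     | _, _ => False
  Pp | .par _ p q _ _, .num t _ => p = t + 1
     | _, _ => False
  PG | .par _ p q _ _, .num t _ => t < p
     | _, _ => False
  Qe | .par _ p q _ _, .num t _ => t = q
     | _, _ => False
  Qs | .par _ p q _ _, .num t _ => t = q + 1
     | _, _ => False
  Qp | .par _ p q _ _, .num t _ => q = t + 1
     | _, _ => False
  QG | .par _ p q _ _, .num t _ => t < q
     | _, _ => False
  D | .par s p q _ _, .par s' p' q' _ _ => s = s' ∧ p = p' ∧ q' = q + 1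
    | _, _ => False
  D1 | .par s p q _ _, .par s' p' q' _ _ => s = false ∧ s' = false ∧ p' = p + 1 ∧ q = q'
     | _, _ => False
  Cl | .par s p q _ _, .par s' p' q' _ _ => s ≠ s' ∧ p' = q
     | _, _ => False
  Cp | .par s p q _ _, .par s' p' q' _ _ => s ≠ s' ∧ p' = p ∧ q < q' ∧ q' < p'
     | _, _ => False
  G | .par s p q _ _, .par s' p' q' _ _ => q' = q + 1
    | _, _ => False
  Gp | .par s p q _ _, .par s' p' q' _ _ => p' = q + 1
     | _, _ => False
  t1 d | .par s p q _ _ => c p q = d
       | _ => False
  t2 d | .par s p q _ _ => c q p = d
       | _ => False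

set_option maxHeartbeats 4000000 in
theorem std_AU {C : Type} (n : ℕ) (c : ℕ → ℕ → C) (x y : EE n) : AU (stdR n c) x y := by
  rcases x with ⟨x, hx⟩ | ⟨s, p, q, h, h'⟩ | b <;> rcases y with ⟨y, hy⟩ | ⟨s', p', q', k, k'⟩ | b'
  all_goals constructor
  all_goals dsimp only [stdR, GR.Pa]
  all_goals first
    | omega
    | (simp; done)
    | (simp only [EE.num.injEq, ne_eq]; omega)
    | (cases s <;> simp; done)
    | (rintro ⟨rfl, _⟩; cases s <;> simp; done)
    | (rintro ⟨rfl, rfl, _⟩; simp; done)
    | (cases b <;> simp; done)

set_option maxHeartbeats 4000000 in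
theorem std_AT {T : TileSys} {n : ℕ} {c : ℕ → ℕ → T.C} (hc : T.IsSol n c) (x y : EE n) :
    AT T (stdR n c) x y := by
  rcases x with ⟨x, hx⟩ | ⟨s, p, q, h, h'⟩ | b
  · constructor <;> first
      | (intro h; exact h.elim)
  · constructor
    · exact fun _ => ⟨_, rfl⟩
    · exact fun _ => ⟨_, rfl⟩
    · intro _ d d' h1 h2
      exact (show c p q = d from h1).symm.trans (show c p q = d' from h2)
    · intro _ d d' h1 h2
      exact (show c q p = d from h1).symm.trans (show c q p = d' from h2)
    · intro _ h1 d
      have h1 : p = q := h1
      subst h1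
      exact Iff.rfl
    · rcases y with ⟨y, hy⟩ | ⟨s', p', q', k, k'⟩ | b'
      · intro _ h1
        exact h1.elim
      · rintro _ ⟨_, h2, h3⟩ d d' h4 h5
        have h4 : c p q = d := h4
        have h5 : c p' q' = d' := h5
        rw [← h4, ← h5, ← h2, h3]
        exact hc.V p h' q (by omega)
      · intro _ h1
        exact h1.elim
    · rcases y with ⟨y, hy⟩ | ⟨s', p', q', k, k'⟩ | b'
      · intro _ h1
        exact h1.elim
      · rintro _ ⟨_, h2, h3⟩ d d' h4 h5
        have h4 : c q p = d := h4
        have h5 : c q' p' = d' := h5
        rw [← h4, ← h5, ← h2, h3]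
        exact hc.H q (by omega) p h'
      · intro _ h1
        exact h1.elim
    · rcases y with ⟨y, hy⟩ | ⟨s', p', q', k, k'⟩ | b'
      · intro h1
        exact h1.elim
      · rintro ⟨_, _, h2, h3⟩ d d' h4 h5
        have h4 : c p q = d := h4
        have h5 : c p' q' = d' := h5
        rw [← h4, ← h5, h2, ← h3]
        exact hc.H p (by omega) q (by omega)
      · intro h1
        exact h1.elim
    · rcases y with ⟨y, hy⟩ | ⟨s', p', q', k, k'⟩ | b'
      · intro h1
        exact h1.elim
      · rintro ⟨_, _, h2, h3⟩ d d' h4 h5
        have h4 : c q p = d := h4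
        have h5 : c q' p' = d' := h5
        rw [← h4, ← h5, h2, ← h3]
        exact hc.V q (by omega) p (by omega)
      · intro h1
        exact h1.elim
    · rcases y with ⟨y, hy⟩ | ⟨s', p', q', k, k'⟩ | b'
      · rintro _ h1 h2 d
        have h1 : y = p := h1
        have h2 : y = 0 := h2
        refine ⟨fun h3 => ?_, fun h3 => ?_⟩
        · have h3 : c p q = d := h3
          rw [← h3, ← h1, h2]
          exact hc.Lf q (by omega)
        · have h3 : c q p = d := h3
          rw [← h3, ← h1, h2]
          exact hc.Bt q (by omega)
      · intro _ h1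
        exact h1.elim
      · intro _ h1
        exact h1.elim
    · rcases y with ⟨y, hy⟩ | ⟨s', p', q', k, k'⟩ | b'
      · rintro _ h1 h2 d
        have h1 : y = p := h1
        have h2 : y + 1 = n := h2
        obtain rfl : p = n - 1 := by omega
        refine ⟨fun h3 => ?_, fun h3 => ?_⟩
        · have h3 : c (n - 1) q = d := h3
          rw [← h3]
          exact hc.Rt q (by omega)
        · have h3 : c q (n - 1) = d := h3
          rw [← h3]
          exact hc.Tp q (by omega)
      · intro _ h1
        exact h1.elim
      · intro _ h1
        exact h1.elim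
    · rcases y with ⟨y, hy⟩ | ⟨s', p', q', k, k'⟩ | b'
      · rintro _ h1 h2 d
        have h1 : y = q := h1
        have h2 : y = 0 := h2
        refine ⟨fun h3 => ?_, fun h3 => ?_⟩
        · have h3 : c p q = d := h3
          rw [← h3, ← h1, h2]
          exact hc.Bt p (by omega)
        · have h3 : c q p = d := h3
          rw [← h3, ← h1, h2]
          exact hc.Lf p (by omega)
      · intro _ h1
        exact h1.elim
      · intro _ h1
        exact h1.elim
    · rcases y with ⟨y, hy⟩ | ⟨s', p', q', k, k'⟩ | b'
      · rintro _ h1 h2 d
        have h1 : y = q := h1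
        have h2 : y + 1 = n := h2
        obtain rfl : q = n - 1 := by omega
        refine ⟨fun h3 => ?_, fun h3 => ?_⟩
        · have h3 : c p (n - 1) = d := h3
          rw [← h3]
          exact hc.Tp p (by omega)
        · have h3 : c (n - 1) p = d := h3
          rw [← h3]
          exact hc.Rt p (by omega)
      · intro _ h1
        exact h1.elim
      · intro _ h1
        exact h1.elim
  · constructor <;> first
      | (intro h; exact h.elim)

/-- a combination of tactics is used for the goals -/
theorem std_nn {C : Type} {n : ℕ} {c : ℕ → ℕ → C} (x y : ℕ) (hx : x < n) (hy : y < n) :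
    ∃ z, AE (stdR n c) (.num x hx) (.num y hy) z := by
  rcases lt_trichotomy x y with h | rfl | h
  · refine ⟨.num (y - 1) (by omega), ?_⟩
    constructor
    all_goals dsimp only [stdR, GR.Pa]
    all_goals first
      | omega
      | (simp; done)
      | (simp only [EE.num.injEq, ne_eq]; omega)
  · refine ⟨.con false, ?_⟩
    constructor
    all_goals dsimp only [stdR, GR.Pa]
    all_goals first
      | omega
      | (simp; done)
      | (simp only [EE.num.injEq, ne_eq]; omega)
  · refine ⟨.par false y 0 (Nat.zero_le _) hy, ?_⟩
    constructor
    all_goals dsimp only [stdR, GR.Pa]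
    all_goals first
      | omega
      | (simp; done)
      | (simp only [EE.num.injEq, ne_eq]; omega)

set_option maxHeartbeats 4000000 in
theorem std_np {C : Type} {n : ℕ} {c : ℕ → ℕ → C} (u : ℕ) (hu : u < n) (s : Bool) (p q : ℕ) (h : q ≤ p) (h' : p < n) :
    ∃ z, AE (stdR n c) (.num u hu) (.par s p q h h') z := by
  rcases lt_trichotomy u q with h1 | h1 | h1
  · refine ⟨.num q (by omega), ?_⟩
    constructor
    all_goals dsimp only [stdR, GR.Pa]
    all_goals first
      | omega
      | (simp; done)
      | (simp only [EE.num.injEq, ne_eq]; omega)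
      | (simp; omega)
  · rcases Nat.eq_zero_or_pos u with h2 | h2
    · refine ⟨.con false, ?_⟩
      constructor
      all_goals dsimp only [stdR, GR.Pa]
      all_goals first
        | omega
        | (simp; done)
        | (simp only [EE.num.injEq, ne_eq]; omega)
        | (simp; omega)
    · refine ⟨.par (!s) u 0 (Nat.zero_le _) hu, ?_⟩
      constructor
      all_goals dsimp only [stdR, GR.Pa]
      all_goals first
        | omega
        | (simp; done)
        | (simp only [EE.num.injEq, ne_eq]; omega)
        | (simp; omega)
  · rcases lt_trichotomy u p with h2 | h2 | h2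
    · refine ⟨.num (u - 1) (by omega), ?_⟩
      constructor
      all_goals dsimp only [stdR, GR.Pa]
      all_goals first
        | omega
        | (simp; done)
        | (simp only [EE.num.injEq, ne_eq]; omega)
        | (simp; omega)
    · by_cases h3 : p = q + 1
      · refine ⟨.num (u - 1) (by omega), ?_⟩
        constructor
        all_goals dsimp only [stdR, GR.Pa]
        all_goals first
          | omega
          | (simp; done)
          | (simp only [EE.num.injEq, ne_eq]; omega)
          | (simp; omega)
      · refine ⟨.par (!s) p (q + 1) (by omega) h', ?_⟩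
        constructor
        all_goals dsimp only [stdR, GR.Pa]
        all_goals first
          | omega
          | (simp; done)
          | (simp only [EE.num.injEq, ne_eq]; omega)
          | (simp; omega)
    · by_cases h3 : u = p + 1 ∧ q < p
      · refine ⟨.par s p (q + 1) (by omega) h', ?_⟩
        constructor
        all_goals dsimp only [stdR, GR.Pa]
        all_goals first
          | omega
          | (simp; done)
          | (simp only [EE.num.injEq, ne_eq]; omega)
          | (simp; omega)
      · refine ⟨.con false, ?_⟩
        constructor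
        all_goals dsimp only [stdR, GR.Pa]
        all_goals first
          | omega
          | (simp; done)
          | (simp only [EE.num.injEq, ne_eq]; omega)
          | (simp; omega)

set_option maxHeartbeats 4000000 in
theorem std_pn {C : Type} {n : ℕ} {c : ℕ → ℕ → C} (u : ℕ) (hu : u < n) (s : Bool) (p q : ℕ) (h : q ≤ p) (h' : p < n) :
    ∃ z, AE (stdR n c) (.par s p q h h') (.num u hu) z := by
  by_cases h1 : u ≤ q
  · rcases Nat.eq_zero_or_pos u with h2 | h2
    · refine ⟨.con false, ?_⟩
      constructor
      all_goals dsimp only [stdR, GR.Pa]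
      all_goals first
        | omega
        | (simp; done)
        | (simp only [EE.num.injEq, ne_eq]; omega)
        | (simp; omega)
    · refine ⟨.num (u - 1) (by omega), ?_⟩
      constructor
      all_goals dsimp only [stdR, GR.Pa]
      all_goals first
        | omega
        | (simp; done)
        | (simp only [EE.num.injEq, ne_eq]; omega)
        | (simp; omega)
  · by_cases h2 : u = p ∧ p ≠ q + 1
    · refine ⟨.num (u - 1) (by omega), ?_⟩
      constructor
      all_goals dsimp only [stdR, GR.Pa]
      all_goals first
        | omega
        | (simp; done)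
        | (simp only [EE.num.injEq, ne_eq]; omega)
        | (simp; omega)
    · refine ⟨.num q (by omega), ?_⟩
      constructor
      all_goals dsimp only [stdR, GR.Pa]
      all_goals first
        | omega
        | (simp; done)
        | (simp only [EE.num.injEq, ne_eq]; omega)
        | (simp; omega)

set_option maxHeartbeats 4000000 in
theorem std_nc {C : Type} {n : ℕ} {c : ℕ → ℕ → C} (u : ℕ) (hu : u < n) (b : Bool) :
    ∃ z, AE (stdR n c) (.num u hu) (.con b) z := by
  cases b
  · by_cases h1 : u + 1 = n
    · refine ⟨.con false, ?_⟩
      constructor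
      all_goals dsimp only [stdR, GR.Pa]
      all_goals first
        | omega
        | (simp; done)
        | (simp only [EE.num.injEq, ne_eq]; omega)
        | (simp; omega)
    · refine ⟨.num (u + 1) (by omega), ?_⟩
      constructor
      all_goals dsimp only [stdR, GR.Pa]
      all_goals first
        | omega
        | (simp; done)
        | (simp only [EE.num.injEq, ne_eq]; omega)
        | (simp; omega)
  · refine ⟨.par false u 0 (Nat.zero_le _) hu, ?_⟩
    constructor
    all_goals dsimp only [stdR, GR.Pa]
    all_goals first
      | omega
      | (simp; done)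
      | (simp only [EE.num.injEq, ne_eq]; omega)
      | (simp; omega)

set_option maxHeartbeats 4000000 in
theorem std_cn {C : Type} {n : ℕ} {c : ℕ → ℕ → C} (u : ℕ) (hu : u < n) (b : Bool) :
    ∃ z, AE (stdR n c) (.con b) (.num u hu) z := by
  cases b
  · refine ⟨.con false, ?_⟩
    constructor
    all_goals dsimp only [stdR, GR.Pa]
    all_goals first
      | omega
      | (simp; done)
      | (simp only [EE.num.injEq, ne_eq]; omega)
      | (simp; omega)
  · refine ⟨.par true u 0 (Nat.zero_le _) hu, ?_⟩
    constructor
    all_goals dsimp only [stdR, GR.Pa]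
    all_goals first
      | omega
      | (simp; done)
      | (simp only [EE.num.injEq, ne_eq]; omega)
      | (simp; omega)

set_option maxHeartbeats 4000000 in
theorem std_pc {C : Type} {n : ℕ} {c : ℕ → ℕ → C} (s : Bool) (p q : ℕ) (h : q ≤ p) (h' : p < n) (b : Bool) :
    ∃ z, AE (stdR n c) (.par s p q h h') (.con b) z := by
  cases b
  · refine ⟨.num p h', ?_⟩
    constructor
    all_goals dsimp only [stdR, GR.Pa]
    all_goals first
      | omega
      | (simp; done)
      | (simp only [EE.num.injEq, ne_eq]; omega)
      | (simp; omega)
  · refine ⟨.num q (by omega), ?_⟩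
    constructor
    all_goals dsimp only [stdR, GR.Pa]
    all_goals first
      | omega
      | (simp; done)
      | (simp only [EE.num.injEq, ne_eq]; omega)
      | (simp; omega)

set_option maxHeartbeats 4000000 in
theorem std_cp {C : Type} {n : ℕ} {c : ℕ → ℕ → C} (s : Bool) (p q : ℕ) (h : q ≤ p) (h' : p < n) (b : Bool) :
    ∃ z, AE (stdR n c) (.con b) (.par s p q h h') z := by
  cases b
  · by_cases h1 : p = q
    · refine ⟨.con false, ?_⟩
      constructor
      all_goals dsimp only [stdR, GR.Pa]
      all_goals first
        | omega
        | (simp; done)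
        | (simp only [EE.num.injEq, ne_eq]; omega)
        | (simp; omega)
    · refine ⟨.par s p (q + 1) (by omega) h', ?_⟩
      constructor
      all_goals dsimp only [stdR, GR.Pa]
      all_goals first
        | omega
        | (simp; done)
        | (simp only [EE.num.injEq, ne_eq]; omega)
        | (simp; omega)
  · by_cases h1 : p + 1 = n
    · refine ⟨.con false, ?_⟩
      constructor
      all_goals dsimp only [stdR, GR.Pa]
      all_goals first
        | omega
        | (simp; done)
        | (simp only [EE.num.injEq, ne_eq]; omega)
        | (simp; omega)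
    · cases s
      · refine ⟨.par false (p + 1) q (by omega) (by omega), ?_⟩
        constructor
        all_goals dsimp only [stdR, GR.Pa]
        all_goals first
          | omega
          | (simp; done)
          | (simp only [EE.num.injEq, ne_eq]; omega)
          | (simp; omega)
      · refine ⟨.con false, ?_⟩
        constructor
        all_goals dsimp only [stdR, GR.Pa]
        all_goals first
          | omega
          | (simp; done)
          | (simp only [EE.num.injEq, ne_eq]; omega)
          | (simp; omega)

set_option maxHeartbeats 4000000 in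
theorem std_cc {C : Type} {n : ℕ} {c : ℕ → ℕ → C} (hn : 0 < n) (b b' : Bool) :
    ∃ z, AE (stdR n c) (.con b) (.con b') z := by
  cases b <;> cases b'
  · refine ⟨.con true, ?_⟩
    constructor
    all_goals dsimp only [stdR, GR.Pa]
    all_goals first
      | omega
      | (simp; done)
      | (simp only [EE.num.injEq, ne_eq]; omega)
      | (simp; omega)
  · refine ⟨.con false, ?_⟩
    constructor
    all_goals dsimp only [stdR, GR.Pa]
    all_goals first
      | omega
      | (simp; done)
      | (simp only [EE.num.injEq, ne_eq]; omega)
      | (simp; omega)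
  · refine ⟨.con false, ?_⟩
    constructor
    all_goals dsimp only [stdR, GR.Pa]
    all_goals first
      | omega
      | (simp; done)
      | (simp only [EE.num.injEq, ne_eq]; omega)
      | (simp; omega)
  · refine ⟨.num 0 hn, ?_⟩
    constructor
    all_goals dsimp only [stdR, GR.Pa]
    all_goals first
      | omega
      | (simp; done)
      | (simp only [EE.num.injEq, ne_eq]; omega)
      | (simp; omega)

set_option maxHeartbeats 4000000 in
theorem std_pp1f {C : Type} {n : ℕ} {c : ℕ → ℕ → C} (p q : ℕ) (h : q ≤ p) (h' : p < n) (p' q' : ℕ) (k : q' ≤ p') (k' : p' < n) :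
    ∃ z, AE (stdR n c) (.par false p q h h') (.par false p' q' k k') z := by
  by_cases h1 : p = p'
  · by_cases h2 : q = q' + 1
    · refine ⟨.num p h', ?_⟩
      constructor
      all_goals dsimp only [stdR, GR.Pa]
      all_goals first
        | omega
        | (simp; done)
        | (simp only [EE.num.injEq, ne_eq]; omega)
        | (simp; omega)
    · refine ⟨.num q (by omega), ?_⟩
      constructor
      all_goals dsimp only [stdR, GR.Pa]
      all_goals first
        | omega
        | (simp; done)
        | (simp only [EE.num.injEq, ne_eq]; omega)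
        | (simp; omega)
  · by_cases h2 : q = q' ∧ p = p' + 1
    · refine ⟨.num q (by omega), ?_⟩
      constructor
      all_goals dsimp only [stdR, GR.Pa]
      all_goals first
        | omega
        | (simp; done)
        | (simp only [EE.num.injEq, ne_eq]; omega)
        | (simp; omega)
    · refine ⟨.num p h', ?_⟩
      constructor
      all_goals dsimp only [stdR, GR.Pa]
      all_goals first
        | omega
        | (simp; done)
        | (simp only [EE.num.injEq, ne_eq]; omega)
        | (simp; omega)

set_option maxHeartbeats 4000000 in
theorem std_pp1t {C : Type} {n : ℕ} {c : ℕ → ℕ → C} (p q : ℕ) (h : q ≤ p) (h' : p < n) (p' q' : ℕ) (k : q' ≤ p') (k' : p' < n) :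
    ∃ z, AE (stdR n c) (.par true p q h h') (.par true p' q' k k') z := by
  by_cases h1 : p = p'
  · by_cases h2 : q = q' + 1
    · refine ⟨.num p h', ?_⟩
      constructor
      all_goals dsimp only [stdR, GR.Pa]
      all_goals first
        | omega
        | (simp; done)
        | (simp only [EE.num.injEq, ne_eq]; omega)
        | (simp; omega)
    · refine ⟨.num q (by omega), ?_⟩
      constructor
      all_goals dsimp only [stdR, GR.Pa]
      all_goals first
        | omega
        | (simp; done)
        | (simp only [EE.num.injEq, ne_eq]; omega)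
        | (simp; omega)
  · refine ⟨.num p h', ?_⟩
    constructor
    all_goals dsimp only [stdR, GR.Pa]
    all_goals first
      | omega
      | (simp; done)
      | (simp only [EE.num.injEq, ne_eq]; omega)
      | (simp; omega)

set_option maxHeartbeats 4000000 in
theorem std_pp2f {C : Type} {n : ℕ} {c : ℕ → ℕ → C} (p q : ℕ) (h : q ≤ p) (h' : p < n) (p' q' : ℕ) (k : q' ≤ p') (k' : p' < n) :
    ∃ z, AE (stdR n c) (.par false p q h h') (.par true p' q' k k') z := by
  by_cases h1 : (p' = q ∨ (p' = p ∧ q < q')) ∧ q' + 2 ≤ p'
  · refine ⟨.par true p' (q' + 1) (by omega) k', ?_⟩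
    constructor
    all_goals dsimp only [stdR, GR.Pa]
    all_goals first
      | omega
      | (simp; done)
      | (simp only [EE.num.injEq, ne_eq]; omega)
      | (simp; omega)
  · by_cases h2 : p = p' ∧ q = q' + 1 ∧ q < p
    · refine ⟨.num q' (by omega), ?_⟩
      constructor
      all_goals dsimp only [stdR, GR.Pa]
      all_goals first
        | omega
        | (simp; done)
        | (simp only [EE.num.injEq, ne_eq]; omega)
        | (simp; omega)
    · refine ⟨.num q (by omega), ?_⟩
      constructor
      all_goals dsimp only [stdR, GR.Pa]
      all_goals first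
        | omega
        | (simp; done)
        | (simp only [EE.num.injEq, ne_eq]; omega)
        | (simp; omega)

set_option maxHeartbeats 4000000 in
theorem std_pp2t {C : Type} {n : ℕ} {c : ℕ → ℕ → C} (p q : ℕ) (h : q ≤ p) (h' : p < n) (p' q' : ℕ) (k : q' ≤ p') (k' : p' < n) :
    ∃ z, AE (stdR n c) (.par true p q h h') (.par false p' q' k k') z := by
  by_cases h1 : (p' = q ∨ (p' = p ∧ q < q')) ∧ q' + 2 ≤ p'
  · refine ⟨.par false p' (q' + 1) (by omega) k', ?_⟩
    constructor
    all_goals dsimp only [stdR, GR.Pa]
    all_goals first
      | omega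
      | (simp; done)
      | (simp only [EE.num.injEq, ne_eq]; omega)
      | (simp; omega)
  · by_cases h2 : p = p' ∧ q = q' + 1 ∧ q < p
    · refine ⟨.num q' (by omega), ?_⟩
      constructor
      all_goals dsimp only [stdR, GR.Pa]
      all_goals first
        | omega
        | (simp; done)
        | (simp only [EE.num.injEq, ne_eq]; omega)
        | (simp; omega)
    · refine ⟨.num q (by omega), ?_⟩
      constructor
      all_goals dsimp only [stdR, GR.Pa]
      all_goals first
        | omega
        | (simp; done)
        | (simp only [EE.num.injEq, ne_eq]; omega)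
        | (simp; omega)

theorem std_AE {C : Type} {n : ℕ} (hn : 0 < n) {c : ℕ → ℕ → C} (x y : EE n) :
    ∃ z, AE (stdR n c) x y z := by
  rcases x with ⟨x, hx⟩ | ⟨s, p, q, h, h'⟩ | b <;> rcases y with ⟨y, hy⟩ | ⟨s', p', q', k, k'⟩ | b'
  · exact std_nn x y hx hy
  · exact std_np _ _ _ _ _ _ _
  · exact std_nc _ _ _
  · exact std_pn _ _ _ _ _ _ _
  · cases s <;> cases s'
    · exact std_pp1f _ _ _ _ _ _ _ _
    · exact std_pp2f _ _ _ _ _ _ _ _
    · exact std_pp2t _ _ _ _ _ _ _ _
    · exact std_pp1t _ _ _ _ _ _ _ _
  · exact std_pc _ _ _ _ _ _
  · exact std_cn _ _ _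
  · exact std_cp _ _ _ _ _ _
  · exact std_cc hn _ _

theorem std_Ax {T : TileSys} {n : ℕ} (hn : 0 < n) {c : ℕ → ℕ → T.C} (hc : T.IsSol n c) :
    Ax T (stdR n c) :=
  ⟨fun x y => ⟨std_AU n c x y, std_AT hc x y, std_AE hn x y⟩⟩

end Pool.Agent.V8H44.Sp
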