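import Pool.Agent.V8H44.Sp.AAE4
import Pool.Agent.V8H44.Sp.UnivS

/-!
Tilings in structures with the properties `∀ x y ∃ z`, fifth part: the sentences.
-/

set_option autoImplicit false
set_option linter.unusedVariables false
set_option linter.unusedSimpArgs false
set_option warn.classDefReducibility false

namespace Pool.Agent.V8H44.Sp

open FirstOrder

/-- the elements of the standard structure -/
def EE.equiv (n : ℕ) : EE n ≃ (Fin n ⊕ (Fin n × Fin (n + 1))) ⊕ Bool where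
  toFun
    | .num x h => .inl (.inl ⟨x, h⟩)
    | .par false p q h h' => .inl (.inr (⟨p, h'⟩, ⟨q, by omega⟩))
    | .par true p q h h' => .inl (.inr (⟨q, by omega⟩, ⟨p + 1, by omega⟩))
    | .con b => .inr b
  invFun
    | .inl (.inl x) => .num x x.2
    | .inl (.inr (x, y)) => if h : (y : ℕ) ≤ x then .par false x y h x.2 else
        .par true (y - 1) x (by omega) (by omega)
    | .inr b => .con b
  left_inv := by
    rintro (⟨x, hx⟩ | ⟨s, p, q, h, h'⟩ | b)
    · rfl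
    · cases s
      · exact dif_pos h
      · exact (dif_neg (show ¬ p + 1 ≤ q by omega)).trans (by simp)
    · rfl
  right_inv := by
    rintro ((x | ⟨x, y⟩) | b)
    · rfl
    · by_cases h : (y : ℕ) ≤ x
      · simp only [dif_pos h]
      · simp only [dif_neg h]
        congr 3
        exact Fin.ext (by simp only; omega)
    · rfl

noncomputable instance (n : ℕ) : Fintype (EE n) := Fintype.ofEquiv _ (EE.equiv n).symm

theorem EE.card (n : ℕ) : Fintype.card (EE n) = n * n + 2 * n + 2 := by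
  rw [Fintype.card_congr (EE.equiv n)]
  simp only [Fintype.card_sum, Fintype.card_prod, Fintype.card_fin, Fintype.card_bool]
  ring

/-- the names of the binary relations -/
inductive GB : Type
  | S | L | Pe | Ps | Pp | PG | Qe | Qs | Qp | QG | D | D1 | Cl | Cp | G | Gp

/-- the names of the unary relations -/
inductive GU : Type
  | N | P0 | P1 | K0 | K1 | Ze | La | d0 | d1 | d2 | Z2 | PL

instance : Finite GB := by
  refine Finite.of_injective (β := Fin 16) (fun b => match b with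
    | .S => 0
    | .L => 1
    | .Pe => 2
    | .Ps => 3
    | .Pp => 4
    | .PG => 5
    | .Qe => 6
    | .Qs => 7
    | .Qp => 8
    | .QG => 9
    | .D => 10
    | .D1 => 11
    | .Cl => 12
    | .Cp => 13
    | .G => 14
    | .Gp => 15) ?_
  intro a b h
  cases a <;> cases b <;> first
    | rfl
    | exact absurd h (by decide)

instance : Finite GU := by
  refine Finite.of_injective (β := Fin 12) (fun b => match b with
    | .N => 0
    | .P0 => 1
    | .P1 => 2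
    | .K0 => 3
    | .K1 => 4
    | .Ze => 5
    | .La => 6
    | .d0 => 7
    | .d1 => 8
    | .d2 => 9
    | .Z2 => 10
    | .PL => 11) ?_
  intro a b h
  cases a <;> cases b <;> first
    | rfl
    | exact absurd h (by decide)

/-- the unary relation symbols -/
abbrev GI (C : Type) : Type := GU ⊕ (Bool × C)

/-- the relations of a structure -/
def toGR {C M : Type} (s : (LB (GI C) GB).Structure M) : GR C M where
  N x := s.RelMap (n := 1) (.un (.inl .N)) ![x]
  P b x := match b with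
    | false => s.RelMap (n := 1) (.un (.inl .P0)) ![x]
    | true => s.RelMap (n := 1) (.un (.inl .P1)) ![x]
  K b x := match b with
    | false => s.RelMap (n := 1) (.un (.inl .K0)) ![x]
    | true => s.RelMap (n := 1) (.un (.inl .K1)) ![x]
  Ze x := s.RelMap (n := 1) (.un (.inl .Ze)) ![x]
  La x := s.RelMap (n := 1) (.un (.inl .La)) ![x]
  d0 x := s.RelMap (n := 1) (.un (.inl .d0)) ![x]
  d1 x := s.RelMap (n := 1) (.un (.inl .d1)) ![x]
  d2 x := s.RelMap (n := 1) (.un (.inl .d2)) ![x]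
  Z2 x := s.RelMap (n := 1) (.un (.inl .Z2)) ![x]
  PL x := s.RelMap (n := 1) (.un (.inl .PL)) ![x]
  S x y := s.RelMap (n := 2) (.bi .S) ![x, y]
  L x y := s.RelMap (n := 2) (.bi .L) ![x, y]
  Pe x y := s.RelMap (n := 2) (.bi .Pe) ![x, y]
  Ps x y := s.RelMap (n := 2) (.bi .Ps) ![x, y]
  Pp x y := s.RelMap (n := 2) (.bi .Pp) ![x, y]
  PG x y := s.RelMap (n := 2) (.bi .PG) ![x, y]
  Qe x y := s.RelMap (n := 2) (.bi .Qe) ![x, y]
  Qs x y := s.RelMap (n := 2) (.bi .Qs) ![x, y]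
  Qp x y := s.RelMap (n := 2) (.bi .Qp) ![x, y]
  QG x y := s.RelMap (n := 2) (.bi .QG) ![x, y]
  D x y := s.RelMap (n := 2) (.bi .D) ![x, y]
  D1 x y := s.RelMap (n := 2) (.bi .D1) ![x, y]
  Cl x y := s.RelMap (n := 2) (.bi .Cl) ![x, y]
  Cp x y := s.RelMap (n := 2) (.bi .Cp) ![x, y]
  G x y := s.RelMap (n := 2) (.bi .G) ![x, y]
  Gp x y := s.RelMap (n := 2) (.bi .Gp) ![x, y]
  t1 c x := s.RelMap (n := 1) (.un (.inr (false, c))) ![x]
  t2 c x := s.RelMap (n := 1) (.un (.inr (true, c))) ![x]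

/-- the structure with given relations -/
def ofGR {C M : Type} (R : GR C M) : (LB (GI C) GB).Structure M where
  funMap f _ := Empty.elim f
  RelMap {r} X v := match r, X, v with
    | _, .un (.inl .N), v => R.N (v 0)
    | _, .un (.inl .P0), v => R.P false (v 0)
    | _, .un (.inl .P1), v => R.P true (v 0)
    | _, .un (.inl .K0), v => R.K false (v 0)
    | _, .un (.inl .K1), v => R.K true (v 0)
    | _, .un (.inl .Ze), v => R.Ze (v 0)
    | _, .un (.inl .La), v => R.La (v 0)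
    | _, .un (.inl .d0), v => R.d0 (v 0)
    | _, .un (.inl .d1), v => R.d1 (v 0)
    | _, .un (.inl .d2), v => R.d2 (v 0)
    | _, .un (.inl .Z2), v => R.Z2 (v 0)
    | _, .un (.inl .PL), v => R.PL (v 0)
    | _, .un (.inr (false, c)), v => R.t1 c (v 0)
    | _, .un (.inr (true, c)), v => R.t2 c (v 0)
    | _, .bi .S, v => R.S (v 0) (v 1)
    | _, .bi .L, v => R.L (v 0) (v 1)
    | _, .bi .Pe, v => R.Pe (v 0) (v 1)
    | _, .bi .Ps, v => R.Ps (v 0) (v 1)
    | _, .bi .Pp, v => R.Pp (v 0) (v 1)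
    | _, .bi .PG, v => R.PG (v 0) (v 1)
    | _, .bi .Qe, v => R.Qe (v 0) (v 1)
    | _, .bi .Qs, v => R.Qs (v 0) (v 1)
    | _, .bi .Qp, v => R.Qp (v 0) (v 1)
    | _, .bi .QG, v => R.QG (v 0) (v 1)
    | _, .bi .D, v => R.D (v 0) (v 1)
    | _, .bi .D1, v => R.D1 (v 0) (v 1)
    | _, .bi .Cl, v => R.Cl (v 0) (v 1)
    | _, .bi .Cp, v => R.Cp (v 0) (v 1)
    | _, .bi .G, v => R.G (v 0) (v 1)
    | _, .bi .Gp, v => R.Gp (v 0) (v 1)

theorem toGR_ofGR {C M : Type} (R : GR C M) : toGR (ofGR R) = R := by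
  obtain ⟨N, P, K, Ze, La, d0, d1, d2, Z2, PL, S, L, Pe, Ps, Pp, PG, Qe, Qs, Qp, QG, D, D1, Cl, Cp,
    G, Gp, t1, t2⟩ := R
  have h1 : (toGR (ofGR (⟨N, P, K, Ze, La, d0, d1, d2, Z2, PL, S, L, Pe, Ps, Pp, PG, Qe, Qs, Qp,
      QG, D, D1, Cl, Cp, G, Gp, t1, t2⟩ : GR C M))).P = P := by
    funext b x
    cases b <;> rfl
  have h2 : (toGR (ofGR (⟨N, P, K, Ze, La, d0, d1, d2, Z2, PL, S, L, Pe, Ps, Pp, PG, Qe, Qs, Qp,
      QG, D, D1, Cl, Cp, G, Gp, t1, t2⟩ : GR C M))).K = K := by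
    funext b x
    cases b <;> rfl
  rw [GR.mk.injEq]
  exact ⟨rfl, h1, h2, rfl, rfl, rfl, rfl, rfl, rfl, rfl, rfl, rfl, rfl, rfl, rfl, rfl, rfl, rfl,
    rfl, rfl, rfl, rfl, rfl, rfl, rfl, rfl, rfl, rfl⟩

section formulas

variable {T : TileSys}

/-- the variables are among `0, 1, 2` -/
theorem qfd_P {C : Type} (b : Bool) (i : Fin 3) :
    QFD (L := LB (GI C) GB) 3 (fun M s v => (toGR s).P b (v i)) := by
  cases b
  · exact QFD.un _ _
  · exact QFD.un _ _

theorem qfd_K {C : Type} (b : Bool) (i : Fin 3) :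
    QFD (L := LB (GI C) GB) 3 (fun M s v => (toGR s).K b (v i)) := by
  cases b
  · exact QFD.un _ _
  · exact QFD.un _ _

theorem qfd_Pa {C : Type} (i : Fin 3) :
    QFD (L := LB (GI C) GB) 3 (fun M s v => (toGR s).Pa (v i)) :=
  (qfd_P false i).or (qfd_P true i)

theorem qfd_AU {C : Type} :
    QFD (L := LB (GI C) GB) 3 (fun M s v => AU (toGR s) (v 0) (v 1)) := by
  refine QFD.congr ?_ (fun M s v => (AU_iff (toGR s) (v 0) (v 1)).symm)
  repeat' first
    | exact QFD.eq _ _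
    | exact qfd_P _ _
    | exact qfd_K _ _
    | exact QFD.un _ _
    | exact QFD.bi _ _ _
    | apply QFD.and
    | apply QFD.or
    | apply QFD.iff
    | apply QFD.not
    | apply QFD.imp

theorem qfd_AE {C : Type} :
    QFD (L := LB (GI C) GB) 3 (fun M s v => AE (toGR s) (v 0) (v 1) (v 2)) := by
  refine QFD.congr ?_ (fun M s v => (AE_iff (toGR s) (v 0) (v 1) (v 2)).symm)
  repeat' first
    | exact QFD.eq _ _
    | exact qfd_P _ _
    | exact qfd_K _ _
    | exact QFD.un _ _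
    | exact QFD.bi _ _ _
    | apply QFD.and
    | apply QFD.or
    | apply QFD.iff
    | apply QFD.not
    | apply QFD.imp

theorem qfd_AT (T : TileSys) :
    QFD (L := LB (GI T.C) GB) 3 (fun M s v => AT T (toGR s) (v 0) (v 1)) := by
  have := T.fin
  refine QFD.congr ?_ (fun M s v => (AT_iff T (toGR s) (v 0) (v 1)).symm)
  repeat' first
    | exact QFD.eq _ _
    | exact qfd_P _ _
    | exact qfd_K _ _
    | exact QFD.un _ _
    | exact QFD.bi _ _ _
    | exact QFD.const _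
    | apply QFD.and
    | apply QFD.or
    | apply QFD.iff
    | apply QFD.not
    | apply QFD.imp
    | (apply QFD.forall; intro _)
    | (apply QFD.exists; intro _)

end formulas

/-- the prefix `∀∀∃` -/
def wAAE : Fin 3 → Bool := ![true, true, false]

theorem QQ_AAE {M : Type} (P : (Fin 3 → M) → Prop) :
    QQ wAAE P ↔ ∀ x, ∀ y, ∃ z, P ![x, y, z] := by
  have e : ∀ x y z : M, (Fin.snoc (Fin.snoc (Fin.snoc (Fin.elim0 : Fin 0 → M) x : Fin 1 → M) y :
      Fin 2 → M) z : Fin 3 → M) = ![x, y, z] := by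
    intro x y z
    funext i
    fin_cases i <;> rfl
  simp only [← e]
  exact Iff.rfl

theorem tile_AAE (T : TileSys) :
    IsPrefSpec wAAE {N | ∃ n, 0 < n ∧ T.Sol n ∧ N = n * n + 2 * n + 2} := by
  obtain ⟨ψ, hψ, hr⟩ := (qfd_AU (C := T.C)).and ((qfd_AT T).and qfd_AE)
  have := T.fin
  refine ⟨GI T.C, GB, inferInstance, inferInstance, ψ, hψ, ?_⟩
  ext N
  constructor
  · rintro ⟨n, hn, ⟨c, hc⟩, rfl⟩
    refine ⟨by omega, EE n, ofGR (stdR n c), inferInstance, EE.card n, ?_⟩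
    rw [realize_close, QQ_AAE]
    intro x y
    have A := (std_Ax hn hc).all x y
    obtain ⟨z, hz⟩ := A.2.2
    refine ⟨z, ?_⟩
    rw [hr]
    show AU (toGR (ofGR (stdR n c))) x y ∧ AT T (toGR (ofGR (stdR n c))) x y ∧
      AE (toGR (ofGR (stdR n c))) x y z
    rw [toGR_ofGR]
    exact ⟨A.1, A.2.1, hz⟩
  · rintro ⟨h0, M, s, _, hM, h⟩
    rw [realize_close, QQ_AAE] at h
    have : Nonempty M := Fintype.card_pos_iff.1 (by rw [hM]; exact h0)
    have A : Ax T (toGR s) := by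
      refine ⟨fun x y => ?_⟩
      obtain ⟨z, hz⟩ := h x y
      rw [hr] at hz
      exact ⟨hz.1, hz.2.1, z, hz.2.2⟩
    obtain ⟨n, h1, h2, h3⟩ := A.main
    exact ⟨n, h1, h3, by rw [← hM, h2]⟩

/-- the numbers `n ^ 2 + 2 n + 2` determine `n` -/
theorem sq_inj {m n : ℕ} (h : m * m + 2 * m + 2 = n * n + 2 * n + 2) : m = n := by
  rcases lt_trichotomy m n with h1 | h1 | h1
  · nlinarith
  · exact h1
  · nlinarith

/-- **Every spectrum is, up to a polynomial substitution, the spectrum of a `∀∀∃`-sentence.** -/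
theorem spec_AAE {n : ℕ} (w : Fin n → Bool) (hw : Contains w wAAE)
    {L : FirstOrder.Language.{0, 0}} (φ : L.Sentence) :
    ∃ k, 0 < k ∧ IsPrefSpec w {N | ∃ m ∈ Spec φ, N = m ^ k * m ^ k + 2 * m ^ k + 2} := by
  obtain ⟨k, T, hk, hT⟩ := exists_tileSys φ
  refine ⟨k, hk, ?_⟩
  have hP := (tile_AAE T).embed hw
  have : {N | ∃ n, 0 < n ∧ T.Sol n ∧ N = n * n + 2 * n + 2} =
      {N | ∃ m ∈ Spec φ, N = m ^ k * m ^ k + 2 * m ^ k + 2} := by
    ext N
    constructor
    · rintro ⟨n, h1, h2, rfl⟩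
      obtain ⟨m, hm, rfl⟩ := (hT n h1).1 h2
      exact ⟨m, hm, rfl⟩
    · rintro ⟨m, hm, rfl⟩
      have h4 : 0 < m ^ k := Nat.pow_pos hm.1
      exact ⟨m ^ k, h4, (hT _ h4).2 ⟨m, hm, rfl⟩, rfl⟩
  rwa [← this]

/-- **A complete `∀∀∃`-sentence.** -/
theorem complete_AAE {n : ℕ} (w : Fin n → Bool) (hw : Contains w wAAE) :
    ∃ (I J : Type) (_ : Finite I) (_ : Finite J) (ψ : (LB I J).BoundedFormula Empty n),
      ψ.IsQF ∧
      (∀ (L : FirstOrder.Language.{0, 0}) (φ : L.Sentence), ∃ p : Polynomial ℕ,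
        ∀ m, 0 < m → (m ∈ Spec φ ↔ p.eval m ∈ Spec (close w ψ))) ∧
      ((∀ (L : FirstOrder.Language.{0, 0}) (φ : L.Sentence), IsRud (Spec φ)) ↔
        IsRud (Spec (close w ψ))) := by
  obtain ⟨φU, hU⟩ := univ_spec
  obtain ⟨k, T, hk, hT⟩ := exists_tileSys φU
  obtain ⟨I, J, hI, hJ, ψ, hψ, hA⟩ := (tile_AAE T).embed hw
  have key : ∀ N, N ^ k * N ^ k + 2 * N ^ k + 2 ∈ Spec (close w ψ) ↔ N ∈ univSet := by
    intro N
    rw [← hA, ← hU]
    constructor
    · rintro ⟨n, h1, h2, h3⟩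
      rw [← sq_inj h3] at h1 h2
      obtain ⟨m, hm, h3⟩ := (hT _ h1).1 h2
      rwa [Nat.pow_left_injective hk.ne' h3]
    · intro h
      have h4 : 0 < N ^ k := Nat.pow_pos h.1
      exact ⟨N ^ k, h4, (hT _ h4).2 ⟨N, h, rfl⟩, rfl⟩
  have hpoly : ∀ (L : FirstOrder.Language.{0, 0}) (φ : L.Sentence), ∃ p : Polynomial ℕ,
        ∀ m, 0 < m → (m ∈ Spec φ ↔ p.eval m ∈ Spec (close w ψ)) := by
    intro L φ
    obtain ⟨a, k', hk', hφ⟩ := exists_poly φ
    let q : Polynomial ℕ := (((Polynomial.X ^ k' + Polynomial.C a) *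
      (Polynomial.X ^ k' + Polynomial.C a)) + Polynomial.C a + 1) ^ k
    refine ⟨q * q + 2 * q + 2, fun m hm => ?_⟩
    rw [hφ m hm, ← key]
    have h2 : Polynomial.eval m (2 : Polynomial ℕ) = 2 := Polynomial.eval_ofNat 2 m
    simp only [q, Polynomial.eval_pow, Polynomial.eval_add, Polynomial.eval_mul,
      Polynomial.eval_X, Polynomial.eval_C, Polynomial.eval_one, h2]
  refine ⟨I, J, hI, hJ, ψ, hψ, hpoly, fun h => h _ _, fun h L φ => ?_⟩
  obtain ⟨p, hp⟩ := hpoly L φ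
  refine Rud.congr ((h.preimage p).inter isRud_pos) fun v => ?_
  show (p.eval (v 0) ∈ Spec (close w ψ) ∧ 0 < v 0) ↔ v 0 ∈ Spec φ
  constructor
  · rintro ⟨h1, h2⟩
    exact (hp _ h2).2 h1
  · intro h1
    exact ⟨(hp _ h1.1).1 h1, h1.1⟩

end Pool.Agent.V8H44.Sp
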