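import Pool.Agent.V8H44.Sp.Tile

/-!
Coding of tile systems by natural numbers.
-/

set_option autoImplicit false
set_option linter.unusedVariables false
set_option linter.unusedSimpArgs false

namespace Pool.Agent.V8H44.Sp

/-- the coding of pairs of colours -/
def pr (a b : ℕ) : ℕ := (a + b) * (a + b) + a

theorem pr_inj {a b a' b' : ℕ} (h : pr a b = pr a' b') : a = a' ∧ b = b' := by
  unfold pr at h
  have h1 : a + b = a' + b' := by
    rcases lt_trichotomy (a + b) (a' + b') with h2 | h2 | h2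
    · nlinarith
    · exact h2
    · nlinarith
  rw [h1] at h
  omega

/-- horizontal matching in the tile system number `i` -/
def HB (i a b : ℕ) : Prop := Nat.testBit i (pr a b + pr a b) = true

/-- vertical matching in the tile system number `i` -/
def VB (i a b : ℕ) : Prop := Nat.testBit i (pr a b + pr a b + 1) = true

theorem lt_of_testBit' {i j : ℕ} (h : Nat.testBit i j = true) : j < i := by
  have h1 : 2 ^ j ≤ i := Nat.ge_two_pow_of_testBit h
  exact lt_of_lt_of_le (Nat.lt_two_pow_self) h1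

theorem HB.lt {i a b : ℕ} (h : HB i a b) : pr a b + pr a b < i := lt_of_testBit' h

theorem VB.lt {i a b : ℕ} (h : VB i a b) : pr a b + pr a b + 1 < i := lt_of_testBit' h

theorem le_pr (a b : ℕ) : a + b ≤ pr a b := by
  unfold pr
  have : a + b ≤ (a + b) * (a + b) := by nlinarith [Nat.zero_le (a + b), Nat.le_mul_self (a + b)]
  omega

/-- `c` is a tiling of the square of side `n` with the tile system number `i`.  The colours of the
cells are positive numbers, and the outside of the square has the colour `0`. -/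
def TileOK (i n : ℕ) (c : ℕ → ℕ → ℕ) : Prop :=
  ∀ x < n, ∀ z < n, c x z ≠ 0 ∧ (x = 0 → HB i 0 (c x z)) ∧
    (∀ x', x' + 1 = x → HB i (c x' z) (c x z)) ∧ (x + 1 = n → HB i (c x z) 0) ∧
    (z = 0 → VB i 0 (c x z)) ∧ (∀ z', z' + 1 = z → VB i (c x z') (c x z)) ∧
    (z + 1 = n → VB i (c x z) 0)

theorem exists_number (J : Set ℕ) (hJ : J.Finite) : ∃ i, ∀ j, Nat.testBit i j = true ↔ j ∈ J := by
  induction J, hJ using Set.Finite.induction_on with
  | empty => exact ⟨0, fun j => by simp⟩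
  | @insert a s _ _ ih =>
    obtain ⟨i, hi⟩ := ih
    refine ⟨i ||| 2 ^ a, fun j => ?_⟩
    rw [Nat.testBit_or, Bool.or_eq_true, hi, Nat.testBit_two_pow]
    simp only [decide_eq_true_eq, Set.mem_insert_iff]
    constructor
    · rintro (h | h)
      · exact Or.inr h
      · exact Or.inl h.symm
    · rintro (h | h)
      · exact Or.inr h.symm
      · exact Or.inl h

/-- every tile system has a number -/
theorem exists_code (T : TileSys) : ∃ i, ∀ n, 0 < n → (T.Sol n ↔ ∃ c, TileOK i n c) := by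
  have := T.fin
  obtain ⟨r, ⟨e⟩⟩ := Finite.exists_equiv_fin T.C
  let g : T.C → ℕ := fun a => (e a : ℕ) + 1
  have hg : Function.Injective g := by
    intro a b h
    have h1 : (e a : ℕ) + 1 = e b + 1 := h
    exact e.injective (Fin.ext (by omega))
  have hg0 : ∀ a, g a ≠ 0 := fun a => Nat.succ_ne_zero _
  let J1 : Set ℕ := {j | ∃ a b, T.H a b ∧ j = pr (g a) (g b) + pr (g a) (g b)}
  let J2 : Set ℕ := {j | ∃ b, T.Lf b ∧ j = pr 0 (g b) + pr 0 (g b)}
  let J3 : Set ℕ := {j | ∃ a, T.Rt a ∧ j = pr (g a) 0 + pr (g a) 0}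
  let J4 : Set ℕ := {j | ∃ a b, T.V a b ∧ j = pr (g a) (g b) + pr (g a) (g b) + 1}
  let J5 : Set ℕ := {j | ∃ b, T.Bt b ∧ j = pr 0 (g b) + pr 0 (g b) + 1}
  let J6 : Set ℕ := {j | ∃ a, T.Tp a ∧ j = pr (g a) 0 + pr (g a) 0 + 1}
  have f2 : ∀ (R : T.C → T.C → Prop) (F : T.C → T.C → ℕ), {j | ∃ a b, R a b ∧ j = F a b}.Finite := by
    intro R F
    refine (Set.finite_range (fun p : T.C × T.C => F p.1 p.2)).subset ?_
    rintro j ⟨a, b, _, rfl⟩
    exact ⟨(a, b), rfl⟩
  have f1 : ∀ (R : T.C → Prop) (F : T.C → ℕ), {j | ∃ a, R a ∧ j = F a}.Finite := by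
    intro R F
    refine (Set.finite_range F).subset ?_
    rintro j ⟨a, _, rfl⟩
    exact ⟨a, rfl⟩
  obtain ⟨i, hi⟩ := exists_number (J1 ∪ J2 ∪ J3 ∪ J4 ∪ J5 ∪ J6)
    ((((((f2 _ _).union (f1 _ _)).union (f1 _ _)).union (f2 _ _)).union (f1 _ _)).union (f1 _ _))
  have hH : ∀ a b, (HB i a b ↔ (∃ a' b', T.H a' b' ∧ a = g a' ∧ b = g b') ∨
      (∃ b', T.Lf b' ∧ a = 0 ∧ b = g b') ∨ (∃ a', T.Rt a' ∧ a = g a' ∧ b = 0)) := by
    intro a b
    unfold HB
    rw [hi]
    constructor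
    · rintro (((((h | h) | h) | h) | h) | h)
      · obtain ⟨a', b', h1, h2⟩ := h
        have h3 : pr a b = pr (g a') (g b') := by omega
        exact Or.inl ⟨a', b', h1, (pr_inj h3).1, (pr_inj h3).2⟩
      · obtain ⟨b', h1, h2⟩ := h
        have h3 : pr a b = pr 0 (g b') := by omega
        exact Or.inr (Or.inl ⟨b', h1, (pr_inj h3).1, (pr_inj h3).2⟩)
      · obtain ⟨a', h1, h2⟩ := h
        have h3 : pr a b = pr (g a') 0 := by omega
        exact Or.inr (Or.inr ⟨a', h1, (pr_inj h3).1, (pr_inj h3).2⟩)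
      · obtain ⟨a', b', h1, h2⟩ := h
        omega
      · obtain ⟨a', h1, h2⟩ := h
        omega
      · obtain ⟨a', h1, h2⟩ := h
        omega
    · rintro (⟨a', b', h, rfl, rfl⟩ | ⟨b', h, rfl, rfl⟩ | ⟨a', h, rfl, rfl⟩)
      · exact Or.inl (Or.inl (Or.inl (Or.inl (Or.inl ⟨a', b', h, rfl⟩))))
      · exact Or.inl (Or.inl (Or.inl (Or.inl (Or.inr ⟨b', h, rfl⟩))))
      · exact Or.inl (Or.inl (Or.inl (Or.inr ⟨a', h, rfl⟩)))
  have hV : ∀ a b, (VB i a b ↔ (∃ a' b', T.V a' b' ∧ a = g a' ∧ b = g b') ∨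
      (∃ b', T.Bt b' ∧ a = 0 ∧ b = g b') ∨ (∃ a', T.Tp a' ∧ a = g a' ∧ b = 0)) := by
    intro a b
    unfold VB
    rw [hi]
    constructor
    · rintro (((((h | h) | h) | h) | h) | h)
      · obtain ⟨a', b', h1, h2⟩ := h
        omega
      · obtain ⟨a', h1, h2⟩ := h
        omega
      · obtain ⟨a', h1, h2⟩ := h
        omega
      · obtain ⟨a', b', h1, h2⟩ := h
        have h3 : pr a b = pr (g a') (g b') := by omega
        exact Or.inl ⟨a', b', h1, (pr_inj h3).1, (pr_inj h3).2⟩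
      · obtain ⟨b', h1, h2⟩ := h
        have h3 : pr a b = pr 0 (g b') := by omega
        exact Or.inr (Or.inl ⟨b', h1, (pr_inj h3).1, (pr_inj h3).2⟩)
      · obtain ⟨a', h1, h2⟩ := h
        have h3 : pr a b = pr (g a') 0 := by omega
        exact Or.inr (Or.inr ⟨a', h1, (pr_inj h3).1, (pr_inj h3).2⟩)
    · rintro (⟨a', b', h, rfl, rfl⟩ | ⟨b', h, rfl, rfl⟩ | ⟨a', h, rfl, rfl⟩)
      · exact Or.inl (Or.inl (Or.inr ⟨a', b', h, rfl⟩))
      · exact Or.inl (Or.inr ⟨b', h, rfl⟩)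
      · exact Or.inr ⟨a', h, rfl⟩
  have hHH : ∀ a b, HB i (g a) (g b) ↔ T.H a b := by
    intro a b
    rw [hH]
    constructor
    · rintro (⟨a', b', h, h1, h2⟩ | ⟨b', h, h1, h2⟩ | ⟨a', h, h1, h2⟩)
      · rwa [hg h1, hg h2]
      · exact absurd h1 (hg0 _)
      · exact absurd h2 (hg0 _)
    · intro h
      exact Or.inl ⟨a, b, h, rfl, rfl⟩
  have hHL : ∀ b, HB i 0 b ↔ ∃ b', T.Lf b' ∧ b = g b' := by
    intro b
    rw [hH]
    constructor
    · rintro (⟨a', b', h, h1, h2⟩ | ⟨b', h, h1, h2⟩ | ⟨a', h, h1, h2⟩)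
      · exact absurd h1.symm (hg0 _)
      · exact ⟨b', h, h2⟩
      · exact absurd h1.symm (hg0 _)
    · rintro ⟨b', h, rfl⟩
      exact Or.inr (Or.inl ⟨b', h, rfl, rfl⟩)
  have hHR : ∀ a, HB i (g a) 0 ↔ T.Rt a := by
    intro a
    rw [hH]
    constructor
    · rintro (⟨a', b', h, h1, h2⟩ | ⟨b', h, h1, h2⟩ | ⟨a', h, h1, h2⟩)
      · exact absurd h2.symm (hg0 _)
      · exact absurd h1 (hg0 _)
      · rwa [hg h1]
    · intro h
      exact Or.inr (Or.inr ⟨a, h, rfl, rfl⟩)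
  have hHb : ∀ a b, b ≠ 0 → HB i a b → ∃ b', b = g b' := by
    intro a b hb h
    rw [hH] at h
    rcases h with ⟨a', b', h, h1, h2⟩ | ⟨b', h, h1, h2⟩ | ⟨a', h, h1, h2⟩
    · exact ⟨b', h2⟩
    · exact ⟨b', h2⟩
    · exact absurd h2 hb
  have hVV : ∀ a b, VB i (g a) (g b) ↔ T.V a b := by
    intro a b
    rw [hV]
    constructor
    · rintro (⟨a', b', h, h1, h2⟩ | ⟨b', h, h1, h2⟩ | ⟨a', h, h1, h2⟩)
      · rwa [hg h1, hg h2]
      · exact absurd h1 (hg0 _)
      · exact absurd h2 (hg0 _)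
    · intro h
      exact Or.inl ⟨a, b, h, rfl, rfl⟩
  have hVL : ∀ b, VB i 0 (g b) ↔ T.Bt b := by
    intro b
    rw [hV]
    constructor
    · rintro (⟨a', b', h, h1, h2⟩ | ⟨b', h, h1, h2⟩ | ⟨a', h, h1, h2⟩)
      · exact absurd h1.symm (hg0 _)
      · rwa [hg h2]
      · exact absurd h1.symm (hg0 _)
    · intro h
      exact Or.inr (Or.inl ⟨b, h, rfl, rfl⟩)
  have hVR : ∀ a, VB i (g a) 0 ↔ T.Tp a := by
    intro a
    rw [hV]
    constructor
    · rintro (⟨a', b', h, h1, h2⟩ | ⟨b', h, h1, h2⟩ | ⟨a', h, h1, h2⟩)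
      · exact absurd h2.symm (hg0 _)
      · exact absurd h1 (hg0 _)
      · rwa [hg h1]
    · intro h
      exact Or.inr (Or.inr ⟨a, h, rfl, rfl⟩)
  refine ⟨i, fun n hn => ⟨?_, ?_⟩⟩
  · rintro ⟨c, hc⟩
    refine ⟨fun x z => g (c x z), fun x hx z hz => ⟨hg0 _, ?_, ?_, ?_, ?_, ?_, ?_⟩⟩
    · rintro rfl
      exact (hHL _).2 ⟨_, hc.Lf z hz, rfl⟩
    · rintro x' rfl
      exact (hHH _ _).2 (hc.H x' hx z hz)
    · intro h
      have h1 := hc.Rt z hz
      rw [show n - 1 = x by omega] at h1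
      exact (hHR _).2 h1
    · rintro rfl
      exact (hVL _).2 (hc.Bt x hx)
    · rintro z' rfl
      exact (hVV _ _).2 (hc.V x hx z' hz)
    · intro h
      have h1 := hc.Tp x hx
      rw [show n - 1 = z by omega] at h1
      exact (hVR _).2 h1
  · rintro ⟨c, hc⟩
    have hex : ∀ x z, ∃ a : T.C, (x < n → z < n → c x z = g a) := by
      have hC : Nonempty T.C := by
        have h1 := (hc 0 hn 0 hn).2.1 rfl
        obtain ⟨b', _⟩ := (hHL _).1 h1
        exact ⟨b'⟩
      intro x z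
      by_cases h : x < n ∧ z < n
      · have h1 := hc x h.1 z h.2
        rcases Nat.eq_zero_or_pos x with rfl | h2
        · obtain ⟨b', _, hb⟩ := (hHL _).1 (h1.2.1 rfl)
          exact ⟨b', fun _ _ => hb⟩
        · obtain ⟨b', hb⟩ := hHb _ _ h1.1 (h1.2.2.1 (x - 1) (by omega))
          exact ⟨b', fun _ _ => hb⟩
      · exact ⟨Classical.arbitrary _, fun h1 h2 => absurd ⟨h1, h2⟩ h⟩
    choose d hd using hex
    refine ⟨d, ?_, ?_, ?_, ?_, ?_, ?_⟩
    · intro x hx z hz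
      have h1 := (hc (x + 1) hx z hz).2.2.1 x rfl
      rw [hd x z (by omega) hz, hd (x + 1) z hx hz, hHH] at h1
      exact h1
    · intro x hx z hz
      have h1 := (hc x hx (z + 1) hz).2.2.2.2.2.1 z rfl
      rw [hd x z hx (by omega), hd x (z + 1) hx hz, hVV] at h1
      exact h1
    · intro z hz
      obtain ⟨b', hb, hb'⟩ := (hHL _).1 ((hc 0 hn z hz).2.1 rfl)
      rw [hd 0 z hn hz] at hb'
      rwa [hg hb']
    · intro z hz
      have h1 := (hc (n - 1) (by omega) z hz).2.2.2.1 (by omega)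
      rw [hd (n - 1) z (by omega) hz, hHR] at h1
      exact h1
    · intro x hx
      have h1 := (hc x hx 0 hn).2.2.2.2.1 rfl
      rw [hd x 0 hx hn, hVL] at h1
      exact h1
    · intro x hx
      have h1 := (hc x hx (n - 1) (by omega)).2.2.2.2.2.2 (by omega)
      rw [hd x (n - 1) hx (by omega), hVR] at h1
      exact h1

/-- the universal set -/
def univSet : Set ℕ :=
  {N | ∃ m i, N = m * m + i + 1 ∧ i < m ∧ ∃ c, TileOK i (m - i) c}

/-- every spectrum is the preimage of the universal set under a polynomial -/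
theorem exists_poly {L : FirstOrder.Language.{0, 0}} (φ : L.Sentence) :
    ∃ a k, 0 < k ∧ ∀ n, 0 < n → (n ∈ Spec φ ↔ (n ^ k + a) * (n ^ k + a) + a + 1 ∈ univSet) := by
  obtain ⟨k, T, hk, hT⟩ := exists_tileSys φ
  obtain ⟨i, hi⟩ := exists_code T
  refine ⟨i, k, hk, fun n hn => ?_⟩
  have hp : 0 < n ^ k := Nat.pow_pos hn
  have h1 : n ∈ Spec φ ↔ T.Sol (n ^ k) := by
    rw [hT _ hp]
    constructor
    · intro h
      exact ⟨n, h, rfl⟩
    · rintro ⟨n', hn', h⟩
      rwa [Nat.pow_left_injective hk.ne' h]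
  rw [h1, hi _ hp]
  constructor
  · intro h
    refine ⟨n ^ k + i, i, rfl, by omega, ?_⟩
    rwa [Nat.add_sub_cancel]
  · rintro ⟨m, j, h2, h3, h4⟩
    have h5 : n ^ k + i = m := by
      rcases lt_trichotomy (n ^ k + i) m with h | h | h
      · nlinarith
      · exact h
      · nlinarith
    have h6 : i = j := by
      rw [h5] at h2
      omega
    subst h6
    rw [← h5, Nat.add_sub_cancel] at h4
    exact h4

end Pool.Agent.V8H44.Sp
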