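import Mathlib

/-!
Digits of natural numbers.
-/

set_option autoImplicit false

namespace Pool.Agent.V8H44.Sp

/-- the digit number `i` of `x` in base `n` -/
def dig (n x i : ℕ) : ℕ := x / n ^ i % n

theorem dig_lt {n : ℕ} (hn : 0 < n) (x i : ℕ) : dig n x i < n := Nat.mod_lt _ hn

theorem dig_zero (n i : ℕ) : dig n 0 i = 0 := by
  unfold dig
  simp

theorem mod_succ' {n : ℕ} (hn : 0 < n) (a : ℕ) :
    (a + 1) % n = if a % n + 1 = n then 0 else a % n + 1 := by
  have h := Nat.div_add_mod a n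
  have h2 := Nat.mod_lt a hn
  split_ifs with h1
  · have : a + 1 = n * (a / n + 1) := by rw [Nat.mul_add, Nat.mul_one]; omega
    rw [this, Nat.mul_mod_right]
  · have : a + 1 = n * (a / n) + (a % n + 1) := by omega
    conv_lhs => rw [this]
    rw [Nat.mul_add_mod, Nat.mod_eq_of_lt (by omega)]

theorem dvd_succ_iff {n : ℕ} (hn : 0 < n) (a : ℕ) : n ∣ a + 1 ↔ a % n + 1 = n := by
  rw [Nat.dvd_iff_mod_eq_zero, mod_succ' hn]
  split_ifs with h
  · simp [h]
  · simp [h]

theorem carry_iff {n : ℕ} (hn : 0 < n) (x i : ℕ) :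
    (∀ j < i, dig n x j + 1 = n) ↔ n ^ i ∣ x + 1 := by
  induction i with
  | zero => simp
  | succ i ih =>
    have h1 : (∀ j < i + 1, dig n x j + 1 = n) ↔ (∀ j < i, dig n x j + 1 = n) ∧
        dig n x i + 1 = n := by
      constructor
      · intro h
        exact ⟨fun j hj => h j (by omega), h i (by omega)⟩
      · rintro ⟨h, h'⟩ j hj
        rcases Nat.lt_succ_iff_lt_or_eq.1 hj with h1 | rfl
        · exact h j h1
        · exact h'
    have hp : 0 < n ^ i := Nat.pow_pos hn
    rw [h1, ih]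
    unfold dig
    rw [← dvd_succ_iff hn]
    constructor
    · rintro ⟨h, h'⟩
      rw [pow_succ, ← Nat.dvd_div_iff_mul_dvd h, Nat.succ_div_of_dvd h]
      exact h'
    · intro h
      have h2 : n ^ i ∣ x + 1 := (pow_dvd_pow n (Nat.le_succ i)).trans h
      refine ⟨h2, ?_⟩
      rw [pow_succ, ← Nat.dvd_div_iff_mul_dvd h2, Nat.succ_div_of_dvd h2] at h
      exact h

open Classical in
theorem dig_succ {n : ℕ} (hn : 0 < n) (x i : ℕ) : dig n (x + 1) i =
    if ∀ j < i, dig n x j + 1 = n then (if dig n x i + 1 = n then 0 else dig n x i + 1)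
    else dig n x i := by
  have h1 := carry_iff hn x i
  by_cases h2 : n ^ i ∣ x + 1
  · rw [if_pos (h1.2 h2)]
    unfold dig
    rw [Nat.succ_div_of_dvd h2, mod_succ' hn]
  · rw [if_neg (fun h => h2 (h1.1 h))]
    unfold dig
    rw [Nat.succ_div_of_not_dvd h2]

theorem exists_dig {n : ℕ} (k : ℕ) (v : Fin k → Fin n) : ∃ t < n ^ k, ∀ i : Fin k,
    dig n t i = v i := by
  refine ⟨finFunctionFinEquiv v, (finFunctionFinEquiv v).2, fun i => ?_⟩
  have h := congrFun (finFunctionFinEquiv.symm_apply_apply v) i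
  have h2 := congrArg Fin.val h
  rw [← h2]
  rfl

end Pool.Agent.V8H44.Sp
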