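import Mathlib

/-!
Relational first-order formulas in finitely many variables, and the reduction of the spectrum of an
arbitrary first-order sentence to the universal validity of such a formula.
-/

set_option autoImplicit false
set_option warn.classDefReducibility false
set_option linter.unusedVariables false
set_option linter.unusedSimpArgs false

namespace Pool.Agent.V8H44.Sp

open FirstOrder

/-- first-order formulas with relation symbols `ρ` and variables `0, …, k - 1` -/
inductive Fm (ρ : Type) (ar : ρ → ℕ) (k : ℕ) : Type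
  | eq (i j : Fin k) : Fm ρ ar k
  | rel (R : ρ) (π : Fin (ar R) → Fin k) : Fm ρ ar k
  | neg (a : Fm ρ ar k) : Fm ρ ar k
  | and (a b : Fm ρ ar k) : Fm ρ ar k
  | ex (i : Fin k) (a : Fm ρ ar k) : Fm ρ ar k

variable {ρ : Type} {ar : ρ → ℕ} {k : ℕ}

/-- truth of a formula -/
def Fm.ev {M : Type} (I : ∀ R : ρ, (Fin (ar R) → M) → Prop) : Fm ρ ar k → (Fin k → M) → Prop
  | .eq i j, v => v i = v j
  | .rel R π, v => I R (fun l => v (π l))
  | .neg a, v => ¬ a.ev I v
  | .and a b, v => a.ev I v ∧ b.ev I v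
  | .ex i a, v => ∃ x, a.ev I (Function.update v i x)

/-- the sizes of the structures in which the formula is valid -/
def SpecV (θ : Fm ρ ar k) : Set ℕ :=
  {n | 0 < n ∧ ∃ I : ∀ R : ρ, (Fin (ar R) → Fin n) → Prop, ∀ v, θ.ev I v}

/-- the spectrum of a first-order sentence -/
def Spec {L : FirstOrder.Language.{0, 0}} (φ : L.Sentence) : Set ℕ :=
  {n | 0 < n ∧ ∃ (M : Type) (_ : L.Structure M) (_ : Fintype M), Fintype.card M = n ∧ φ.Realize M}

section repr

variable (L : FirstOrder.Language.{0, 0})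

/-- the relation symbols for the relations and the graphs of the functions -/
abbrev RS : Type := (Σ r, L.Functions r) ⊕ (Σ r, L.Relations r)

/-- arities -/
def arS : RS L → ℕ
  | .inl ⟨r, _⟩ => r + 1
  | .inr ⟨r, _⟩ => r

variable {L}

/-- the graph of `f` is functional -/
def Funct {M : Type} (I : ∀ R : RS L, (Fin (arS L R) → M) → Prop) (f : Σ r, L.Functions r) : Prop :=
  ∀ v : Fin f.1 → M, ∃! y : M, I (.inl f) (Fin.snoc v y : Fin (f.1 + 1) → M)

/-- the structure given by relations -/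
noncomputable def str {M : Type} [hM : Nonempty M] (I : ∀ R : RS L, (Fin (arS L R) → M) → Prop) :
    L.Structure M where
  funMap {r} f v := by
    classical
    exact if h : ∃ y : M, I (.inl ⟨r, f⟩) (Fin.snoc v y : Fin (r + 1) → M) then h.choose
      else Classical.choice hM
  RelMap {r} R v := I (.inr ⟨r, R⟩) v

theorem str_fun {M : Type} [hM : Nonempty M] (I : ∀ R : RS L, (Fin (arS L R) → M) → Prop)
    {r : ℕ} (f : L.Functions r) (hf : Funct I ⟨r, f⟩) (v : Fin r → M) (y : M) :
    (str I).funMap f v = y ↔ I (.inl ⟨r, f⟩) (Fin.snoc v y : Fin (r + 1) → M) := by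
  classical
  obtain ⟨z, hz, hu⟩ := hf v
  have h : ∃ y : M, I (.inl ⟨r, f⟩) (Fin.snoc v y : Fin (r + 1) → M) := ⟨z, hz⟩
  have h1 : (str I).funMap f v = h.choose := by
    show (if h : ∃ y : M, I (.inl ⟨r, f⟩) (Fin.snoc v y : Fin (r + 1) → M) then h.choose
      else Classical.choice hM) = _
    rw [dif_pos h]
  rw [h1]
  constructor
  · rintro rfl
    exact h.choose_spec
  · intro h2
    rw [hu _ h.choose_spec]
    exact (hu _ h2).symm

/-- the relations of a structure -/
def rels (M : Type) [L.Structure M] : ∀ R : RS L, (Fin (arS L R) → M) → Prop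
  | .inl ⟨r, f⟩, v => Language.Structure.funMap f (fun i : Fin r => v (Fin.castSucc i)) = v (Fin.last r)
  | .inr ⟨_, R⟩, v => Language.Structure.RelMap R v

theorem rels_fun {M : Type} [L.Structure M] {r : ℕ} (f : L.Functions r) (v : Fin r → M) (y : M) :
    rels (L := L) M (.inl ⟨r, f⟩) (Fin.snoc v y : Fin (r + 1) → M) ↔
      Language.Structure.funMap f v = y := by
  show Language.Structure.funMap f (fun i : Fin r => (Fin.snoc v y : Fin (r + 1) → M) (Fin.castSucc i)) =
    (Fin.snoc v y : Fin (r + 1) → M) (Fin.last r) ↔ _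
  simp only [Fin.snoc_castSucc, Fin.snoc_last]

theorem funct_rels {M : Type} [L.Structure M] (f : Σ r, L.Functions r) :
    Funct (rels (L := L) M) f := by
  obtain ⟨r, f⟩ := f
  intro v
  refine ⟨Language.Structure.funMap f v, (rels_fun f v _).2 rfl, ?_⟩
  intro y hy
  exact ((rels_fun f v _).1 hy).symm

theorem str_rels {M : Type} [Nonempty M] [s : L.Structure M] : str (rels (L := L) M) = s := by
  refine FirstOrder.Language.Structure.ext ?_ ?_
  · funext r f v
    exact (str_fun _ f (funct_rels _) v _).2 ((rels_fun f v _).2 rfl)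
  · rfl

/-- representable predicates -/
def Repr (P : ∀ (M : Type) (_ : L.Structure M), (ℕ → M) → Prop) : Prop :=
  ∃ (Fs : List (Σ r, L.Functions r)) (k0 : ℕ), ∀ k, k0 ≤ k → ∃ θ : Fm (RS L) (arS L) k,
    ∀ (M : Type) [Nonempty M] (I : ∀ R : RS L, (Fin (arS L R) → M) → Prop),
      (∀ f ∈ Fs, Funct I f) → ∀ v : ℕ → M, θ.ev I (fun i => v i) ↔ P M (str I) v

theorem Repr.eq (i j : ℕ) : Repr (L := L) (fun _ _ v => v i = v j) := by
  refine ⟨[], max i j + 1, fun k hk => ⟨.eq ⟨i, by omega⟩ ⟨j, by omega⟩, ?_⟩⟩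
  intro M _ I _ v
  rfl

theorem Repr.neg {P : ∀ (M : Type) (_ : L.Structure M), (ℕ → M) → Prop} (h : Repr P) :
    Repr (fun M s v => ¬ P M s v) := by
  obtain ⟨Fs, k0, h⟩ := h
  refine ⟨Fs, k0, fun k hk => ?_⟩
  obtain ⟨θ, hθ⟩ := h k hk
  refine ⟨.neg θ, ?_⟩
  intro M _ I hI v
  exact not_congr (hθ M I hI v)

theorem Repr.and {P Q : ∀ (M : Type) (_ : L.Structure M), (ℕ → M) → Prop} (h : Repr P)
    (h' : Repr Q) : Repr (fun M s v => P M s v ∧ Q M s v) := by
  obtain ⟨Fs, k0, h⟩ := h
  obtain ⟨Fs', k0', h'⟩ := h'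
  refine ⟨Fs ++ Fs', max k0 k0', fun k hk => ?_⟩
  obtain ⟨θ, hθ⟩ := h k (by omega)
  obtain ⟨θ', hθ'⟩ := h' k (by omega)
  refine ⟨.and θ θ', ?_⟩
  intro M _ I hI v
  exact and_congr (hθ M I (fun f hf => hI f (List.mem_append_left _ hf)) v)
    (hθ' M I (fun f hf => hI f (List.mem_append_right _ hf)) v)

theorem Repr.ex {P : ∀ (M : Type) (_ : L.Structure M), (ℕ → M) → Prop} (h : Repr P) (i : ℕ) :
    Repr (fun M s v => ∃ x, P M s (Function.update v i x)) := by
  obtain ⟨Fs, k0, h⟩ := h
  refine ⟨Fs, max k0 (i + 1), fun k hk => ?_⟩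
  obtain ⟨θ, hθ⟩ := h k (by omega)
  refine ⟨.ex ⟨i, by omega⟩ θ, ?_⟩
  intro M _ I hI v
  refine exists_congr fun x => ?_
  rw [← hθ M I hI]
  have : (fun j : Fin k => Function.update v i x j) =
      Function.update (fun j : Fin k => v j) ⟨i, by omega⟩ x := by
    funext j
    by_cases hj : (j : ℕ) = i
    · have h2 : j = ⟨i, by omega⟩ := Fin.ext hj
      rw [h2]
      simp
    · have : j ≠ ⟨i, by omega⟩ := fun h => hj (congrArg Fin.val h)
      rw [Function.update_of_ne this, Function.update_of_ne hj]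
  rw [this]

theorem Repr.congr {P Q : ∀ (M : Type) (_ : L.Structure M), (ℕ → M) → Prop} (h : Repr P)
    (e : ∀ M s v, P M s v ↔ Q M s v) : Repr Q := by
  have : P = Q := by
    funext M s v
    exact propext (e M s v)
  rwa [← this]

theorem Repr.true : Repr (L := L) (fun _ _ _ => True) :=
  (Repr.eq 0 0).congr fun _ _ _ => by simp

theorem Repr.imp {P Q : ∀ (M : Type) (_ : L.Structure M), (ℕ → M) → Prop} (h : Repr P)
    (h' : Repr Q) : Repr (fun M s v => P M s v → Q M s v) :=
  ((h.and h'.neg).neg).congr fun _ _ _ => by tauto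

theorem Repr.all {P : ∀ (M : Type) (_ : L.Structure M), (ℕ → M) → Prop} (h : Repr P) (i : ℕ) :
    Repr (fun M s v => ∀ x, P M s (Function.update v i x)) :=
  ((h.neg.ex i).neg).congr fun _ _ _ => by
    constructor
    · intro h x
      by_contra hx
      exact h ⟨x, hx⟩
    · rintro h ⟨x, hx⟩
      exact hx (h x)

/-- override the values of `N, …, N + r - 1` -/
def ovr {M : Type} (v : ℕ → M) (N : ℕ) {r : ℕ} (a : Fin r → M) : ℕ → M := fun i =>
  if h : N ≤ i ∧ i < N + r then a ⟨i - N, by omega⟩ else v i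

theorem ovr_snoc {M : Type} (v : ℕ → M) (N : ℕ) {r : ℕ} (a : Fin (r + 1) → M) :
    ovr v N a = Function.update (ovr v N (fun i : Fin r => a (Fin.castSucc i))) (N + r)
      (a (Fin.last r)) := by
  funext i
  unfold ovr
  by_cases hi : i = N + r
  · subst hi
    rw [Function.update_self, dif_pos (by omega)]
    congr 1
    apply Fin.ext
    simp
  · rw [Function.update_of_ne hi]
    by_cases h : N ≤ i ∧ i < N + r
    · rw [dif_pos (by omega), dif_pos h]
      congr 1
    · rw [dif_neg (by omega), dif_neg h]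

theorem Repr.exs {P : ∀ (M : Type) (_ : L.Structure M), (ℕ → M) → Prop} (h : Repr P) (N r : ℕ) :
    Repr (fun M s v => ∃ a : Fin r → M, P M s (ovr v N a)) := by
  induction r generalizing P with
  | zero =>
    refine h.congr fun M s v => ?_
    have : ∀ a : Fin 0 → M, ovr v N a = v := by
      intro a
      funext i
      unfold ovr
      rw [dif_neg (by omega)]
    constructor
    · intro h
      exact ⟨Fin.elim0, by rwa [this]⟩
    · rintro ⟨a, ha⟩
      rwa [this] at ha
  | succ r ih =>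
    refine (ih (h.ex (N + r))).congr fun M s v => ?_
    constructor
    · rintro ⟨a, x, hx⟩
      refine ⟨Fin.snoc a x, ?_⟩
      rw [ovr_snoc]
      simpa using hx
    · rintro ⟨a, ha⟩
      rw [ovr_snoc] at ha
      exact ⟨fun i => a (Fin.castSucc i), a (Fin.last r), ha⟩

theorem Repr.iforall {P : ℕ → ∀ (M : Type) (_ : L.Structure M), (ℕ → M) → Prop} (r : ℕ)
    (h : ∀ i < r, Repr (P i)) : Repr (fun M s v => ∀ i < r, P i M s v) := by
  induction r with
  | zero => exact Repr.true.congr fun _ _ _ => by simp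
  | succ r ih =>
    refine ((ih fun i hi => h i (by omega)).and (h r (by omega))).congr fun M s v => ?_
    constructor
    · rintro ⟨h1, h2⟩ i hi
      rcases Nat.lt_succ_iff_lt_or_eq.1 hi with h | rfl
      · exact h1 i h
      · exact h2
    · intro h
      exact ⟨fun i hi => h i (by omega), h r (by omega)⟩

theorem Repr.relAtom {r : ℕ} (R : L.Relations r) (N : ℕ) :
    Repr (L := L) (fun M s v => s.RelMap R (fun i : Fin r => v (N + i))) := by
  refine ⟨[], N + r, fun k hk => ⟨.rel (.inr ⟨r, R⟩) (fun i : Fin r => ⟨N + i, by omega⟩), ?_⟩⟩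
  intro M _ I _ v
  rfl

theorem Repr.funAtom {r : ℕ} (f : L.Functions r) (N y : ℕ) :
    Repr (L := L) (fun M s v => s.funMap f (fun i : Fin r => v (N + i)) = v y) := by
  refine ⟨[⟨r, f⟩], N + r + y + 1, fun k hk => ⟨.rel (.inl ⟨r, f⟩)
    (Fin.snoc (fun i : Fin r => (⟨N + i, by omega⟩ : Fin k)) (⟨y, by omega⟩ : Fin k)), ?_⟩⟩
  intro M _ I hI v
  refine Iff.trans ?_ (str_fun I f (hI _ (List.mem_singleton.2 rfl)) _ _).symm
  show I (.inl ⟨r, f⟩) _ ↔ _
  have : (fun l : Fin (r + 1) => v ((Fin.snoc (fun i : Fin r => (⟨N + i, by omega⟩ : Fin k))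
      (⟨y, by omega⟩ : Fin k) : Fin (r + 1) → Fin k) l : Fin k)) =
      (Fin.snoc (fun i : Fin r => v (N + i)) (v y) : Fin (r + 1) → M) := by
    funext l
    refine Fin.lastCases ?_ (fun l => ?_) l
    · rw [Fin.snoc_last, Fin.snoc_last]
    · rw [Fin.snoc_castSucc, Fin.snoc_castSucc]
  rw [← this]
  rfl

/-- a term has a bound on its variables -/
theorem term_bound (t : L.Term ℕ) : ∃ N, ∀ (M : Type) (_ : L.Structure M) (v v' : ℕ → M),
    (∀ i < N, v i = v' i) → t.realize v = t.realize v' := by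
  induction t with
  | var i => exact ⟨i + 1, fun M _ v v' h => h i (Nat.lt_succ_self i)⟩
  | func f ts ih =>
    choose N hN using ih
    refine ⟨∑ i, N i, fun M _ v v' h => ?_⟩
    simp only [Language.Term.realize]
    congr 1
    funext i
    refine hN i M _ v v' fun j hj => h j ?_
    exact lt_of_lt_of_le hj (Finset.single_le_sum (f := N) (fun _ _ => Nat.zero_le _)
      (Finset.mem_univ i))

theorem ovr_lt {M : Type} (v : ℕ → M) (N : ℕ) {r : ℕ} (a : Fin r → M) {i : ℕ} (h : i < N) :
    ovr v N a i = v i := by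
  unfold ovr
  rw [dif_neg (by omega)]

theorem ovr_add {M : Type} (v : ℕ → M) (N : ℕ) {r : ℕ} (a : Fin r → M) (i : Fin r) :
    ovr v N a (N + i) = a i := by
  unfold ovr
  rw [dif_pos (by omega)]
  congr 1
  apply Fin.ext
  simp

theorem bound_all {r : ℕ} (ts : Fin r → L.Term ℕ) (m : ℕ) : ∃ N, m ≤ N ∧ ∀ (i : Fin r) (M : Type)
    (_ : L.Structure M) (v v' : ℕ → M), (∀ j < N, v j = v' j) →
    (ts i).realize v = (ts i).realize v' := by
  choose N hN using fun i => term_bound (ts i)
  refine ⟨m + ∑ i, N i, by omega, fun i M _ v v' h => hN i M _ v v' fun j hj => h j ?_⟩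
  have := Finset.single_le_sum (f := N) (fun _ _ => Nat.zero_le _) (Finset.mem_univ i)
  omega

theorem Repr.term (t : L.Term ℕ) : ∀ y, Repr (L := L) (fun M _ v => t.realize v = v y) := by
  induction t with
  | var i => exact fun y => Repr.eq i y
  | @func r f ts ih =>
    intro y
    obtain ⟨N, hy, hN⟩ := bound_all ts (y + 1)
    have h1 : Repr (L := L) (fun M s v => (∀ i < r, ∀ h : i < r,
        (ts ⟨i, h⟩).realize v = v (N + i)) ∧ s.funMap f (fun i : Fin r => v (N + i)) = v y) := by
      refine Repr.and (Repr.iforall r fun i hi => ?_) (Repr.funAtom f N y)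
      refine (ih ⟨i, hi⟩ (N + i)).congr fun M s v => ?_
      exact ⟨fun h _ => h, fun h => h hi⟩
    refine (h1.exs N r).congr fun M s v => ?_
    constructor
    · rintro ⟨a, ha, hb⟩
      have h2 : ∀ i : Fin r, (ts i).realize v = a i := by
        intro i
        have := ha i i.2 i.2
        rw [ovr_add v N a i] at this
        rw [← this]
        exact hN i M s _ _ fun j hj => (ovr_lt v N a hj).symm
      simp only [ovr_add] at hb
      rw [ovr_lt v N a (by omega)] at hb
      simp only [Language.Term.realize]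
      rw [← hb]
      congr 1
      funext i
      exact h2 i
    · intro h
      refine ⟨fun i => (ts i).realize v, ?_, ?_⟩
      · intro i hi _
        rw [ovr_add v N (fun i => (ts i).realize v) ⟨i, hi⟩]
        exact hN ⟨i, hi⟩ M s _ _ fun j hj => ovr_lt v N _ hj
      · simp only [ovr_add]
        rw [ovr_lt v N _ (by omega)]
        exact h

/-- the variables of a bounded formula as natural numbers -/
def tr {n : ℕ} (t : L.Term (Empty ⊕ Fin n)) : L.Term ℕ :=
  t.relabel (Sum.elim Empty.elim Fin.val)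

theorem tr_realize {n : ℕ} (t : L.Term (Empty ⊕ Fin n)) {M : Type} [L.Structure M] (v : ℕ → M)
    (e : Empty → M) : (tr t).realize v = t.realize (Sum.elim e (fun i : Fin n => v i)) := by
  unfold tr
  rw [Language.Term.realize_relabel]
  congr 1
  funext x
  rcases x with x | x
  · exact x.elim
  · rfl

theorem Repr.formula {n : ℕ} (φ : L.BoundedFormula Empty n) :
    Repr (L := L) (fun M _ v => φ.Realize (default : Empty → M) (fun i : Fin n => v i)) := by
  induction φ with
  | falsum => exact Repr.true.neg.congr fun _ _ _ => by simp [Language.BoundedFormula.Realize]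
  | @equal n t1 t2 =>
    obtain ⟨N, hy, hN⟩ := bound_all ![tr t1, tr t2] 0
    refine (((Repr.term (tr t1) N).and (Repr.term (tr t2) N)).exs N 1).congr fun M s v => ?_
    have e1 : ∀ a : Fin 1 → M, (tr t1).realize (ovr v N a) = (tr t1).realize v := fun a =>
      hN 0 M s _ _ fun j hj => ovr_lt v N a hj
    have e2 : ∀ a : Fin 1 → M, (tr t2).realize (ovr v N a) = (tr t2).realize v := fun a =>
      hN 1 M s _ _ fun j hj => ovr_lt v N a hj
    have e3 : ∀ a : Fin 1 → M, ovr v N a N = a 0 := fun a => by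
      simpa using ovr_add v N a 0
    simp only [Language.BoundedFormula.Realize, ← tr_realize]
    constructor
    · rintro ⟨a, h1, h2⟩
      rw [e1, e3] at h1
      rw [e2, e3] at h2
      rw [h1, h2]
    · intro h
      refine ⟨fun _ => (tr t1).realize v, ?_, ?_⟩
      · rw [e1, e3]
      · rw [e2, e3, h]
  | @rel n r R ts =>
    obtain ⟨N, hy, hN⟩ := bound_all (fun i => tr (ts i)) 0
    have h1 : Repr (L := L) (fun M s v => (∀ i < r, ∀ h : i < r,
        (tr (ts ⟨i, h⟩)).realize v = v (N + i)) ∧ s.RelMap R (fun i : Fin r => v (N + i))) := by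
      refine Repr.and (Repr.iforall r fun i hi => ?_) (Repr.relAtom R N)
      refine (Repr.term (tr (ts ⟨i, hi⟩)) (N + i)).congr fun M s v => ?_
      exact ⟨fun h _ => h, fun h => h hi⟩
    refine (h1.exs N r).congr fun M s v => ?_
    simp only [Language.BoundedFormula.Realize, ← tr_realize]
    constructor
    · rintro ⟨a, ha, hb⟩
      have h2 : ∀ i : Fin r, (tr (ts i)).realize v = a i := by
        intro i
        have := ha i i.2 i.2
        rw [ovr_add v N a i] at this
        rw [← this]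
        exact hN i M s _ _ fun j hj => (ovr_lt v N a hj).symm
      simp only [ovr_add] at hb
      convert hb using 1
      funext i
      exact h2 i
    · intro h
      refine ⟨fun i => (tr (ts i)).realize v, ?_, ?_⟩
      · intro i hi _
        rw [ovr_add v N (fun i => (tr (ts i)).realize v) ⟨i, hi⟩]
        exact hN ⟨i, hi⟩ M s _ _ fun j hj => ovr_lt v N _ hj
      · simp only [ovr_add]
        exact h
  | imp _ _ ih1 ih2 =>
    exact (ih1.imp ih2).congr fun M s v => by simp [Language.BoundedFormula.Realize]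
  | @all n φ ih =>
    refine (ih.all n).congr fun M s v => ?_
    simp only [Language.BoundedFormula.Realize]
    refine forall_congr' fun x => ?_
    have : (fun i : Fin (n + 1) => Function.update v n x i) =
        (Fin.snoc (fun i : Fin n => v i) x : Fin (n + 1) → M) := by
      funext i
      refine Fin.lastCases ?_ (fun i => ?_) i
      · simp
      · have : ((Fin.castSucc i : Fin (n + 1)) : ℕ) ≠ n := by
          have := i.2
          simp only [Fin.val_castSucc]
          omega
        rw [Function.update_of_ne this, Fin.snoc_castSucc]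
        rfl
    rw [this]

/-- the graph of `f` is functional, as a formula -/
theorem exists_funct (f : Σ r, L.Functions r) {k : ℕ} (hk : f.1 + 2 ≤ k) :
    ∃ θ : Fm (RS L) (arS L) k, ∀ (M : Type) [Nonempty M]
      (I : ∀ R : RS L, (Fin (arS L R) → M) → Prop), (∀ v, θ.ev I v) ↔ Funct I f := by
  obtain ⟨r, f⟩ := f
  change r + 2 ≤ k at hk
  let p1 : Fin (r + 1) → Fin k := fun l => ⟨l, by omega⟩
  let p2 : Fin (r + 1) → Fin k := Fin.snoc (fun l : Fin r => ⟨l, by omega⟩) ⟨r + 1, by omega⟩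
  refine ⟨.and (.ex ⟨r, by omega⟩ (.rel (.inl ⟨r, f⟩) p1))
    (.neg (.and (.and (.rel (.inl ⟨r, f⟩) p1) (.rel (.inl ⟨r, f⟩) p2))
      (.neg (.eq ⟨r, by omega⟩ ⟨r + 1, by omega⟩)))), ?_⟩
  intro M _ I
  have e1 : ∀ v : Fin k → M, (fun l => v (p1 l)) =
      (Fin.snoc (fun l : Fin r => v ⟨l, by omega⟩) (v ⟨r, by omega⟩) : Fin (r + 1) → M) := by
    intro v
    funext l
    refine Fin.lastCases ?_ (fun l => ?_) l
    · rw [Fin.snoc_last]
      rfl
    · rw [Fin.snoc_castSucc]
      rfl
  have e2 : ∀ v : Fin k → M, (fun l => v (p2 l)) =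
      (Fin.snoc (fun l : Fin r => v ⟨l, by omega⟩) (v ⟨r + 1, by omega⟩) : Fin (r + 1) → M) := by
    intro v
    funext l
    refine Fin.lastCases ?_ (fun l => ?_) l
    · show v ((Fin.snoc (fun l : Fin r => ⟨l, by omega⟩) ⟨r + 1, by omega⟩ : Fin (r + 1) → Fin k)
        (Fin.last r)) = _
      rw [Fin.snoc_last, Fin.snoc_last]
    · show v ((Fin.snoc (fun l : Fin r => ⟨l, by omega⟩) ⟨r + 1, by omega⟩ : Fin (r + 1) → Fin k)
        (Fin.castSucc l)) = _
      rw [Fin.snoc_castSucc, Fin.snoc_castSucc]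
  have key : ∀ v : Fin k → M, (Fm.and (.ex ⟨r, by omega⟩ (.rel (.inl ⟨r, f⟩) p1))
    (.neg (.and (.and (.rel (.inl ⟨r, f⟩) p1) (.rel (.inl ⟨r, f⟩) p2))
      (.neg (.eq ⟨r, by omega⟩ ⟨r + 1, by omega⟩))))).ev I v ↔
      (∃ x, I (.inl ⟨r, f⟩) (Fin.snoc (fun l : Fin r => v ⟨l, by omega⟩) x : Fin (r + 1) → M)) ∧
      ¬ ((I (.inl ⟨r, f⟩) (Fin.snoc (fun l : Fin r => v ⟨l, by omega⟩) (v ⟨r, by omega⟩) :
        Fin (r + 1) → M) ∧ I (.inl ⟨r, f⟩) (Fin.snoc (fun l : Fin r => v ⟨l, by omega⟩)
        (v ⟨r + 1, by omega⟩) : Fin (r + 1) → M)) ∧ ¬ v ⟨r, by omega⟩ = v ⟨r + 1, by omega⟩) := by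
    intro v
    have a1 : ∀ v : Fin k → M, I (.inl ⟨r, f⟩) (fun l => v (p1 l)) ↔ I (.inl ⟨r, f⟩)
        (Fin.snoc (fun l : Fin r => v ⟨l, by omega⟩) (v ⟨r, by omega⟩) : Fin (r + 1) → M) :=
      fun v => iff_of_eq (congrArg (I (.inl ⟨r, f⟩)) (e1 v))
    have a2 : ∀ v : Fin k → M, I (.inl ⟨r, f⟩) (fun l => v (p2 l)) ↔ I (.inl ⟨r, f⟩)
        (Fin.snoc (fun l : Fin r => v ⟨l, by omega⟩) (v ⟨r + 1, by omega⟩) : Fin (r + 1) → M) :=
      fun v => iff_of_eq (congrArg (I (.inl ⟨r, f⟩)) (e2 v))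
    simp only [Fm.ev]
    refine and_congr (exists_congr fun x => ?_) ?_
    · refine (a1 _).trans ?_
      have h1 : (fun l : Fin r => Function.update v ⟨r, by omega⟩ x ⟨l, by omega⟩) =
          fun l : Fin r => v ⟨l, by omega⟩ := by
        funext l
        rw [Function.update_of_ne]
        intro h
        have := congrArg Fin.val h
        simp only at this
        omega
      rw [h1, Function.update_self]
    · exact not_congr (and_congr (and_congr (a1 v) (a2 v)) Iff.rfl)
  constructor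
  · intro h w
    change Fin r → M at w
    let v : M → M → Fin k → M := fun x y l =>
      if h : (l : ℕ) < r then w ⟨l, h⟩ else if (l : ℕ) = r then x else y
    have hv : ∀ x y, (fun l : Fin r => v x y ⟨l, by omega⟩) = w := by
      intro x y
      funext l
      simp [v]
    have hv1 : ∀ x y, v x y ⟨r, by omega⟩ = x := by
      intro x y
      simp [v]
    have hv2 : ∀ x y, v x y ⟨r + 1, by omega⟩ = y := by
      intro x y
      simp [v]
    obtain ⟨x, hx⟩ := ((key _).1 (h (v (Classical.arbitrary M) (Classical.arbitrary M)))).1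
    rw [hv] at hx
    refine ⟨x, hx, ?_⟩
    intro y hy
    have h2 := ((key _).1 (h (v x y))).2
    rw [hv, hv1, hv2] at h2
    by_contra hne
    exact h2 ⟨⟨hx, hy⟩, fun h => hne h.symm⟩
  · intro h v
    rw [key]
    refine ⟨(h _).exists, ?_⟩
    rintro ⟨⟨h1, h2⟩, h3⟩
    exact h3 ((h _).unique h1 h2)

theorem exists_functs {k : ℕ} (Fs : List (Σ r, L.Functions r)) (hk : ∀ f ∈ Fs, f.1 + 2 ≤ k)
    (θ0 : Fm (RS L) (arS L) k) :
    ∃ θ : Fm (RS L) (arS L) k, ∀ (M : Type) [Nonempty M]
      (I : ∀ R : RS L, (Fin (arS L R) → M) → Prop),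
      (∀ v, θ.ev I v) ↔ (∀ v, θ0.ev I v) ∧ ∀ f ∈ Fs, Funct I f := by
  induction Fs with
  | nil => exact ⟨θ0, fun M _ I => by simp⟩
  | cons f Fs ih =>
    obtain ⟨θ1, h1⟩ := ih fun g hg => hk g (List.mem_cons_of_mem _ hg)
    obtain ⟨θ2, h2⟩ := exists_funct f (hk f List.mem_cons_self)
    refine ⟨.and θ2 θ1, fun M _ I => ?_⟩
    simp only [Fm.ev, forall_and, h1 M I, h2 M I, List.mem_cons, forall_eq_or_imp]
    tauto

theorem real0 (φ : L.Sentence) (M : Type) (s : L.Structure M) (xs : Fin 0 → M) :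
    Language.BoundedFormula.Realize φ (default : Empty → M) xs ↔ Language.Sentence.Realize M φ := by
  have : xs = default := Subsingleton.elim _ _
  rw [this]
  rfl

/-- **Reduction to relational formulas.** -/
theorem exists_specV (φ : L.Sentence) : ∃ (k : ℕ) (θ : Fm (RS L) (arS L) k), 0 < k ∧
    Spec φ = SpecV θ := by
  obtain ⟨Fs, k0, h⟩ := Repr.formula (n := 0) φ
  have hK : ∃ K, ∀ f ∈ Fs, f.1 + 2 ≤ K := by
    clear h
    induction Fs with
    | nil => exact ⟨0, fun f hf => absurd hf List.not_mem_nil⟩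
    | cons g Fs ih =>
      obtain ⟨K, hK⟩ := ih
      refine ⟨K + g.1 + 2, ?_⟩
      intro f hf
      rcases List.mem_cons.1 hf with rfl | hf
      · omega
      · have := hK f hf
        omega
  obtain ⟨K, hK⟩ := hK
  obtain ⟨θ0, hθ0⟩ := h (k0 + K + 1) (by omega)
  obtain ⟨θ, hθ⟩ := exists_functs (k := k0 + K + 1) Fs
    (fun f hf => by have := hK f hf; omega) θ0
  refine ⟨k0 + K + 1, θ, by omega, ?_⟩
  have ext : ∀ (M : Type) [Nonempty M] (v : Fin (k0 + K + 1) → M), ∃ w : ℕ → M,
      v = fun i : Fin (k0 + K + 1) => w i := by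
    intro M _ v
    refine ⟨fun i => if h : i < k0 + K + 1 then v ⟨i, h⟩ else Classical.arbitrary M, ?_⟩
    funext i
    show v i = if h : (i : ℕ) < k0 + K + 1 then v ⟨i, h⟩ else Classical.arbitrary M
    rw [dif_pos i.2]
  ext n
  constructor
  · rintro ⟨hn, M, s, _, hM, hφ⟩
    refine ⟨hn, ?_⟩
    let e : M ≃ Fin n := Fintype.equivFinOfCardEq hM
    let _ : L.Structure (Fin n) := e.inducedStructure
    have hφ' : φ.Realize (Fin n) := by
      exact (Language.StrongHomClass.realize_sentence (e.inducedStructureEquiv (L := L)) φ).1 hφ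
    have _ : Nonempty (Fin n) := ⟨⟨0, hn⟩⟩
    refine ⟨rels (L := L) (Fin n), ?_⟩
    refine (hθ (Fin n) (rels (L := L) (Fin n))).2 ⟨?_, fun f _ => funct_rels f⟩
    intro v
    obtain ⟨w, rfl⟩ := ext (Fin n) v
    rw [hθ0 (Fin n) _ (fun f _ => funct_rels f), str_rels]
    exact (real0 φ (Fin n) _ _).2 hφ'
  · rintro ⟨hn, I, hI⟩
    refine ⟨hn, ?_⟩
    have _ : Nonempty (Fin n) := ⟨⟨0, hn⟩⟩
    obtain ⟨h1, h2⟩ := (hθ (Fin n) I).1 hI
    refine ⟨Fin n, str I, inferInstance, by simp, ?_⟩
    have h3 := (hθ0 (Fin n) I h2 (fun _ => ⟨0, hn⟩)).1 (h1 _)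
    exact (real0 φ (Fin n) _ _).1 h3

end repr

end Pool.Agent.V8H44.Sp
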