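import Pool.Agent.V8H44.Sp.Fm
import Pool.Agent.V8H44.Sp.Dig

/-!
Local systems: colourings of an interval and of a square with local constraints.  For every formula
`θ` with `k` variables there is a local system which has a solution of size `N` if and only if
`N = n ^ k` for some `n` such that `θ` is valid in some structure with `n` elements.
-/

set_option autoImplicit false
set_option linter.unusedVariables false
set_option linter.unusedSimpArgs false

namespace Pool.Agent.V8H44.Sp

/-- A local system. -/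
structure LocSys where
  /-- colours of points -/
  U : Type
  /-- colours of pairs -/
  B : Type
  finU : Finite U
  finB : Finite B
  /-- the colours of the first point -/
  fst : U → Prop
  /-- the colours of the last point -/
  lst : U → Prop
  /-- the constraint for the pairs -/
  cell : U → U → B → Prop
  /-- the constraint for the diagonal -/
  diag : U → B → Prop
  /-- the constraint for the steps in the first coordinate -/
  stepH : U → U → U → B → B → Prop
  /-- the constraint for the steps in the second coordinate -/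
  stepV : U → U → U → B → B → Prop

/-- solutions of size `N` -/
structure LocSys.IsSol (S : LocSys) (N : ℕ) (u : ℕ → S.U) (b : ℕ → ℕ → S.B) : Prop where
  fst : ∀ x < N, (S.fst (u x) ↔ x = 0)
  lst : ∀ x < N, (S.lst (u x) ↔ x + 1 = N)
  cell : ∀ x < N, ∀ z < N, S.cell (u x) (u z) (b x z)
  diag : ∀ x < N, S.diag (u x) (b x x)
  stepH : ∀ x, x + 1 < N → ∀ z < N, S.stepH (u x) (u (x + 1)) (u z) (b x z) (b (x + 1) z)
  stepV : ∀ x, x + 1 < N → ∀ z < N, S.stepV (u z) (u x) (u (x + 1)) (b z x) (b z (x + 1))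

/-- there is a solution of size `N` -/
def LocSys.Sol (S : LocSys) (N : ℕ) : Prop := ∃ u b, S.IsSol N u b

variable {ρ : Type} {ar : ρ → ℕ} {k : ℕ}

/-- the subformulas -/
def subs : Fm ρ ar k → Set (Fm ρ ar k)
  | .eq i j => {.eq i j}
  | .rel R π => {.rel R π}
  | .neg a => insert (.neg a) (subs a)
  | .and a b => insert (.and a b) (subs a ∪ subs b)
  | .ex i a => insert (.ex i a) (subs a)

theorem subs_finite (θ : Fm ρ ar k) : (subs θ).Finite := by
  induction θ with
  | eq i j => exact Set.finite_singleton _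
  | rel R π => exact Set.finite_singleton _
  | neg a ih => exact ih.insert _
  | and a b ih1 ih2 => exact (ih1.union ih2).insert _
  | ex i a ih => exact ih.insert _

theorem self_subs (θ : Fm ρ ar k) : θ ∈ subs θ := by
  cases θ <;> simp [subs]

theorem subs_neg {θ a : Fm ρ ar k} (h : Fm.neg a ∈ subs θ) : a ∈ subs θ := by
  induction θ with
  | eq i j => simp [subs] at h
  | rel R π => simp [subs] at h
  | neg c ih =>
    simp only [subs, Set.mem_insert_iff] at h ⊢
    rcases h with h | h
    · cases h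
      exact Or.inr (self_subs _)
    · exact Or.inr (ih h)
  | and c d ih1 ih2 =>
    simp only [subs, Set.mem_insert_iff, Set.mem_union] at h ⊢
    rcases h with h | h | h
    · cases h
    · exact Or.inr (Or.inl (ih1 h))
    · exact Or.inr (Or.inr (ih2 h))
  | ex i c ih =>
    simp only [subs, Set.mem_insert_iff] at h ⊢
    rcases h with h | h
    · cases h
    · exact Or.inr (ih h)

theorem subs_and {θ a b : Fm ρ ar k} (h : Fm.and a b ∈ subs θ) : a ∈ subs θ ∧ b ∈ subs θ := by
  induction θ with
  | eq i j => simp [subs] at h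
  | rel R π => simp [subs] at h
  | neg c ih =>
    simp only [subs, Set.mem_insert_iff] at h ⊢
    rcases h with h | h
    · cases h
    · exact ⟨Or.inr (ih h).1, Or.inr (ih h).2⟩
  | and c d ih1 ih2 =>
    simp only [subs, Set.mem_insert_iff, Set.mem_union] at h ⊢
    rcases h with h | h | h
    · cases h
      exact ⟨Or.inr (Or.inl (self_subs _)), Or.inr (Or.inr (self_subs _))⟩
    · exact ⟨Or.inr (Or.inl (ih1 h).1), Or.inr (Or.inl (ih1 h).2)⟩
    · exact ⟨Or.inr (Or.inr (ih2 h).1), Or.inr (Or.inr (ih2 h).2)⟩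
  | ex i c ih =>
    simp only [subs, Set.mem_insert_iff] at h ⊢
    rcases h with h | h
    · cases h
    · exact ⟨Or.inr (ih h).1, Or.inr (ih h).2⟩

theorem subs_ex {θ a : Fm ρ ar k} {i : Fin k} (h : Fm.ex i a ∈ subs θ) : a ∈ subs θ := by
  induction θ with
  | eq i j => simp [subs] at h
  | rel R π => simp [subs] at h
  | neg c ih =>
    simp only [subs, Set.mem_insert_iff] at h ⊢
    rcases h with h | h
    · cases h
    · exact Or.inr (ih h)
  | and c d ih1 ih2 =>
    simp only [subs, Set.mem_insert_iff, Set.mem_union] at h ⊢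
    rcases h with h | h | h
    · cases h
    · exact Or.inr (Or.inl (ih1 h))
    · exact Or.inr (Or.inr (ih2 h))
  | ex i c ih =>
    simp only [subs, Set.mem_insert_iff] at h ⊢
    rcases h with h | h
    · cases h
      exact Or.inr (self_subs _)
    · exact Or.inr (ih h)

/-- the colours of points: origin, zero digits, maximal digits, truth values -/
abbrev UC (θ : Fm ρ ar k) : Type :=
  Prop × (Fin k → Prop) × (Fin k → Prop) × (↥(subs θ) → Prop)

/-- the colours of pairs: equality of digits, shifted equality of digits, scanning -/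
abbrev BC (θ : Fm ρ ar k) : Type :=
  (Fin k → Fin k → Prop) × (Fin k → Fin k → Prop) × (↥(subs θ) → Prop)

section acc

variable {θ : Fm ρ ar k}

/-- origin -/
def UC.O (u : UC θ) : Prop := u.1
/-- zero digits -/
def UC.Z (u : UC θ) (i : Fin k) : Prop := u.2.1 i
/-- maximal digits -/
def UC.Mx (u : UC θ) (i : Fin k) : Prop := u.2.2.1 i
/-- truth values -/
def UC.P (u : UC θ) (η : Fm ρ ar k) : Prop := ∃ h : η ∈ subs θ, u.2.2.2 ⟨η, h⟩
/-- carry -/
def UC.C (u : UC θ) (i : Fin k) : Prop := ∀ j < i, UC.Mx u j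
/-- equality of digits -/
def BC.E (b : BC θ) (i j : Fin k) : Prop := b.1 i j
/-- shifted equality of digits -/
def BC.F (b : BC θ) (i j : Fin k) : Prop := b.2.1 i j
/-- scanning -/
def BC.W (b : BC θ) (η : Fm ρ ar k) : Prop := ∃ h : η ∈ subs θ, b.2.2 ⟨η, h⟩
/-- all digits but one agree -/
def BC.G (b : BC θ) (i : Fin k) : Prop := ∀ j, j ≠ i → BC.E b j j

end acc

/-- the cell constraint -/
structure CellC (θ : Fm ρ ar k) (u u' : UC θ) (b : BC θ) : Prop where
  c1 : u.O → ∀ i, u.Z i
  c2 : ∀ i j, u.Z i → (b.E i j ↔ u'.Z j)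
  c3 : ∀ i j, u'.Z j → (b.E i j ↔ u.Z i)
  c5 : ∀ i j, u'.Mx j → (b.E i j ↔ u.Mx i)
  c6 : ∀ (R : ρ) (π π' : Fin (ar R) → Fin k), Fm.rel R π ∈ subs θ → Fm.rel R π' ∈ subs θ →
    (∀ l, b.E (π l) (π' l)) → (u.P (.rel R π) ↔ u'.P (.rel R π'))
  c7 : ∀ a, Fm.neg a ∈ subs θ → (u.P (.neg a) ↔ ¬ u.P a)
  c7' : ∀ a c, Fm.and a c ∈ subs θ → (u.P (.and a c) ↔ u.P a ∧ u.P c)
  c8 : u.P θ
  c9 : ∀ i η, Fm.ex i η ∈ subs θ → u'.O → (b.W (.ex i η) ↔ b.G i ∧ u'.P η)
  c10 : ∀ i η, Fm.ex i η ∈ subs θ → (∀ j, u'.Mx j) → (b.W (.ex i η) ↔ u.P (.ex i η))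

/-- the constraint for horizontal steps -/
structure StepHC (θ : Fm ρ ar k) (ux uy uz : UC θ) (bx bY : BC θ) : Prop where
  h1 : ∀ i j, ¬ ux.C i → (bY.E i j ↔ bx.E i j)
  h2 : ∀ i j, bx.F i j ↔ bY.E i j
  h3 : ∀ i, ¬ ux.C i → (uy.Z i ↔ ux.Z i)
  h4 : ∀ i, ux.C i → (uy.Z i ↔ ux.Mx i)

/-- the constraint for vertical steps -/
structure StepVC (θ : Fm ρ ar k) (uz ux uy : UC θ) (bx bY : BC θ) : Prop where
  v1 : ∀ i j, ¬ ux.C j → (bY.E i j ↔ bx.E i j)
  v2 : ∀ i j, uz.C i → ¬ uz.Mx i → ux.C j → ¬ ux.Mx j → (bY.F i j ↔ bx.E i j)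
  v3 : ∀ i η, Fm.ex i η ∈ subs θ → (bY.W (.ex i η) ↔ bx.W (.ex i η) ∨ (bY.G i ∧ uy.P η))

/-- the local system of a formula -/
def locOf (θ : Fm ρ ar k) : LocSys where
  U := UC θ
  B := BC θ
  finU := by
    have := (subs_finite θ).to_subtype
    infer_instance
  finB := by
    have := (subs_finite θ).to_subtype
    infer_instance
  fst u := u.O
  lst u := ∀ i, u.Mx i
  cell := CellC θ
  diag u b := ∀ i j, Fm.eq i j ∈ subs θ → (u.P (.eq i j) ↔ b.E i j)
  stepH := StepHC θ
  stepV := StepVC θ

section forward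

variable {θ : Fm ρ ar k}

open Classical in
/-- the digits of the points in a solution -/
noncomputable def dd (u : ℕ → UC θ) : ℕ → Fin k → ℕ
  | 0, _ => 0
  | x + 1, i => if (u x).C i then (if (u x).Mx i then 0 else dd u x i + 1) else dd u x i

theorem dd_succ_not (u : ℕ → UC θ) {x : ℕ} {i : Fin k} (h : ¬ (u x).C i) :
    dd u (x + 1) i = dd u x i := by
  classical
  show (if (u x).C i then (if (u x).Mx i then 0 else dd u x i + 1) else dd u x i) = _
  rw [if_neg h]

theorem dd_succ_max (u : ℕ → UC θ) {x : ℕ} {i : Fin k} (h : (u x).C i) (h' : (u x).Mx i) :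
    dd u (x + 1) i = 0 := by
  classical
  show (if (u x).C i then (if (u x).Mx i then 0 else dd u x i + 1) else dd u x i) = _
  rw [if_pos h, if_pos h']

theorem dd_succ_inc (u : ℕ → UC θ) {x : ℕ} {i : Fin k} (h : (u x).C i) (h' : ¬ (u x).Mx i) :
    dd u (x + 1) i = dd u x i + 1 := by
  classical
  show (if (u x).C i then (if (u x).Mx i then 0 else dd u x i + 1) else dd u x i) = _
  rw [if_pos h, if_neg h']

variable {N : ℕ} {u : ℕ → UC θ} {b : ℕ → ℕ → BC θ}

theorem zero_iff (hs : (locOf θ).IsSol N u b) : ∀ x < N, ∀ i, ((u x).Z i ↔ dd u x i = 0) := by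
  intro x
  induction x with
  | zero =>
    intro hx i
    have h1 : (u 0).O := (hs.fst 0 hx).2 rfl
    exact iff_of_true ((hs.cell 0 hx 0 hx).c1 h1 i) rfl
  | succ x ih =>
    intro hx i
    have h := hs.stepH x hx 0 (by omega)
    by_cases hC : (u x).C i
    · rw [h.h4 i hC]
      by_cases hM : (u x).Mx i
      · exact iff_of_true hM (dd_succ_max u hC hM)
      · refine iff_of_false hM ?_
        rw [dd_succ_inc u hC hM]
        omega
    · rw [h.h3 i hC, dd_succ_not u hC]
      exact ih (by omega) i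

theorem E_iff (hs : (locOf θ).IsSol N u b) : ∀ m x z, x + z ≤ m → x < N → z < N →
    ∀ i j, ((b x z).E i j ↔ dd u x i = dd u z j) := by
  intro m
  induction m with
  | zero =>
    intro x z hm hx hz i j
    obtain rfl : x = 0 := by omega
    obtain rfl : z = 0 := by omega
    have h := (hs.cell 0 hx 0 hz).c2 i j ((zero_iff hs 0 hx i).2 rfl)
    rw [h, zero_iff hs 0 hz j]
    exact iff_of_true rfl rfl
  | succ m ih =>
    intro x z hm hx hz i j
    rcases Nat.eq_zero_or_pos x with rfl | hx0
    · have h := (hs.cell 0 hx z hz).c2 i j ((zero_iff hs 0 hx i).2 rfl)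
      rw [h, zero_iff hs z hz j]
      exact eq_comm
    rcases Nat.eq_zero_or_pos z with rfl | hz0
    · have h := (hs.cell x hx 0 hz).c3 i j ((zero_iff hs 0 hz j).2 rfl)
      rw [h, zero_iff hs x hx i]
      rfl
    obtain ⟨x, rfl⟩ : ∃ x', x = x' + 1 := ⟨x - 1, by omega⟩
    obtain ⟨z, rfl⟩ : ∃ z', z = z' + 1 := ⟨z - 1, by omega⟩
    by_cases hCx : (u x).C i
    · by_cases hCz : (u z).C j
      · by_cases hMx : (u x).Mx i
        · have h1 : (u (x + 1)).Z i := ((hs.stepH x hx 0 (by omega)).h4 i hCx).2 hMx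
          rw [(hs.cell (x + 1) hx (z + 1) hz).c2 i j h1, zero_iff hs (z + 1) hz j,
            dd_succ_max u hCx hMx]
          exact eq_comm
        · by_cases hMz : (u z).Mx j
          · have h1 : (u (z + 1)).Z j := ((hs.stepH z hz 0 (by omega)).h4 j hCz).2 hMz
            rw [(hs.cell (x + 1) hx (z + 1) hz).c3 i j h1, zero_iff hs (x + 1) hx i,
              dd_succ_max u hCz hMz]
          · have h1 := (hs.stepH x hx (z + 1) hz).h2 i j
            have h2 := (hs.stepV z hz x (by omega)).v2 i j hCx hMx hCz hMz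
            rw [← h1, h2, ih x z (by omega) (by omega) (by omega) i j, dd_succ_inc u hCx hMx,
              dd_succ_inc u hCz hMz]
            omega
      · have h1 := (hs.stepV z hz (x + 1) hx).v1 i j hCz
        rw [h1, ih (x + 1) z (by omega) hx (by omega) i j, dd_succ_not u hCz]
    · have h1 := (hs.stepH x hx (z + 1) hz).h1 i j hCx
      rw [h1, ih x (z + 1) (by omega) (by omega) hz i j, dd_succ_not u hCx]

theorem forward (hk : 0 < k) (hN : 0 < N) (hs : (locOf θ).IsSol N u b) :
    ∃ n ∈ SpecV θ, N = n ^ k := by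
  have hE : ∀ x < N, ∀ z < N, ∀ i j, ((b x z).E i j ↔ dd u x i = dd u z j) :=
    fun x hx z hz i j => E_iff hs (x + z) x z le_rfl hx hz i j
  have hlast : ∀ i, (u (N - 1)).Mx i := (hs.lst (N - 1) (by omega)).2 (by omega)
  let i0 : Fin k := ⟨0, hk⟩
  obtain ⟨m, hm⟩ : ∃ m, m = dd u (N - 1) i0 := ⟨_, rfl⟩
  have hM : ∀ x < N, ∀ i, ((u x).Mx i ↔ dd u x i = m) := by
    intro x hx i
    rw [← (hs.cell x hx (N - 1) (by omega)).c5 i i0 (hlast i0), hE x hx (N - 1) (by omega), hm]
  have hn : 0 < m + 1 := Nat.succ_pos m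
  have hd : ∀ x < N, ∀ i, dd u x i = dig (m + 1) x i := by
    intro x
    induction x with
    | zero =>
      intro _ i
      rw [dig_zero]
      rfl
    | succ x ih =>
      intro hx i
      have ih' := ih (by omega)
      have hC : (u x).C i ↔ ∀ j < (i : ℕ), dig (m + 1) x j + 1 = m + 1 := by
        constructor
        · intro h j hj
          have h1 := (hM x (by omega) ⟨j, hj.trans i.2⟩).1 (h ⟨j, hj.trans i.2⟩ hj)
          rw [ih'] at h1
          exact congrArg (· + 1) h1
        · intro h j hj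
          have h1 := h j hj
          refine (hM x (by omega) j).2 ?_
          rw [ih' j]
          omega
      have hM' : (u x).Mx i ↔ dig (m + 1) x i + 1 = m + 1 := by
        rw [hM x (by omega) i, ih' i]
        omega
      rw [dig_succ hn]
      by_cases h1 : (u x).C i
      · rw [if_pos (hC.1 h1)]
        by_cases h2 : (u x).Mx i
        · rw [if_pos (hM'.1 h2), dd_succ_max u h1 h2]
        · rw [if_neg (fun h => h2 (hM'.2 h)), dd_succ_inc u h1 h2, ih' i]
      · rw [if_neg (fun h => h1 (hC.2 h)), dd_succ_not u h1, ih' i]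
  have hall : ∀ x < N, ((∀ i, (u x).Mx i) ↔ (m + 1) ^ k ∣ x + 1) := by
    intro x hx
    rw [← carry_iff hn x k]
    constructor
    · intro h j hj
      have := (hM x hx ⟨j, hj⟩).1 (h ⟨j, hj⟩)
      rw [hd x hx] at this
      exact congrArg (· + 1) this
    · intro h i
      have := h i i.2
      refine (hM x hx i).2 ?_
      rw [hd x hx i]
      omega
  have hNk : N = (m + 1) ^ k := by
    have h1 : (m + 1) ^ k ∣ N := by
      have := (hall (N - 1) (by omega)).1 hlast
      rwa [show N - 1 + 1 = N by omega] at this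
    have h2 := Nat.le_of_dvd hN h1
    rcases Nat.lt_or_ge ((m + 1) ^ k) N with h3 | h3
    · exfalso
      have h4 : 0 < (m + 1) ^ k := Nat.pow_pos hn
      have h5 : (m + 1) ^ k - 1 < N := by omega
      have h6 : ∀ i, (u ((m + 1) ^ k - 1)).Mx i :=
        (hall _ h5).2 (by rw [show (m + 1) ^ k - 1 + 1 = (m + 1) ^ k by omega])
      have h7 := (hs.lst _ h5).1 h6
      omega
    · omega
  refine ⟨m + 1, ⟨hn, ?_⟩, hNk⟩
  -- the digits as elements of `Fin (m + 1)`
  let D : ℕ → Fin k → Fin (m + 1) := fun x i => ⟨dig (m + 1) x i, dig_lt hn x i⟩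
  have hED : ∀ x < N, ∀ z < N, ∀ i j, ((b x z).E i j ↔ D x i = D z j) := by
    intro x hx z hz i j
    rw [hE x hx z hz, hd x hx, hd z hz, Fin.ext_iff]
  have hsurj : ∀ v : Fin k → Fin (m + 1), ∃ t < N, D t = v := by
    intro v
    obtain ⟨t, ht, h⟩ := exists_dig k v
    refine ⟨t, by rw [hNk]; exact ht, ?_⟩
    funext i
    exact Fin.ext (h i)
  let I : ∀ R : ρ, (Fin (ar R) → Fin (m + 1)) → Prop := fun R a =>
    ∃ π : Fin (ar R) → Fin k, Fm.rel R π ∈ subs θ ∧ ∃ x < N, (∀ l, D x (π l) = a l) ∧
      (u x).P (.rel R π)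
  have main : ∀ η : Fm ρ ar k, η ∈ subs θ → ∀ x < N, ((u x).P η ↔ η.ev I (D x)) := by
    intro η
    induction η with
    | eq i j =>
      intro hη x hx
      rw [(hs.diag x hx) i j hη, hED x hx x hx]
      rfl
    | rel R π =>
      intro hη x hx
      constructor
      · intro h
        exact ⟨π, hη, x, hx, fun _ => rfl, h⟩
      · rintro ⟨π', hπ', z, hz, h1, h2⟩
        refine ((hs.cell x hx z hz).c6 R π π' hη hπ' fun l => ?_).2 h2
        rw [hED x hx z hz]
        exact (h1 l).symm
    | neg a ih =>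
      intro hη x hx
      rw [(hs.cell x hx x hx).c7 a hη, ih (subs_neg hη) x hx]
      rfl
    | and a c ih1 ih2 =>
      intro hη x hx
      rw [(hs.cell x hx x hx).c7' a c hη, ih1 (subs_and hη).1 x hx, ih2 (subs_and hη).2 x hx]
      rfl
    | ex i η ih =>
      intro hη x hx
      have hG : ∀ z < N, ((b x z).G i ↔ ∀ j, j ≠ i → D x j = D z j) := by
        intro z hz
        exact forall_congr' fun j => imp_congr Iff.rfl (hED x hx z hz j j)
      have hW : ∀ z < N, ((b x z).W (.ex i η) ↔ ∃ t ≤ z, (b x t).G i ∧ (u t).P η) := by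
        intro z
        induction z with
        | zero =>
          intro hz
          rw [(hs.cell x hx 0 hz).c9 i η hη ((hs.fst 0 hz).2 rfl)]
          constructor
          · intro h
            exact ⟨0, le_rfl, h⟩
          · rintro ⟨t, ht, h⟩
            obtain rfl : t = 0 := by omega
            exact h
        | succ z ihz =>
          intro hz
          rw [(hs.stepV z hz x hx).v3 i η hη, ihz (by omega)]
          constructor
          · rintro (⟨t, ht, h⟩ | h)
            · exact ⟨t, by omega, h⟩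
            · exact ⟨z + 1, le_rfl, h⟩
          · rintro ⟨t, ht, h⟩
            rcases Nat.lt_or_ge t (z + 1) with h1 | h1
            · exact Or.inl ⟨t, by omega, h⟩
            · obtain rfl : t = z + 1 := by omega
              exact Or.inr h
      rw [← (hs.cell x hx (N - 1) (by omega)).c10 i η hη hlast, hW (N - 1) (by omega)]
      constructor
      · rintro ⟨t, ht, h1, h2⟩
        have ht' : t < N := by omega
        refine ⟨D t i, ?_⟩
        have h3 : Function.update (D x) i (D t i) = D t := by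
          funext j
          by_cases hj : j = i
          · subst hj
            simp
          · rw [Function.update_of_ne hj]
            exact (hG t ht').1 h1 j hj
        rw [h3]
        exact (ih (subs_ex hη) t ht').1 h2
      · rintro ⟨a, ha⟩
        obtain ⟨t, ht, h⟩ := hsurj (Function.update (D x) i a)
        refine ⟨t, by omega, (hG t ht).2 ?_, ?_⟩
        · intro j hj
          rw [h, Function.update_of_ne hj]
        · refine (ih (subs_ex hη) t ht).2 ?_
          rw [h]
          exact ha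
  refine ⟨I, fun v => ?_⟩
  obtain ⟨t, ht, rfl⟩ := hsurj v
  exact (main θ (self_subs θ) t ht).1 (hs.cell t ht t ht).c8

end forward

section backward

theorem backward {θ : Fm ρ ar k} {n : ℕ} (hn : n ∈ SpecV θ) : (locOf θ).Sol (n ^ k) := by
  classical
  obtain ⟨hn, I, hI⟩ := hn
  let D : ℕ → Fin k → Fin n := fun x i => ⟨dig n x i, dig_lt hn x i⟩
  have hD : ∀ x z i j, (D x i = D z j ↔ dig n x i = dig n z j) := fun x z i j => Fin.ext_iff
  have hsurj : ∀ v : Fin k → Fin n, ∃ t < n ^ k, D t = v := by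
    intro v
    obtain ⟨t, ht, h⟩ := exists_dig k v
    refine ⟨t, ht, ?_⟩
    funext i
    exact Fin.ext (h i)
  let G : ℕ → ℕ → Fin k → Prop := fun x t i => ∀ j, j ≠ i → dig n x j = dig n t j
  let u : ℕ → UC θ := fun x =>
    (x = 0, fun i => dig n x i = 0, fun i => dig n x i + 1 = n, fun η => η.1.ev I (D x))
  let W : ℕ → ℕ → Fm ρ ar k → Prop := fun x z η => match η with
    | .ex i η => ∃ t ≤ z, G x t i ∧ η.ev I (D t)
    | _ => True
  let b : ℕ → ℕ → BC θ := fun x z =>
    (fun i j => dig n x i = dig n z j, fun i j => dig n (x + 1) i = dig n z j,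
      fun η => W x z η.1)
  have hP : ∀ x η, η ∈ subs θ → ((u x).P η ↔ η.ev I (D x)) := by
    intro x η hη
    exact ⟨fun h => h.2, fun h => ⟨hη, h⟩⟩
  have hW : ∀ x z i η, Fm.ex i η ∈ subs θ → ((b x z).W (.ex i η) ↔
      ∃ t ≤ z, G x t i ∧ η.ev I (D t)) := by
    intro x z i η hη
    exact ⟨fun h => h.2, fun h => ⟨hη, h⟩⟩
  have hC : ∀ x i, ((u x).C i ↔ ∀ j < (i : ℕ), dig n x j + 1 = n) := by
    intro x i
    constructor
    · intro h j hj
      exact h ⟨j, hj.trans i.2⟩ hj
    · intro h j hj
      exact h j hj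
  have hM : ∀ x i, ((u x).Mx i ↔ dig n x i + 1 = n) := fun x i => Iff.rfl
  have hZ : ∀ x i, ((u x).Z i ↔ dig n x i = 0) := fun x i => Iff.rfl
  have hE : ∀ x z i j, ((b x z).E i j ↔ dig n x i = dig n z j) := fun x z i j => Iff.rfl
  have hF : ∀ x z i j, ((b x z).F i j ↔ dig n (x + 1) i = dig n z j) := fun x z i j => Iff.rfl
  have hall : ∀ x < n ^ k, ((∀ i : Fin k, dig n x i + 1 = n) ↔ x + 1 = n ^ k) := by
    intro x hx
    have h1 : (∀ i : Fin k, dig n x i + 1 = n) ↔ ∀ j < k, dig n x j + 1 = n :=
      ⟨fun h j hj => h ⟨j, hj⟩, fun h i => h i i.2⟩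
    rw [h1, carry_iff hn x k]
    constructor
    · intro h
      have := Nat.le_of_dvd (Nat.succ_pos x) h
      omega
    · intro h
      rw [h]
  refine ⟨u, b, ?_, ?_, ?_, ?_, ?_, ?_⟩
  · intro x _
    exact Iff.rfl
  · intro x hx
    exact hall x hx
  · intro x hx z hz
    refine ⟨?_, ?_, ?_, ?_, ?_, ?_, ?_, ?_, ?_, ?_⟩
    · intro h i
      have h : x = 0 := h
      subst h
      exact dig_zero n i
    · intro i j h
      rw [hZ] at h
      rw [hE, hZ, h]
      exact eq_comm
    · intro i j h
      rw [hZ] at h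
      rw [hE, hZ, h]
    · intro i j h
      rw [hM] at h
      rw [hE, hM]
      omega
    · intro R π π' h1 h2 h
      rw [hP x _ h1, hP z _ h2]
      have : (fun l => D x (π l)) = fun l => D z (π' l) := by
        funext l
        exact (hD x z _ _).2 (h l)
      show I R (fun l => D x (π l)) ↔ I R (fun l => D z (π' l))
      rw [this]
    · intro a ha
      rw [hP x _ ha, hP x _ (subs_neg ha)]
      rfl
    · intro a c ha
      rw [hP x _ ha, hP x _ (subs_and ha).1, hP x _ (subs_and ha).2]
      rfl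
    · exact (hP x θ (self_subs θ)).2 (hI _)
    · intro i η hη h0
      have h0 : z = 0 := h0
      subst h0
      rw [hW _ _ _ _ hη, hP 0 _ (subs_ex hη)]
      constructor
      · rintro ⟨t, ht, h⟩
        obtain rfl : t = 0 := by omega
        exact h
      · intro h
        exact ⟨0, le_rfl, h⟩
    · intro i η hη h0
      have h1 : z + 1 = n ^ k := (hall z hz).1 h0
      rw [hW _ _ _ _ hη, hP x _ hη]
      constructor
      · rintro ⟨t, ht, h2, h3⟩
        refine ⟨D t i, ?_⟩
        have h4 : Function.update (D x) i (D t i) = D t := by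
          funext j
          by_cases hj : j = i
          · subst hj
            simp
          · rw [Function.update_of_ne hj]
            exact (hD x t j j).2 (h2 j hj)
        rw [h4]
        exact h3
      · rintro ⟨a, ha⟩
        obtain ⟨t, ht, h⟩ := hsurj (Function.update (D x) i a)
        refine ⟨t, by omega, ?_, ?_⟩
        · intro j hj
          have h5 := congrFun h j
          rw [Function.update_of_ne hj] at h5
          exact (hD x t j j).1 h5.symm
        · rw [h]
          exact ha
  · intro x hx i j hη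
    rw [hP x _ hη, hE]
    exact hD x x i j
  · intro x hx z hz
    refine ⟨?_, ?_, ?_, ?_⟩
    · intro i j h
      rw [hC] at h
      rw [hE, hE, dig_succ hn, if_neg h]
    · intro i j
      exact Iff.rfl
    · intro i h
      rw [hC] at h
      rw [hZ, hZ, dig_succ hn, if_neg h]
    · intro i h
      rw [hC] at h
      rw [hZ, hM, dig_succ hn, if_pos h]
      split_ifs with h1
      · simp [h1]
      · simp [h1]
  · intro x hx z hz
    refine ⟨?_, ?_, ?_⟩
    · intro i j h
      rw [hC] at h
      rw [hE, hE, dig_succ hn x j, if_neg h]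
    · intro i j h1 h2 h3 h4
      rw [hC] at h1 h3
      rw [hM] at h2 h4
      rw [hF, hE, dig_succ hn z i, dig_succ hn x j, if_pos h1, if_pos h3, if_neg h2, if_neg h4]
      omega
    · intro i η hη
      rw [hW _ _ _ _ hη, hW _ _ _ _ hη, hP _ _ (subs_ex hη)]
      constructor
      · rintro ⟨t, ht, h⟩
        rcases Nat.lt_or_ge t (x + 1) with h1 | h1
        · exact Or.inl ⟨t, by omega, h⟩
        · obtain rfl : t = x + 1 := by omega
          exact Or.inr h
      · rintro (⟨t, ht, h⟩ | h)
        · exact ⟨t, by omega, h⟩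
        · exact ⟨x + 1, le_rfl, h⟩

end backward

/-- **The local system of a formula.** -/
theorem locOf_iff (θ : Fm ρ ar k) (hk : 0 < k) {N : ℕ} (hN : 0 < N) :
    (locOf θ).Sol N ↔ ∃ n ∈ SpecV θ, N = n ^ k := by
  constructor
  · rintro ⟨u, b, hs⟩
    exact forward hk hN hs
  · rintro ⟨n, hn, rfl⟩
    exact backward hn

end Pool.Agent.V8H44.Sp
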