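import Pool.Agent.V8H44.Sp.Tile

/-!
Quantifier prefixes and quantifier-free formulas.
-/

set_option autoImplicit false
set_option linter.unusedVariables false
set_option linter.unusedSimpArgs false

namespace Pool.Agent.V8H44.Sp

open FirstOrder

/-- A quantifier prefix is a function `w : Fin n → Bool`; `w i = true` means that the quantifier
number `i` (the outermost has number `0`) is universal.  `close w φ` is the sentence
`Q₀ x₀ … Q_{n-1} x_{n-1} φ`. -/
def close {L : FirstOrder.Language.{0, 0}} : {n : ℕ} → (Fin n → Bool) → L.BoundedFormula Empty n → L.Sentence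
  | 0, _, φ => φ
  | n + 1, w, φ => close (fun i : Fin n => w (Fin.castSucc i))
      (if w (Fin.last n) then φ.all else φ.ex)

/-- the semantics of a quantifier prefix -/
def QQ {M : Type} : {n : ℕ} → (Fin n → Bool) → ((Fin n → M) → Prop) → Prop
  | 0, _, P => P Fin.elim0
  | n + 1, w, P => QQ (fun i : Fin n => w (Fin.castSucc i))
      (fun v => if w (Fin.last n) then ∀ a, P (Fin.snoc v a) else ∃ a, P (Fin.snoc v a))

theorem realize_close {L : FirstOrder.Language.{0, 0}} {n : ℕ} (w : Fin n → Bool)
    (φ : L.BoundedFormula Empty n) (M : Type) [L.Structure M] :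
    Language.Sentence.Realize M (close w φ) ↔ QQ w (fun v : Fin n → M => φ.Realize default v) := by
  induction n with
  | zero =>
    show Language.BoundedFormula.Realize φ default default ↔ φ.Realize default Fin.elim0
    have : (default : Fin 0 → M) = Fin.elim0 := Subsingleton.elim _ _
    rw [this]
  | succ n ih =>
    show Language.Sentence.Realize M (close (fun i : Fin n => w (Fin.castSucc i))
      (if w (Fin.last n) then φ.all else φ.ex)) ↔ QQ (fun i : Fin n => w (Fin.castSucc i))
      (fun v => if w (Fin.last n) then ∀ a, φ.Realize default (Fin.snoc v a)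
        else ∃ a, φ.Realize default (Fin.snoc v a))
    rw [ih]
    have : (fun v : Fin n → M => (if w (Fin.last n) then φ.all else φ.ex).Realize default v) =
        fun v => if w (Fin.last n) then ∀ a, φ.Realize default (Fin.snoc v a)
        else ∃ a, φ.Realize default (Fin.snoc v a) := by
      funext v
      split_ifs
      · rfl
      · exact propext Language.BoundedFormula.realize_ex
    rw [this]

theorem QQ_congr {M : Type} {n : ℕ} (w : Fin n → Bool) {P Q : (Fin n → M) → Prop}
    (h : ∀ v, P v ↔ Q v) : QQ w P ↔ QQ w Q := by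
  have : P = Q := funext fun v => propext (h v)
  rw [this]

/-- a prefix contains another one -/
def Contains {m n : ℕ} (w : Fin n → Bool) (u : Fin m → Bool) : Prop :=
  ∃ e : Fin m → Fin n, StrictMono e ∧ ∀ i, w (e i) = u i

theorem QQ_embed {M : Type} [Nonempty M] {m n : ℕ} (w : Fin n → Bool) (u : Fin m → Bool)
    (e : Fin m → Fin n) (he : StrictMono e) (h : ∀ i, w (e i) = u i) (P : (Fin m → M) → Prop) :
    QQ w (fun v => P (fun i => v (e i))) ↔ QQ u P := by
  induction n generalizing m with
  | zero =>
    have hm : m = 0 := by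
      rcases Nat.eq_zero_or_pos m with h | h
      · exact h
      · exact (e ⟨0, h⟩).elim0
    subst hm
    show P _ ↔ P _
    have : (fun i => Fin.elim0 (e i) : Fin 0 → M) = Fin.elim0 := Subsingleton.elim _ _
    rw [this]
  | succ n ih =>
    by_cases hl : ∃ i, e i = Fin.last n
    · obtain ⟨i, hi⟩ := hl
      obtain ⟨m, rfl⟩ : ∃ m', m = m' + 1 := ⟨m - 1, by have := i.2; omega⟩
      have hi' : i = Fin.last m := by
        by_contra hne
        have h1 := he (Fin.lt_last_iff_ne_last.2 hne)
        rw [hi] at h1
        exact absurd (Fin.le_last (e (Fin.last m))) (not_le.2 h1)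
      subst hi'
      have hlt : ∀ j : Fin m, ((e (Fin.castSucc j) : Fin (n + 1)) : ℕ) < n := by
        intro j
        have h1 : e (Fin.castSucc j) < e (Fin.last m) := he (Fin.castSucc_lt_last j)
        rw [hi] at h1
        exact h1
      let e' : Fin m → Fin n := fun j => ⟨e (Fin.castSucc j), hlt j⟩
      have he' : StrictMono e' := by
        intro a b hab
        exact he (Fin.castSucc_lt_castSucc_iff.2 hab)
      have hc : ∀ j, Fin.castSucc (e' j) = e (Fin.castSucc j) := fun j => Fin.ext rfl
      show QQ (fun i : Fin n => w (Fin.castSucc i)) _ ↔ QQ (fun i : Fin m => u (Fin.castSucc i)) _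
      rw [← ih (fun i : Fin n => w (Fin.castSucc i)) (fun i : Fin m => u (Fin.castSucc i)) e' he'
        (fun j => by rw [hc]; exact h _)]
      refine QQ_congr _ fun v => ?_
      have hs : ∀ a : M, (fun i => (Fin.snoc v a : Fin (n + 1) → M) (e i)) =
          (Fin.snoc (fun j => v (e' j)) a : Fin (m + 1) → M) := by
        intro a
        funext j
        refine Fin.lastCases ?_ (fun j => ?_) j
        · rw [hi, Fin.snoc_last, Fin.snoc_last]
        · rw [← hc, Fin.snoc_castSucc, Fin.snoc_castSucc]
      have hw : w (Fin.last n) = u (Fin.last m) := by rw [← hi, h]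
      simp only [hs, hw]
    · push Not at hl
      have hlt : ∀ j, ((e j : Fin (n + 1)) : ℕ) < n := by
        intro j
        have := Fin.lt_last_iff_ne_last.2 (hl j)
        exact this
      let e' : Fin m → Fin n := fun j => ⟨e j, hlt j⟩
      have he' : StrictMono e' := fun a b hab => he hab
      have hc : ∀ j, Fin.castSucc (e' j) = e j := fun j => Fin.ext rfl
      show QQ (fun i : Fin n => w (Fin.castSucc i)) _ ↔ _
      rw [← ih (fun i : Fin n => w (Fin.castSucc i)) u e' he' (fun j => by rw [hc]; exact h _) P]
      refine QQ_congr _ fun v => ?_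
      have hs : ∀ a : M, (fun i => (Fin.snoc v a : Fin (n + 1) → M) (e i)) =
          (fun j => v (e' j)) := by
        intro a
        funext j
        rw [← hc, Fin.snoc_castSucc]
      simp only [hs, forall_const, exists_const, ite_self]

section qf

variable {L : FirstOrder.Language.{0, 0}}

/-- predicates defined by quantifier-free formulas -/
def QFD (n : ℕ) (P : ∀ (M : Type) (_ : L.Structure M), (Fin n → M) → Prop) : Prop :=
  ∃ ψ : L.BoundedFormula Empty n, ψ.IsQF ∧ ∀ (M : Type) (s : L.Structure M) (v : Fin n → M),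
    ψ.Realize (default : Empty → M) v ↔ P M s v

variable {n : ℕ} {P Q : ∀ (M : Type) (_ : L.Structure M), (Fin n → M) → Prop}

theorem QFD.congr (h : QFD n P) (e : ∀ M s v, P M s v ↔ Q M s v) : QFD n Q := by
  obtain ⟨ψ, h1, h2⟩ := h
  exact ⟨ψ, h1, fun M s v => (h2 M s v).trans (e M s v)⟩

theorem QFD.fls : QFD (L := L) n (fun _ _ _ => False) :=
  ⟨⊥, Language.BoundedFormula.IsQF.falsum, fun _ _ _ => Iff.rfl⟩

theorem QFD.imp (h : QFD n P) (h' : QFD n Q) : QFD n (fun M s v => P M s v → Q M s v) := by
  obtain ⟨ψ, h1, h2⟩ := h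
  obtain ⟨ψ', h1', h2'⟩ := h'
  exact ⟨ψ.imp ψ', h1.imp h1', fun M s v => imp_congr (h2 M s v) (h2' M s v)⟩

theorem QFD.not (h : QFD n P) : QFD n (fun M s v => ¬ P M s v) :=
  (h.imp QFD.fls).congr fun _ _ _ => Iff.rfl

theorem QFD.tru : QFD (L := L) n (fun _ _ _ => True) :=
  QFD.fls.not.congr fun _ _ _ => by simp

theorem QFD.and (h : QFD n P) (h' : QFD n Q) : QFD n (fun M s v => P M s v ∧ Q M s v) :=
  (h.imp h'.not).not.congr fun _ _ _ => by tauto

theorem QFD.or (h : QFD n P) (h' : QFD n Q) : QFD n (fun M s v => P M s v ∨ Q M s v) :=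
  (h.not.imp h').congr fun _ _ _ => by tauto

theorem QFD.iff (h : QFD n P) (h' : QFD n Q) : QFD n (fun M s v => P M s v ↔ Q M s v) :=
  ((h.imp h').and (h'.imp h)).congr fun _ _ _ => by tauto

theorem QFD.forall {ι : Type} [Finite ι]
    {R : ι → ∀ (M : Type) (_ : L.Structure M), (Fin n → M) → Prop} (h : ∀ i, QFD n (R i)) :
    QFD n (fun M s v => ∀ i, R i M s v) := by
  have key : ∀ s : Finset ι, QFD n (fun M st v => ∀ i ∈ s, R i M st v) := by
    classical
    intro s
    induction s using Finset.induction_on with
    | empty => exact QFD.tru.congr fun _ _ _ => by simp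
    | insert a s _ ih => exact ((h a).and ih).congr fun _ _ _ => by simp
  obtain ⟨_⟩ := nonempty_fintype ι
  exact (key Finset.univ).congr fun _ _ _ => by simp

theorem QFD.exists {ι : Type} [Finite ι]
    {R : ι → ∀ (M : Type) (_ : L.Structure M), (Fin n → M) → Prop} (h : ∀ i, QFD n (R i)) :
    QFD n (fun M s v => ∃ i, R i M s v) :=
  (QFD.forall fun i => (h i).not).not.congr fun _ _ _ => by
    push Not
    rfl

theorem QFD.const (c : Prop) : QFD (L := L) n (fun _ _ _ => c) := by
  by_cases h : c
  · exact QFD.tru.congr fun _ _ _ => by simp [h]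
  · exact QFD.fls.congr fun _ _ _ => by simp [h]

theorem QFD.eq (i j : Fin n) : QFD (L := L) n (fun _ _ v => v i = v j) :=
  ⟨(Language.Term.var (Sum.inr i)).bdEqual (Language.Term.var (Sum.inr j)),
    (Language.BoundedFormula.IsAtomic.equal _ _).isQF, fun _ _ _ => Iff.rfl⟩

theorem QFD.rel {r : ℕ} (R : L.Relations r) (π : Fin r → Fin n) :
    QFD (L := L) n (fun _ s v => s.RelMap R (fun i => v (π i))) :=
  ⟨R.boundedFormula fun i => Language.Term.var (Sum.inr (π i)),
    (Language.BoundedFormula.IsAtomic.rel _ _).isQF, fun _ _ _ => Iff.rfl⟩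

/-- substitution of variables in a quantifier-free formula -/
theorem QFD.subst {m : ℕ} (ψ : L.BoundedFormula Empty m) (hψ : ψ.IsQF) (e : Fin m → Fin n) :
    QFD (L := L) n (fun _ _ v => ψ.Realize default (fun i => v (e i))) := by
  induction hψ with
  | falsum => exact QFD.fls
  | of_isAtomic h =>
    have ht : ∀ (t : L.Term (Empty ⊕ Fin m)) (M : Type) (s : L.Structure M) (v : Fin n → M),
        (t.relabel (Sum.map id e)).realize (Sum.elim default v) =
        t.realize (Sum.elim default (fun i => v (e i))) := by
      intro t M s v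
      rw [Language.Term.realize_relabel]
      congr 1
      funext x
      rcases x with x | x
      · exact x.elim
      · rfl
    cases h with
    | equal t1 t2 =>
      refine ⟨(t1.relabel (Sum.map id e)).bdEqual (t2.relabel (Sum.map id e)),
        (Language.BoundedFormula.IsAtomic.equal _ _).isQF, fun M s v => ?_⟩
      simp only [Language.BoundedFormula.realize_bdEqual]
      rw [ht, ht]
    | rel R ts =>
      refine ⟨R.boundedFormula fun i => (ts i).relabel (Sum.map id e),
        (Language.BoundedFormula.IsAtomic.rel _ _).isQF, fun M s v => ?_⟩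
      simp only [Language.BoundedFormula.realize_rel]
      have : (fun i => ((ts i).relabel (Sum.map id e)).realize (Sum.elim default v)) =
          fun i => (ts i).realize (Sum.elim default (fun i => v (e i))) :=
        funext fun i => ht _ M s v
      rw [this]
  | imp _ _ ih1 ih2 => exact ih1.imp ih2

end qf

/-- unary and binary relation symbols -/
inductive BinRel (I J : Type) : ℕ → Type
  | un (i : I) : BinRel I J 1
  | bi (j : J) : BinRel I J 2

/-- the language with the unary relation symbols `I` and the binary relation symbols `J` -/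
def LB (I J : Type) : FirstOrder.Language.{0, 0} := ⟨fun _ => Empty, BinRel I J⟩

/-- `A` is the spectrum of a sentence with the quantifier prefix `w` in a finite language with unary
and binary relation symbols (and equality) -/
def IsPrefSpec {n : ℕ} (w : Fin n → Bool) (A : Set ℕ) : Prop :=
  ∃ (I J : Type) (_ : Finite I) (_ : Finite J) (ψ : (LB I J).BoundedFormula Empty n), ψ.IsQF ∧
    A = Spec (close w ψ)

theorem IsPrefSpec.embed {m n : ℕ} {w : Fin n → Bool} {u : Fin m → Bool} (h : Contains w u)
    {A : Set ℕ} (hA : IsPrefSpec u A) : IsPrefSpec w A := by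
  obtain ⟨e, he, hwu⟩ := h
  obtain ⟨I, J, hI, hJ, ψ, hψ, rfl⟩ := hA
  obtain ⟨ψ', hψ', hr⟩ := QFD.subst (n := n) ψ hψ e
  refine ⟨I, J, hI, hJ, ψ', hψ', ?_⟩
  ext N
  refine and_congr_right fun hN => ?_
  refine exists_congr fun M => exists_congr fun s => exists_congr fun _ => ?_
  refine and_congr_right fun hM => ?_
  have : Nonempty M := Fintype.card_pos_iff.1 (by rw [hM]; exact hN)
  rw [realize_close, realize_close, ← QQ_embed w u e he hwu]
  exact QQ_congr _ fun v => (hr M s v).symm

end Pool.Agent.V8H44.Sp
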