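import Pool.Agent.V8H44.Sp.Loc

/-!
Tilings of squares.  Every spectrum is, up to a power, the set of the side lengths of the squares
which can be tiled by a finite set of tiles.
-/

set_option autoImplicit false
set_option linter.unusedVariables false
set_option linter.unusedSimpArgs false

namespace Pool.Agent.V8H44.Sp

/-- A tile system: a finite set of tiles, the horizontal and vertical matching relations, and the
tiles allowed on the left, right, bottom and top sides of a square. -/
structure TileSys where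
  /-- the tiles -/
  C : Type
  fin : Finite C
  /-- horizontal matching -/
  H : C → C → Prop
  /-- vertical matching -/
  V : C → C → Prop
  /-- left side -/
  Lf : C → Prop
  /-- right side -/
  Rt : C → Prop
  /-- bottom side -/
  Bt : C → Prop
  /-- top side -/
  Tp : C → Prop

/-- `c` is a tiling of the square of side `N` -/
structure TileSys.IsSol (S : TileSys) (N : ℕ) (c : ℕ → ℕ → S.C) : Prop where
  H : ∀ x, x + 1 < N → ∀ z < N, S.H (c x z) (c (x + 1) z)
  V : ∀ x < N, ∀ z, z + 1 < N → S.V (c x z) (c x (z + 1))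
  Lf : ∀ z < N, S.Lf (c 0 z)
  Rt : ∀ z < N, S.Rt (c (N - 1) z)
  Bt : ∀ x < N, S.Bt (c x 0)
  Tp : ∀ x < N, S.Tp (c x (N - 1))

/-- the square of side `N` can be tiled -/
def TileSys.Sol (S : TileSys) (N : ℕ) : Prop := ∃ c, S.IsSol N c

/-- a cell of a local system -/
structure Cl (S : LocSys) where
  /-- colour of the first coordinate -/
  ux : S.U
  /-- colour of the second coordinate -/
  uz : S.U
  /-- colour of the pair -/
  b : S.B
  /-- on the diagonal -/
  δ : Prop
  /-- above the diagonal -/
  ε : Prop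
  cell : S.cell ux uz b
  diag : δ → ux = uz ∧ S.diag ux b

theorem Cl.ext' {S : LocSys} {c c' : Cl S} (h1 : c.ux = c'.ux) (h2 : c.uz = c'.uz)
    (h3 : c.b = c'.b) (h4 : c.δ = c'.δ) (h5 : c.ε = c'.ε) : c = c' := by
  cases c
  cases c'
  simp only at h1 h2 h3 h4 h5
  subst h1 h2 h3 h4 h5
  rfl

theorem Cl.finite (S : LocSys) : Finite (Cl S) := by
  have := S.finU
  have := S.finB
  refine Finite.of_injective (β := S.U × S.U × S.B × Prop × Prop)
    (fun c => (c.ux, c.uz, c.b, c.δ, c.ε)) ?_
  intro c c' h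
  simp only [Prod.mk.injEq] at h
  exact Cl.ext' h.1 h.2.1 h.2.2.1 h.2.2.2.1 h.2.2.2.2

/-- the tile system of a local system -/
def tileOf (S : LocSys) : TileSys where
  C := Cl S
  fin := Cl.finite S
  H c c' := c.uz = c'.uz ∧ S.stepH c.ux c'.ux c.uz c.b c'.b ∧ (c'.δ ↔ c.ε) ∧ ¬ S.fst c'.ux ∧
    ¬ S.lst c.ux
  V c c' := c.ux = c'.ux ∧ S.stepV c.ux c.uz c'.uz c.b c'.b ∧ (c'.ε ↔ c.δ) ∧ ¬ S.fst c'.uz ∧
    ¬ S.lst c.uz
  Lf c := S.fst c.ux ∧ (c.δ ↔ S.fst c.uz)
  Rt c := S.lst c.ux
  Bt c := S.fst c.uz ∧ ¬ c.ε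
  Tp c := S.lst c.uz

theorem tileOf_iff (S : LocSys) {N : ℕ} (hN : 0 < N) : (tileOf S).Sol N ↔ S.Sol N := by
  constructor
  · rintro ⟨c, hc⟩
    have hux : ∀ x < N, ∀ z < N, (c x z).ux = (c x 0).ux := by
      intro x hx z
      induction z with
      | zero => intro _; rfl
      | succ z ih =>
        intro hz
        rw [← ih (by omega)]
        exact (hc.V x hx z hz).1.symm
    have huz : ∀ x < N, ∀ z < N, (c x z).uz = (c 0 z).uz := by
      intro x
      induction x with
      | zero => intro _ z _; rfl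
      | succ x ih =>
        intro hx z hz
        rw [← ih (by omega) z hz]
        exact (hc.H x hx z hz).1.symm
    have hfu : ∀ x < N, (S.fst (c x 0).ux ↔ x = 0) := by
      intro x hx
      rcases Nat.eq_zero_or_pos x with rfl | h
      · exact iff_of_true (hc.Lf 0 hN).1 rfl
      · obtain ⟨x, rfl⟩ : ∃ x', x = x' + 1 := ⟨x - 1, by omega⟩
        exact iff_of_false (hc.H x hx 0 hN).2.2.2.1 (by omega)
    have hlu : ∀ x < N, (S.lst (c x 0).ux ↔ x + 1 = N) := by
      intro x hx
      rcases Nat.lt_or_ge (x + 1) N with h | h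
      · exact iff_of_false (hc.H x h 0 hN).2.2.2.2 (by omega)
      · have h1 : x = N - 1 := by omega
        subst h1
        exact iff_of_true (hc.Rt 0 hN) (by omega)
    have hfz : ∀ z < N, (S.fst (c 0 z).uz ↔ z = 0) := by
      intro z hz
      rcases Nat.eq_zero_or_pos z with rfl | h
      · exact iff_of_true (hc.Bt 0 hN).1 rfl
      · obtain ⟨z, rfl⟩ : ∃ z', z = z' + 1 := ⟨z - 1, by omega⟩
        exact iff_of_false (hc.V 0 hN z hz).2.2.2.1 (by omega)
    have hδε : ∀ x < N, ∀ z < N, ((c x z).δ ↔ x = z) := by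
      intro x
      induction x with
      | zero =>
        intro _ z hz
        rw [(hc.Lf z hz).2, hfz z hz]
        exact eq_comm
      | succ x ih =>
        intro hx z hz
        rw [(hc.H x hx z hz).2.2.1]
        rcases Nat.eq_zero_or_pos z with rfl | h
        · exact iff_of_false (hc.Bt x (by omega)).2 (by omega)
        · obtain ⟨z, rfl⟩ : ∃ z', z = z' + 1 := ⟨z - 1, by omega⟩
          rw [(hc.V x (by omega) z hz).2.2.1, ih (by omega) z (by omega)]
          omega
    have hdiag : ∀ x < N, (c 0 x).uz = (c x 0).ux := by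
      intro x hx
      have := ((c x x).diag ((hδε x hx x hx).2 rfl)).1
      rw [hux x hx x hx, huz x hx x hx] at this
      exact this.symm
    refine ⟨fun x => (c x 0).ux, fun x z => (c x z).b, hfu, hlu, ?_, ?_, ?_, ?_⟩
    · intro x hx z hz
      have := (c x z).cell
      rw [hux x hx z hz, huz x hx z hz, hdiag z hz] at this
      exact this
    · intro x hx
      have := ((c x x).diag ((hδε x hx x hx).2 rfl)).2
      rw [hux x hx x hx] at this
      exact this
    · intro x hx z hz
      have := (hc.H x hx z hz).2.1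
      rw [hux x (by omega) z hz, hux (x + 1) hx z hz, huz x (by omega) z hz, hdiag z hz] at this
      exact this
    · intro x hx z hz
      have := (hc.V z hz x hx).2.1
      rw [hux z hz x (by omega), huz z hz x (by omega), huz z hz (x + 1) hx, hdiag x (by omega),
        hdiag (x + 1) hx] at this
      exact this
  · rintro ⟨u, b, hs⟩
    -- outside of the square we use a fixed cell
    let c0 : Cl S := ⟨u 0, u 0, b 0 0, True, False, hs.cell 0 hN 0 hN, fun _ =>
      ⟨rfl, hs.diag 0 hN⟩⟩
    let c : ℕ → ℕ → Cl S := fun x z => if h : x < N ∧ z < N then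
      ⟨u x, u z, b x z, x = z, x + 1 = z, hs.cell x h.1 z h.2, by
        rintro rfl
        exact ⟨rfl, hs.diag x h.1⟩⟩ else c0
    have hc : ∀ x z (hx : x < N) (hz : z < N), c x z =
        ⟨u x, u z, b x z, x = z, x + 1 = z, hs.cell x hx z hz, by
        rintro rfl
        exact ⟨rfl, hs.diag x hx⟩⟩ := by
      intro x z hx hz
      exact dif_pos ⟨hx, hz⟩
    refine ⟨c, ?_, ?_, ?_, ?_, ?_, ?_⟩
    · intro x hx z hz
      rw [hc x z (by omega) hz, hc (x + 1) z hx hz]
      refine ⟨rfl, hs.stepH x hx z hz, Iff.rfl, ?_, ?_⟩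
      · intro h
        exact absurd ((hs.fst (x + 1) hx).1 h) (by omega)
      · intro h
        exact absurd ((hs.lst x (by omega)).1 h) (by omega)
    · intro x hx z hz
      rw [hc x z hx (by omega), hc x (z + 1) hx hz]
      refine ⟨rfl, hs.stepV z hz x hx, ?_, ?_, ?_⟩
      · simp only
        omega
      · intro h
        exact absurd ((hs.fst (z + 1) hz).1 h) (by omega)
      · intro h
        exact absurd ((hs.lst z (by omega)).1 h) (by omega)
    · intro z hz
      rw [hc 0 z hN hz]
      refine ⟨(hs.fst 0 hN).2 rfl, ?_⟩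
      simp only
      rw [hs.fst z hz]
      exact eq_comm
    · intro z hz
      rw [hc (N - 1) z (by omega) hz]
      exact (hs.lst (N - 1) (by omega)).2 (by omega)
    · intro x hx
      rw [hc x 0 hx hN]
      refine ⟨(hs.fst 0 hN).2 rfl, ?_⟩
      simp only
      omega
    · intro x hx
      rw [hc x (N - 1) hx (by omega)]
      exact (hs.lst (N - 1) (by omega)).2 (by omega)

/-- **Spectra and tilings.** -/
theorem exists_tileSys {L : FirstOrder.Language.{0, 0}} (φ : L.Sentence) :
    ∃ (k : ℕ) (S : TileSys), 0 < k ∧ ∀ N, 0 < N → (S.Sol N ↔ ∃ n ∈ Spec φ, N = n ^ k) := by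
  obtain ⟨k, θ, hk, h⟩ := exists_specV φ
  refine ⟨k, tileOf (locOf θ), hk, fun N hN => ?_⟩
  rw [tileOf_iff _ hN, locOf_iff θ hk hN, h]

end Pool.Agent.V8H44.Sp
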