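import Pool.Agent.V8H44.Sp.Pref

/-!
The prefixes `∃*∀*` and `∃*∀∃*`: all spectra are finite or cofinite.
-/

set_option autoImplicit false
set_option linter.unusedVariables false
set_option linter.unusedSimpArgs false

namespace Pool.Agent.V8H44.Sp

open FirstOrder

/-- the prefix `∀∀∃` -/
def wAAE : Fin 3 → Bool := ![true, true, false]

theorem contains3 {n : ℕ} {w : Fin n → Bool} {a b c : Fin n} (h1 : a < b) (h2 : b < c)
    (u : Fin 3 → Bool) (ha : w a = u 0) (hb : w b = u 1) (hc : w c = u 2) : Contains w u := by
  refine ⟨![a, b, c], ?_, ?_⟩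
  · intro i j hij
    fin_cases i <;> fin_cases j <;> simp at hij ⊢
    · exact h1
    · exact h1.trans h2
    · exact h2
  · intro i
    fin_cases i
    · exact ha
    · exact hb
    · exact hc

theorem shape {n : ℕ} (w : Fin n → Bool) (h1 : ¬ Contains w wAEA) (h2 : ¬ Contains w wAAE) :
    (∀ i j, i < j → w i = true → w j = true) ∨ ∃ p, ∀ i, w i = true ↔ i = p := by
  by_cases h : ∀ i j, i < j → w i = true → w j = true
  · exact Or.inl h
  · right
    push Not at h
    obtain ⟨i, j, hij, hi, hj⟩ := h
    have hj : w j = false := by
      cases hw : w j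
      · rfl
      · exact absurd hw hj
    refine ⟨i, fun l => ⟨fun hl => ?_, fun h => by rw [h]; exact hi⟩⟩
    by_contra hne
    rcases lt_or_gt_of_ne hne with h3 | h3
    · exact h2 (contains3 h3 hij _ hl hi hj)
    · rcases lt_trichotomy l j with h4 | h4 | h4
      · exact h2 (contains3 h3 h4 _ hi hl hj)
      · rw [h4, hj] at hl
        cases hl
      · exact h1 (contains3 hij h4 _ hi hj hl)

theorem QQ_EA {M : Type} [Nonempty M] {n : ℕ} (w : Fin n → Bool)
    (hw : ∀ i j, i < j → w i = true → w j = true) (P : (Fin n → M) → Prop) :
    QQ w P ↔ ∃ f : Fin n → M, ∀ v, (∀ i, w i = false → v i = f i) → P v := by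
  induction n with
  | zero =>
    show P Fin.elim0 ↔ _
    constructor
    · intro h
      refine ⟨Fin.elim0, fun v _ => ?_⟩
      rwa [Subsingleton.elim v Fin.elim0]
    · rintro ⟨f, hf⟩
      exact hf _ fun i => i.elim0
  | succ n ih =>
    show QQ (fun i : Fin n => w (Fin.castSucc i)) _ ↔ _
    rw [ih (fun i : Fin n => w (Fin.castSucc i))
      (fun i j hij => hw _ _ (Fin.castSucc_lt_castSucc_iff.2 hij))]
    cases hl : w (Fin.last n)
    · have hall : ∀ i, w i = false := by
        intro i
        rcases Fin.eq_castSucc_or_eq_last i with ⟨j, rfl⟩ | rfl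
        · cases hj : w (Fin.castSucc j)
          · rfl
          · have := hw _ _ (Fin.castSucc_lt_last j) hj
            rw [hl] at this
            cases this
        · exact hl
      constructor
      · rintro ⟨f, hf⟩
        obtain ⟨a, ha⟩ := by simpa using hf f fun _ _ => rfl
        refine ⟨Fin.snoc f a, fun v hv => ?_⟩
        have : v = Fin.snoc f a := funext fun i => hv i (hall i)
        rw [this]
        exact ha
      · rintro ⟨f, hf⟩
        refine ⟨fun i => f (Fin.castSucc i), fun v hv => ?_⟩
        simp only [Bool.false_eq_true, if_false]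
        refine ⟨f (Fin.last n), hf _ fun i _ => ?_⟩
        refine Fin.lastCases ?_ (fun j => ?_) i
        · rw [Fin.snoc_last]
        · rw [Fin.snoc_castSucc]
          exact hv j (hall _)
    · constructor
      · rintro ⟨f, hf⟩
        refine ⟨Fin.snoc f (Classical.arbitrary M), fun v hv => ?_⟩
        have h1 := hf (fun i => v (Fin.castSucc i)) fun i hi => by
          rw [hv _ hi, Fin.snoc_castSucc]
        simp only [if_true] at h1
        have h2 := h1 (v (Fin.last n))
        have h3 : (Fin.snoc (fun i => v (Fin.castSucc i)) (v (Fin.last n)) : Fin (n + 1) → M) =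
            v := Fin.snoc_init_self v
        rwa [h3] at h2
      · rintro ⟨f, hf⟩
        refine ⟨fun i => f (Fin.castSucc i), fun v hv => ?_⟩
        simp only [if_true]
        intro a
        refine hf _ fun i => ?_
        refine Fin.lastCases ?_ (fun j => ?_) i
        · intro h
          rw [hl] at h
          cases h
        · intro h
          rw [Fin.snoc_castSucc]
          exact hv j h

/-- the assignment with values `f` before `p`, `y` at `p` and `g` after `p` -/
def comb {M : Type} {n : ℕ} (p : Fin n) (f : Fin n → M) (y : M) (g : Fin n → M) : Fin n → M :=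
  fun i => if i < p then f i else if i = p then y else g i

theorem QQ_EAE {M : Type} [Nonempty M] {n : ℕ} (w : Fin n → Bool) (p : Fin n)
    (hw : ∀ i, w i = true ↔ i = p) (P : (Fin n → M) → Prop) :
    QQ w P ↔ ∃ f : Fin n → M, ∀ y, ∃ g : Fin n → M, P (comb p f y g) := by
  induction n with
  | zero => exact p.elim0
  | succ n ih =>
    show QQ (fun i : Fin n => w (Fin.castSucc i)) _ ↔ _
    rcases Fin.eq_castSucc_or_eq_last p with ⟨q, rfl⟩ | rfl
    · have hl : w (Fin.last n) = false := by
        cases h : w (Fin.last n)
        · rfl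
        · exact absurd ((hw _).1 h) (Fin.castSucc_lt_last q).ne'
      rw [ih (fun i : Fin n => w (Fin.castSucc i)) q (fun i => by
        rw [hw]
        exact Fin.castSucc_inj)]
      have hc : ∀ (f g : Fin (n + 1) → M) (y : M), comb (Fin.castSucc q) f y g =
          (Fin.snoc (comb q (fun i => f (Fin.castSucc i)) y (fun i => g (Fin.castSucc i)))
            (g (Fin.last n)) : Fin (n + 1) → M) := by
        intro f g y
        funext i
        refine Fin.lastCases ?_ (fun j => ?_) i
        · rw [Fin.snoc_last]
          unfold comb
          rw [if_neg (not_lt.2 (Fin.castSucc_lt_last q).le), if_neg (Fin.castSucc_lt_last q).ne']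
        · rw [Fin.snoc_castSucc]
          unfold comb
          simp only [Fin.castSucc_lt_castSucc_iff, Fin.castSucc_inj]
      rw [hl]
      simp only [Bool.false_eq_true, if_false]
      constructor
      · rintro ⟨f, hf⟩
        refine ⟨Fin.snoc f (Classical.arbitrary M), fun y => ?_⟩
        obtain ⟨g, a, hg⟩ := hf y
        refine ⟨Fin.snoc g a, ?_⟩
        rw [hc]
        simp only [Fin.snoc_castSucc, Fin.snoc_last]
        exact hg
      · rintro ⟨f, hf⟩
        refine ⟨fun i => f (Fin.castSucc i), fun y => ?_⟩
        obtain ⟨g, hg⟩ := hf y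
        rw [hc] at hg
        exact ⟨_, _, hg⟩
    · have hfalse : ∀ i : Fin n, w (Fin.castSucc i) = false := by
        intro i
        cases h : w (Fin.castSucc i)
        · rfl
        · exact absurd ((hw _).1 h) (Fin.castSucc_lt_last i).ne
      have hl : w (Fin.last n) = true := (hw _).2 rfl
      rw [QQ_EA (fun i : Fin n => w (Fin.castSucc i)) (fun i j _ h => by
        rw [hfalse] at h
        cases h)]
      rw [hl]
      simp only [if_true]
      have hc : ∀ (f g : Fin (n + 1) → M) (y : M), comb (Fin.last n) f y g =
          (Fin.snoc (fun i => f (Fin.castSucc i)) y : Fin (n + 1) → M) := by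
        intro f g y
        funext i
        refine Fin.lastCases ?_ (fun j => ?_) i
        · rw [Fin.snoc_last]
          unfold comb
          rw [if_neg (lt_irrefl _), if_pos rfl]
        · rw [Fin.snoc_castSucc]
          unfold comb
          rw [if_pos (Fin.castSucc_lt_last j)]
      constructor
      · rintro ⟨f, hf⟩
        refine ⟨Fin.snoc f (Classical.arbitrary M), fun y => ⟨fun _ => y, ?_⟩⟩
        rw [hc]
        simp only [Fin.snoc_castSucc]
        exact hf f (fun _ _ => rfl) y
      · rintro ⟨f, hf⟩
        refine ⟨fun i => f (Fin.castSucc i), fun v hv y => ?_⟩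
        obtain ⟨g, hg⟩ := hf y
        rw [hc] at hg
        have : v = fun i => f (Fin.castSucc i) := funext fun i => hv i (hfalse i)
        rw [this]
        exact hg

section rel

variable {L : FirstOrder.Language.{0, 0}} [L.IsRelational]

/-- the structure induced by a map -/
def comapStr {M M' : Type} (s : L.Structure M) (π : M' → M) : L.Structure M' where
  funMap f _ := isEmptyElim f
  RelMap R v := s.RelMap R (fun i => π (v i))

theorem term_var {n : ℕ} (t : L.Term (Empty ⊕ Fin n)) : ∃ i, ∀ (M : Type) (s : L.Structure M)
    (v : Fin n → M), t.realize (Sum.elim default v) = v i := by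
  cases t with
  | var x =>
    rcases x with x | x
    · exact x.elim
    · exact ⟨x, fun _ _ _ => rfl⟩
  | func f _ => exact isEmptyElim f

theorem qf_comap {n : ℕ} (ψ : L.BoundedFormula Empty n) (hψ : ψ.IsQF) {M M' : Type}
    (s : L.Structure M) (π : M' → M) (v : Fin n → M')
    (hv : ∀ i j, π (v i) = π (v j) → v i = v j) :
    @Language.BoundedFormula.Realize L M' (comapStr s π) Empty n ψ default v ↔
      ψ.Realize default (fun i => π (v i)) := by
  induction hψ with
  | falsum => exact Iff.rfl
  | of_isAtomic h =>
    cases h with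
    | equal t1 t2 =>
      obtain ⟨i, hi⟩ := term_var t1
      obtain ⟨j, hj⟩ := term_var t2
      have h1 : @Language.Term.realize L M' (comapStr s π) _ (Sum.elim default v) t1 = v i :=
        hi M' (comapStr s π) v
      have h2 : @Language.Term.realize L M' (comapStr s π) _ (Sum.elim default v) t2 = v j :=
        hj M' (comapStr s π) v
      show @Language.Term.realize L M' (comapStr s π) _ (Sum.elim default v) t1 =
        @Language.Term.realize L M' (comapStr s π) _ (Sum.elim default v) t2 ↔
        t1.realize (Sum.elim default fun i => π (v i)) =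
        t2.realize (Sum.elim default fun i => π (v i))
      rw [h1, h2, hi, hj]
      exact ⟨fun h => by rw [h], hv i j⟩
    | rel R ts =>
      choose i hi using fun l => term_var (ts l)
      show s.RelMap R (fun l => π (@Language.Term.realize L M' (comapStr s π) _
        (Sum.elim default v) (ts l))) ↔
        s.RelMap R (fun l => (ts l).realize (Sum.elim default fun i => π (v i)))
      have h1 : (fun l => π (@Language.Term.realize L M' (comapStr s π) _
        (Sum.elim default v) (ts l))) =
        fun l => (ts l).realize (Sum.elim default fun i => π (v i)) := by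
        funext l
        rw [hi l M' (comapStr s π) v, hi l M s]
      rw [h1]
  | imp _ _ ih1 ih2 => exact imp_congr ih1 ih2

theorem down {n : ℕ} (w : Fin n → Bool) (hw : ∀ i j, i < j → w i = true → w j = true)
    (ψ : L.BoundedFormula Empty n) (hψ : ψ.IsQF) {N : ℕ} (hN : n ≤ N) (hN0 : 0 < N)
    (h : N + 1 ∈ Spec (close w ψ)) : N ∈ Spec (close w ψ) := by
  classical
  obtain ⟨_, M, s, _, hM, h⟩ := h
  have : Nonempty M := Fintype.card_pos_iff.1 (by omega)
  rw [realize_close, QQ_EA w hw] at h
  obtain ⟨f, hf⟩ := h
  obtain ⟨m, hm⟩ : ∃ m, ∀ i, f i ≠ m := by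
    by_contra hcon
    push Not at hcon
    have hs : Function.Surjective f := fun m => hcon m
    have := Fintype.card_le_of_surjective f hs
    rw [hM, Fintype.card_fin] at this
    omega
  refine ⟨hN0, {x : M // x ≠ m}, comapStr s Subtype.val, inferInstance, ?_, ?_⟩
  · rw [Fintype.card_subtype_compl, Fintype.card_subtype_eq, hM]
    rfl
  · have hne : Nonempty {x : M // x ≠ m} := by
      rw [← Fintype.card_pos_iff, Fintype.card_subtype_compl, Fintype.card_subtype_eq, hM]
      omega
    rw [@realize_close L n w ψ _ (comapStr s Subtype.val), QQ_EA w hw]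
    refine ⟨fun i => ⟨f i, hm i⟩, fun v hv => ?_⟩
    rw [qf_comap ψ hψ s Subtype.val v (fun i j h => Subtype.ext h)]
    refine hf _ fun i hi => ?_
    rw [hv i hi]

theorem up {n : ℕ} (w : Fin n → Bool) (p : Fin n) (hw : ∀ i, w i = true ↔ i = p)
    (ψ : L.BoundedFormula Empty n) (hψ : ψ.IsQF) {N : ℕ} (hN : n < N)
    (h : N ∈ Spec (close w ψ)) : N + 1 ∈ Spec (close w ψ) := by
  classical
  obtain ⟨_, M, s, _, hM, h⟩ := h
  have : Nonempty M := Fintype.card_pos_iff.1 (by omega)
  rw [realize_close, QQ_EAE w p hw] at h
  obtain ⟨f, hf⟩ := h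
  obtain ⟨m, hm⟩ : ∃ m, ∀ i, f i ≠ m := by
    by_contra hcon
    push Not at hcon
    have hs : Function.Surjective f := fun m => hcon m
    have := Fintype.card_le_of_surjective f hs
    rw [hM, Fintype.card_fin] at this
    omega
  let π : Option M → M := fun x => x.getD m
  let τ : M → Option M := fun x => if x = m then none else some x
  have hπτ : ∀ x, π (τ x) = x := by
    intro x
    by_cases hx : x = m
    · simp [π, τ, hx]
    · simp [π, τ, hx]
  refine ⟨by omega, Option M, comapStr s π, inferInstance, ?_, ?_⟩
  · rw [Fintype.card_option, hM]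
  · rw [@realize_close L n w ψ _ (comapStr s π), QQ_EAE w p hw]
    refine ⟨fun i => some (f i), fun y => ?_⟩
    rcases y with _ | y
    · obtain ⟨g, hg⟩ := hf m
      refine ⟨fun i => τ (g i), ?_⟩
      have h1 : comb p (fun i => some (f i)) none (fun i => τ (g i)) =
          fun i => τ (comb p f m g i) := by
        funext i
        unfold comb
        split_ifs
        · simp [τ, hm i]
        · simp [τ]
        · rfl
      rw [h1, qf_comap ψ hψ s π _ (fun i j h => by rw [hπτ, hπτ] at h; rw [h])]
      simp only [hπτ]
      exact hg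
    · obtain ⟨g, hg⟩ := hf y
      refine ⟨fun i => some (g i), ?_⟩
      have h1 : comb p (fun i => some (f i)) (some y) (fun i => some (g i)) =
          fun i => some (comb p f y g i) := by
        funext i
        unfold comb
        split_ifs <;> rfl
      have hps : ∀ x, π (some x) = x := fun _ => rfl
      rw [h1, qf_comap ψ hψ s π _ (fun i j h => by rw [hps, hps] at h; rw [h])]
      simp only [hps]
      exact hg

/-- **Easy prefixes.** -/
theorem easy_prefix {n : ℕ} (w : Fin n → Bool) (h1 : ¬ Contains w wAEA) (h2 : ¬ Contains w wAAE)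
    (ψ : L.BoundedFormula Empty n) (hψ : ψ.IsQF) :
    (Spec (close w ψ)).Finite ∨ (Spec (close w ψ))ᶜ.Finite := by
  rcases shape w h1 h2 with hw | ⟨p, hw⟩
  · by_cases hf : (Spec (close w ψ)).Finite
    · exact Or.inl hf
    · right
      refine (Set.finite_le_nat n).subset fun N hN => ?_
      by_contra hlt
      have hlt : n < N := not_le.1 hlt
      obtain ⟨N', hN', hlt'⟩ := Set.Infinite.exists_gt hf N
      obtain ⟨d, rfl⟩ := Nat.exists_eq_add_of_lt hlt'
      have : ∀ e, N + e ∈ Spec (close w ψ) → N ∈ Spec (close w ψ) := by
        intro e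
        induction e with
        | zero => exact id
        | succ e ih =>
          intro h
          exact ih (down w hw ψ hψ (by omega) (by omega) h)
      exact hN (this (d + 1) hN')
  · by_cases hf : ∃ N ∈ Spec (close w ψ), n < N
    · right
      obtain ⟨N, hN, hlt⟩ := hf
      refine (Set.finite_lt_nat N).subset fun N' hN' => ?_
      by_contra hge
      have hge : N ≤ N' := not_lt.1 hge
      obtain ⟨d, rfl⟩ := Nat.exists_eq_add_of_le hge
      have : ∀ e, N + e ∈ Spec (close w ψ) := by
        intro e
        induction e with
        | zero => exact hN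
        | succ e ih =>
          have h3 : n < N + e := by omega
          exact up w p hw ψ hψ h3 ih
      exact hN' (this _)
    · left
      refine (Set.finite_le_nat n).subset fun N hN => ?_
      by_contra hlt
      exact hf ⟨N, hN, not_le.1 hlt⟩

end rel

end Pool.Agent.V8H44.Sp
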