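import Pool.Agent.V8H44.Sp.QF

/-!
Uniformly definable predicates: a calculus for writing first-order sentences.
-/

set_option autoImplicit false
set_option linter.unusedVariables false
set_option linter.unusedSimpArgs false

namespace Pool.Agent.V8H44.Sp

open FirstOrder

variable {L : FirstOrder.Language.{0, 0}}

/-- `P` is defined by one formula in all structures; the variables are natural numbers -/
def UD (P : ∀ (M : Type) (_ : L.Structure M), (ℕ → M) → Prop) : Prop :=
  ∃ φ : L.Formula ℕ, ∀ (M : Type) (s : L.Structure M) (v : ℕ → M),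
    Language.Formula.Realize φ v ↔ P M s v

section

variable {P Q : ∀ (M : Type) (_ : L.Structure M), (ℕ → M) → Prop}

theorem UD.congr (h : UD P) (e : ∀ M s v, P M s v ↔ Q M s v) : UD Q := by
  obtain ⟨φ, h⟩ := h
  exact ⟨φ, fun M s v => (h M s v).trans (e M s v)⟩

theorem UD.fls : UD (L := L) (fun _ _ _ => False) :=
  ⟨⊥, fun _ _ _ => Iff.rfl⟩

theorem UD.imp (h : UD P) (h' : UD Q) : UD (fun M s v => P M s v → Q M s v) := by
  obtain ⟨φ, h⟩ := h
  obtain ⟨ψ, h'⟩ := h'
  exact ⟨φ.imp ψ, fun M s v => imp_congr (h M s v) (h' M s v)⟩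

theorem UD.not (h : UD P) : UD (fun M s v => ¬ P M s v) :=
  (h.imp UD.fls).congr fun _ _ _ => Iff.rfl

theorem UD.tru : UD (L := L) (fun _ _ _ => True) :=
  UD.fls.not.congr fun _ _ _ => by simp

theorem UD.and (h : UD P) (h' : UD Q) : UD (fun M s v => P M s v ∧ Q M s v) :=
  (h.imp h'.not).not.congr fun _ _ _ => by tauto

theorem UD.or (h : UD P) (h' : UD Q) : UD (fun M s v => P M s v ∨ Q M s v) :=
  (h.not.imp h').congr fun _ _ _ => by tauto

theorem UD.iff (h : UD P) (h' : UD Q) : UD (fun M s v => P M s v ↔ Q M s v) :=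
  ((h.imp h').and (h'.imp h)).congr fun _ _ _ => by tauto

theorem UD.iforall {ι : Type} [Finite ι]
    {R : ι → ∀ (M : Type) (_ : L.Structure M), (ℕ → M) → Prop} (h : ∀ i, UD (R i)) :
    UD (fun M s v => ∀ i, R i M s v) := by
  have key : ∀ s : Finset ι, UD (fun M st v => ∀ i ∈ s, R i M st v) := by
    classical
    intro s
    induction s using Finset.induction_on with
    | empty => exact UD.tru.congr fun _ _ _ => by simp
    | insert a s _ ih => exact ((h a).and ih).congr fun _ _ _ => by simp
  obtain ⟨_⟩ := nonempty_fintype ι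
  exact (key Finset.univ).congr fun _ _ _ => by simp

theorem UD.iexists {ι : Type} [Finite ι]
    {R : ι → ∀ (M : Type) (_ : L.Structure M), (ℕ → M) → Prop} (h : ∀ i, UD (R i)) :
    UD (fun M s v => ∃ i, R i M s v) :=
  (UD.iforall fun i => (h i).not).not.congr fun _ _ _ => by
    push Not
    rfl

theorem UD.const (c : Prop) : UD (L := L) (fun _ _ _ => c) := by
  by_cases h : c
  · exact UD.tru.congr fun _ _ _ => by simp [h]
  · exact UD.fls.congr fun _ _ _ => by simp [h]

theorem UD.eq (i j : ℕ) : UD (L := L) (fun _ _ v => v i = v j) :=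
  ⟨Language.Term.equal (Language.Term.var i) (Language.Term.var j), fun _ _ _ => by
    rw [Language.Formula.realize_equal]
    rfl⟩

theorem UD.rel {r : ℕ} (R : L.Relations r) (π : Fin r → ℕ) :
    UD (L := L) (fun _ s v => s.RelMap R (fun i => v (π i))) :=
  ⟨R.formula fun i => Language.Term.var (π i), fun _ _ _ => by
    rw [Language.Formula.realize_rel]
    rfl⟩

theorem UD.func {r : ℕ} (f : L.Functions r) (π : Fin r → ℕ) (j : ℕ) :
    UD (L := L) (fun _ s v => s.funMap f (fun i => v (π i)) = v j) :=
  ⟨Language.Term.equal (Language.Term.func f fun i => Language.Term.var (π i))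
    (Language.Term.var j), fun _ _ _ => by
    rw [Language.Formula.realize_equal]
    rfl⟩

/-- substitution of variables -/
theorem UD.subst (h : UD P) (e : ℕ → ℕ) : UD (fun M s v => P M s (fun i => v (e i))) := by
  obtain ⟨φ, h⟩ := h
  refine ⟨φ.relabel e, fun M s v => ?_⟩
  rw [Language.Formula.realize_relabel]
  exact h M s _

/-- existential quantification over the variable `i` -/
theorem UD.ex (h : UD P) (i : ℕ) : UD (fun M s v => ∃ x, P M s (Function.update v i x)) := by
  obtain ⟨φ, h⟩ := h
  let g : ℕ → ℕ ⊕ Fin 1 := fun j => if j = i then Sum.inr 0 else Sum.inl j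
  refine ⟨(Language.BoundedFormula.relabel g φ : L.BoundedFormula ℕ 1).ex, fun M s v => ?_⟩
  show Language.BoundedFormula.Realize (Language.BoundedFormula.relabel g φ :
    L.BoundedFormula ℕ 1).ex v default ↔ _
  rw [Language.BoundedFormula.realize_ex]
  refine exists_congr fun x => ?_
  rw [← h M s]
  refine (Language.BoundedFormula.realize_relabel (m := 1) (n := 0) (φ := φ) (g := g) (v := v)
    (xs := Fin.snoc default x)).trans ?_
  have h1 : Sum.elim v ((Fin.snoc default x : Fin (1 + 0) → M) ∘ Fin.castAdd 0) ∘ g =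
      Function.update v i x := by
    funext j
    by_cases hj : j = i
    · subst hj
      rw [Function.update_self]
      simp only [Function.comp, g, if_true, Sum.elim_inr]
      exact Fin.snoc_last (α := fun _ => M) x (default : Fin 0 → M)
    · rw [Function.update_of_ne hj]
      simp only [Function.comp, g, if_neg hj, Sum.elim_inl]
  have h2 : ((Fin.snoc default x : Fin (1 + 0) → M) ∘ Fin.natAdd 1 : Fin 0 → M) = default :=
    Subsingleton.elim _ _
  rw [h1, h2]
  exact Iff.rfl

/-- universal quantification over the variable `i` -/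
theorem UD.all (h : UD P) (i : ℕ) : UD (fun M s v => ∀ x, P M s (Function.update v i x)) :=
  ((h.not.ex i).not).congr fun _ _ _ => by
    constructor
    · intro h x
      by_contra hx
      exact h ⟨x, hx⟩
    · rintro h ⟨x, hx⟩
      exact hx (h x)

/-- sentences -/
theorem UD.sentence (h : UD P) : ∃ φ : L.Sentence, ∀ (M : Type) (s : L.Structure M),
    Language.Sentence.Realize M φ ↔ ∀ x, P M s (fun _ => x) := by
  obtain ⟨φ, h⟩ := h
  refine ⟨(Language.BoundedFormula.relabel (fun _ => Sum.inr 0 : ℕ → Empty ⊕ Fin 1) φ :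
    L.BoundedFormula Empty 1).all, fun M s => ?_⟩
  show Language.BoundedFormula.Realize (Language.BoundedFormula.relabel
    (fun _ => Sum.inr 0 : ℕ → Empty ⊕ Fin 1) φ : L.BoundedFormula Empty 1).all default default ↔ _
  rw [Language.BoundedFormula.realize_all]
  refine forall_congr' fun x => ?_
  rw [← h M s]
  refine (Language.BoundedFormula.realize_relabel (m := 1) (n := 0) (φ := φ)
    (g := fun _ => Sum.inr 0) (v := default) (xs := Fin.snoc default x)).trans ?_
  have h1 : Sum.elim (default : Empty → M) ((Fin.snoc default x : Fin (1 + 0) → M) ∘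
      Fin.castAdd 0) ∘ (fun _ : ℕ => (Sum.inr 0 : Empty ⊕ Fin 1)) = fun _ => x := by
    funext j
    simp only [Function.comp, Sum.elim_inr]
    exact Fin.snoc_last (α := fun _ => M) x (default : Fin 0 → M)
  have h2 : ((Fin.snoc default x : Fin (1 + 0) → M) ∘ Fin.natAdd 1 : Fin 0 → M) = default :=
    Subsingleton.elim _ _
  rw [h1, h2]
  exact Iff.rfl

end

end Pool.Agent.V8H44.Sp
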