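import Pool.Agent.V8H44.Sp.UD
import Pool.Agent.V8H44.Sp.Code
import Pool.Agent.V8H44.Sp.Ar
import Pool.Agent.V8H44.Sp.Rud

/-!
The universal set is a spectrum.
-/

set_option autoImplicit false
set_option linter.unusedVariables false
set_option linter.unusedSimpArgs false
set_option warn.classDefReducibility false

namespace Pool.Agent.V8H44.Sp

open FirstOrder

/-- the relation symbols of the universal sentence -/
inductive URel : ℕ → Type
  | lt : URel 2
  | add : URel 3
  | mul : URel 3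
  | bit : URel 2
  | K : URel 3

/-- the language of the universal sentence -/
def LU : FirstOrder.Language.{0, 0} := ⟨fun _ => Empty, URel⟩

section acc

variable {M : Type}

/-- order -/
def rlt (s : LU.Structure M) (a b : M) : Prop := s.RelMap (n := 2) URel.lt ![a, b]
/-- addition -/
def radd (s : LU.Structure M) (a b c : M) : Prop := s.RelMap (n := 3) URel.add ![a, b, c]
/-- multiplication -/
def rmul (s : LU.Structure M) (a b c : M) : Prop := s.RelMap (n := 3) URel.mul ![a, b, c]
/-- binary digits -/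
def rbit (s : LU.Structure M) (a b : M) : Prop := s.RelMap (n := 2) URel.bit ![a, b]
/-- the tiling -/
def rK (s : LU.Structure M) (a b c : M) : Prop := s.RelMap (n := 3) URel.K ![a, b, c]

/-- the structure with given relations -/
def mkU (lt : M → M → Prop) (add mul : M → M → M → Prop) (bit : M → M → Prop)
    (K : M → M → M → Prop) : LU.Structure M where
  funMap f _ := Empty.elim f
  RelMap {r} R v := match r, R, v with
    | _, .lt, v => lt (v 0) (v 1)
    | _, .add, v => add (v 0) (v 1) (v 2)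
    | _, .mul, v => mul (v 0) (v 1) (v 2)
    | _, .bit, v => bit (v 0) (v 1)
    | _, .K, v => K (v 0) (v 1) (v 2)

end acc

section preds

variable {M : Type} (lt : M → M → Prop) (add mul : M → M → M → Prop) (bit : M → M → Prop)
  (K : M → M → M → Prop)

/-- horizontal matching -/
def HBp (i a b : M) : Prop :=
  ∃ s q r r2, add a b s ∧ mul s s q ∧ add q a r ∧ add r r r2 ∧ bit i r2

/-- vertical matching -/
def VBp (i a b : M) : Prop :=
  ∃ s q r r2 r3, add a b s ∧ mul s s q ∧ add q a r ∧ add r r r2 ∧ sc lt r2 r3 ∧ bit i r3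

/-- `x + i < m` -/
def Inp (i m x : M) : Prop := ∃ y, add x i y ∧ lt y m

/-- the constraints of a cell -/
def CellP (m i x z a : M) : Prop :=
  ¬ ze lt a ∧ (ze lt x → ∀ o, ze lt o → HBp add mul bit i o a) ∧
  (∀ x', sc lt x' x → ∀ b, K x' z b → HBp add mul bit i b a) ∧
  ((∀ y, sc lt x y → ¬ Inp lt add i m y) → ∀ o, ze lt o → HBp add mul bit i a o) ∧
  (ze lt z → ∀ o, ze lt o → VBp lt add mul bit i o a) ∧
  (∀ z', sc lt z' z → ∀ b, K x z' b → VBp lt add mul bit i b a) ∧
  ((∀ y, sc lt z y → ¬ Inp lt add i m y) → ∀ o, ze lt o → VBp lt add mul bit i a o)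

/-- the statement of the universal sentence -/
def QU : Prop :=
  ∃ m i q l, la lt l ∧ mul m m q ∧ add q i l ∧ lt i m ∧
    (∀ x z, Inp lt add i m x → Inp lt add i m z → ∃ a, K x z a) ∧
    (∀ x z a b, K x z a → K x z b → a = b) ∧
    (∀ x z a, Inp lt add i m x → Inp lt add i m z → K x z a → CellP lt add mul bit K m i x z a)

end preds

/-- the axioms of the universal sentence -/
def AxU {M : Type} (s : LU.Structure M) : Prop :=
  IsLin (rlt s) ∧ IsAdd (rlt s) (radd s) ∧ IsMul (rlt s) (radd s) (rmul s) ∧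
    IsBit (rlt s) (rbit s) ∧ QU (rlt s) (radd s) (rmul s) (rbit s) (rK s)

theorem mem_univSet_of {M : Type} [Fintype M] (s : LU.Structure M) (h : AxU s) :
    Fintype.card M ∈ univSet := by
  obtain ⟨hlin, hadd, hmul, hbit, m, i, q, l, hl, hq, hqi, him, hK1, hK2, hK3⟩ := h
  obtain ⟨e, he⟩ := lin_equiv hlin rfl
  have hA : ∀ a b c, radd s a b c ↔ (e a : ℕ) + e b = e c := add_iff he hadd
  have hM : ∀ a b c, rmul s a b c ↔ (e a : ℕ) * e b = e c := mul_iff he hadd hmul
  have hB : ∀ a b, rbit s a b ↔ Nat.testBit (e a) (e b) = true := bit_iff he hbit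
  rw [la_iff he] at hl
  rw [hM] at hq
  rw [hA] at hqi
  rw [he, Fin.lt_def] at him
  have hIn : ∀ x, Inp (rlt s) (radd s) i m x ↔ (e x : ℕ) < e m - e i := by
    intro x
    unfold Inp
    constructor
    · rintro ⟨y, h1, h2⟩
      rw [hA] at h1
      rw [he, Fin.lt_def] at h2
      omega
    · intro h
      obtain ⟨y, hy⟩ := ex_val e (k := e x + e i) (by have := (e m).2; omega)
      exact ⟨y, (hA _ _ _).2 (by omega), by rw [he, Fin.lt_def]; omega⟩
  have hH : ∀ a b, HBp (radd s) (rmul s) (rbit s) i a b → HB (e i) (e a) (e b) := by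
    rintro a b ⟨t, q', r, r2, h1, h2, h3, h4, h5⟩
    rw [hA] at h1 h3 h4
    rw [hM] at h2
    rw [hB] at h5
    unfold HB pr
    rw [h1, h2, h3, h4]
    exact h5
  have hV : ∀ a b, VBp (rlt s) (radd s) (rmul s) (rbit s) i a b → VB (e i) (e a) (e b) := by
    rintro a b ⟨t, q', r, r2, r3, h1, h2, h3, h4, h6, h5⟩
    rw [hA] at h1 h3 h4
    rw [hM] at h2
    rw [hB] at h5
    rw [sc_iff he] at h6
    unfold VB pr
    rw [h1, h2, h3, h4, h6]
    exact h5
  have hM0 : Nonempty M := ⟨m⟩
  let c : ℕ → ℕ → ℕ := fun x z => by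
    classical
    exact if h : ∃ a : M, ∃ x' z' : M, (e x' : ℕ) = x ∧ (e z' : ℕ) = z ∧ rK s x' z' a then
      e h.choose else 0
  have hc : ∀ x z a, rK s x z a → c (e x) (e z) = e a := by
    intro x z a h
    have h1 : ∃ a : M, ∃ x' z' : M, (e x' : ℕ) = e x ∧ (e z' : ℕ) = e z ∧ rK s x' z' a :=
      ⟨a, x, z, rfl, rfl, h⟩
    have h2 : c (e x) (e z) = e h1.choose := dif_pos h1
    obtain ⟨x', z', h3, h4, h5⟩ := h1.choose_spec
    have h6 : x' = x := e.injective (Fin.ext h3)
    have h7 : z' = z := e.injective (Fin.ext h4)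
    rw [h6, h7] at h5
    rw [h2, hK2 _ _ _ _ h5 h]
  refine ⟨e m, e i, by rw [hq]; omega, him, c, ?_⟩
  intro x hx z hz
  obtain ⟨x, rfl⟩ := ex_val e (k := x) (by have := (e m).2; omega)
  obtain ⟨z, rfl⟩ := ex_val e (k := z) (by have := (e m).2; omega)
  have hx' := (hIn x).2 hx
  have hz' := (hIn z).2 hz
  obtain ⟨a, ha⟩ := hK1 x z hx' hz'
  obtain ⟨c1, c2, c3, c4, c5, c6, c7⟩ := hK3 x z a hx' hz' ha
  rw [hc x z a ha]
  obtain ⟨o, ho⟩ := ex_val e (k := 0) (by have := (e m).2; omega)
  have ho' : ze (rlt s) o := (ze_iff he o).2 ho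
  refine ⟨fun h => c1 ((ze_iff he a).2 h), ?_, ?_, ?_, ?_, ?_, ?_⟩
  · intro h
    have h1 := hH _ _ (c2 ((ze_iff he x).2 h) o ho')
    rwa [ho] at h1
  · intro x' h
    obtain ⟨x1, hx1⟩ := ex_val e (k := x') (by have := (e m).2; omega)
    obtain ⟨b, hb⟩ := hK1 x1 z ((hIn x1).2 (by omega)) hz'
    have h1 := hH _ _ (c3 x1 ((sc_iff he _ _).2 (by omega)) b hb)
    rw [← hx1, hc _ _ _ hb]
    exact h1
  · intro h
    have h1 := hH _ _ (c4 (fun y hy hin => by
      rw [sc_iff he] at hy
      rw [hIn] at hin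
      omega) o ho')
    rwa [ho] at h1
  · intro h
    have h1 := hV _ _ (c5 ((ze_iff he z).2 h) o ho')
    rwa [ho] at h1
  · intro z' h
    obtain ⟨z1, hz1⟩ := ex_val e (k := z') (by have := (e m).2; omega)
    obtain ⟨b, hb⟩ := hK1 x z1 hx' ((hIn z1).2 (by omega))
    have h1 := hV _ _ (c6 z1 ((sc_iff he _ _).2 (by omega)) b hb)
    rw [← hz1, hc _ _ _ hb]
    exact h1
  · intro h
    have h1 := hV _ _ (c7 (fun y hy hin => by
      rw [sc_iff he] at hy
      rw [hIn] at hin
      omega) o ho')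
    rwa [ho] at h1

theorem exists_of_mem {N : ℕ} (h : N ∈ univSet) : ∃ s : LU.Structure (Fin N), AxU s := by
  obtain ⟨m, i, hN, him, c, hc⟩ := h
  let lt : Fin N → Fin N → Prop := fun a b => a < b
  let add : Fin N → Fin N → Fin N → Prop := fun a b c => (a : ℕ) + b = c
  let mul : Fin N → Fin N → Fin N → Prop := fun a b c => (a : ℕ) * b = c
  let bit : Fin N → Fin N → Prop := fun a b => Nat.testBit a b = true
  let K : Fin N → Fin N → Fin N → Prop := fun x z a => c x z = a
  have hmN : m < N := by nlinarith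
  have hH : ∀ a b : Fin N, HB i a b → HBp add mul bit ⟨i, by omega⟩ a b := by
    intro a b h
    have h1 := h.lt
    have h2 := le_pr a b
    unfold HB at h
    have h3 : pr a b = ((a : ℕ) + b) * (a + b) + a := rfl
    refine ⟨⟨a + b, by omega⟩, ⟨(a + b) * (a + b), by omega⟩, ⟨pr a b, by omega⟩,
      ⟨pr a b + pr a b, by omega⟩, rfl, rfl, rfl, rfl, h⟩
  have hV : ∀ a b : Fin N, VB i a b → VBp lt add mul bit ⟨i, by omega⟩ a b := by
    intro a b h
    have h1 := h.lt
    have h2 := le_pr a b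
    unfold VB at h
    have h3 : pr a b = ((a : ℕ) + b) * (a + b) + a := rfl
    refine ⟨⟨a + b, by omega⟩, ⟨(a + b) * (a + b), by omega⟩, ⟨pr a b, by omega⟩,
      ⟨pr a b + pr a b, by omega⟩, ⟨pr a b + pr a b + 1, by omega⟩, rfl, rfl, rfl, rfl,
      (std_sc _ _).2 rfl, h⟩
  have hIn : ∀ x : Fin N, Inp lt add ⟨i, by omega⟩ ⟨m, hmN⟩ x ↔ (x : ℕ) < m - i := by
    intro x
    unfold Inp
    constructor
    · rintro ⟨y, h1, h2⟩
      have h1 : (x : ℕ) + i = y := h1
      have h2 : (y : ℕ) < m := h2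
      omega
    · intro h
      exact ⟨⟨x + i, by omega⟩, rfl, show (x : ℕ) + i < m by omega⟩
  refine ⟨mkU lt add mul bit K, std_lin, std_add, std_mul, std_bit, ?_⟩
  have h0 : 0 < N := by omega
  refine ⟨⟨m, hmN⟩, ⟨i, by omega⟩, ⟨m * m, by omega⟩, ⟨m * m + i, by omega⟩,
    (std_la _).2 (by simp only; omega), rfl, rfl, him, ?_, ?_, ?_⟩
  · intro x z hx hz
    rw [show Inp (rlt (mkU lt add mul bit K)) (radd (mkU lt add mul bit K)) = Inp lt add from rfl,
      hIn] at hx hz
    have h1 := hc x hx z hz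
    have h2 : c x z < N := by
      rcases Nat.eq_zero_or_pos (x : ℕ) with h3 | h3
      · have h4 := (h1.2.1 h3).lt
        have h5 := le_pr 0 (c x z)
        omega
      · have h4 := (h1.2.2.1 (x - 1) (by omega)).lt
        have h5 := le_pr (c (x - 1) z) (c x z)
        omega
    exact ⟨⟨c x z, h2⟩, rfl⟩
  · intro x z a b ha hb
    have ha : c x z = a := ha
    have hb : c x z = b := hb
    exact Fin.ext (by omega)
  · intro x z a hx hz ha
    rw [show Inp (rlt (mkU lt add mul bit K)) (radd (mkU lt add mul bit K)) = Inp lt add from rfl,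
      hIn] at hx hz
    have ha : c x z = a := ha
    obtain ⟨h1, h2, h3, h4, h5, h6, h7⟩ := hc x hx z hz
    rw [ha] at h1 h2 h3 h4 h5 h6 h7
    refine ⟨?_, ?_, ?_, ?_, ?_, ?_, ?_⟩
    · intro h
      exact h1 ((std_ze a).1 h)
    · intro h o ho
      have ho' : (o : ℕ) = 0 := (std_ze o).1 ho
      refine hH o a ?_
      rw [ho']
      exact h2 ((std_ze x).1 h)
    · intro x' hx' b hb
      have hb : c x' z = b := hb
      have h8 := h3 x' ((std_sc x' x).1 hx')
      rw [hb] at h8
      exact hH b a h8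
    · intro h o ho
      have ho' : (o : ℕ) = 0 := (std_ze o).1 ho
      refine hH a o ?_
      rw [ho']
      apply h4
      by_contra hne
      refine h ⟨x + 1, by omega⟩ ((std_sc _ _).2 rfl) ((hIn _).2 ?_)
      simp only
      omega
    · intro h o ho
      have ho' : (o : ℕ) = 0 := (std_ze o).1 ho
      refine hV o a ?_
      rw [ho']
      exact h5 ((std_ze z).1 h)
    · intro z' hz' b hb
      have hb : c x z' = b := hb
      have h8 := h6 z' ((std_sc z' z).1 hz')
      rw [hb] at h8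
      exact hV b a h8
    · intro h o ho
      have ho' : (o : ℕ) = 0 := (std_ze o).1 ho
      refine hV a o ?_
      rw [ho']
      apply h7
      by_contra hne
      refine h ⟨z + 1, by omega⟩ ((std_sc _ _).2 rfl) ((hIn _).2 ?_)
      simp only
      omega

end Pool.Agent.V8H44.Sp
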